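import Pool.Agent.G4.Z.CDefs
import Pool.Agent.G3.A.JB
import Pool.Agent.G3.A.JN
import Pool.Agent.G3.A.FrmA

/-!
# G4 Z JW: the weighted bounds for the integrals

`II_tht`: `II (α j) ε (y + l) m m' = exp (L y + c) II (α j) ε y m m'` for `l ∈ Γ` (a factor which depends only on `y` is constant in the fibres).
With the compactness of `ℂ^(k+1) / Γ` the bounds of `A.jb`, `A.jn` for `‖y‖ ≤ R` give `jbw_of_frm`: upper and lower bounds with the same weight `wt W`.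
-/

set_option autoImplicit false

open Topology Filter Metric

namespace Pool.Agent.G4

open Pool.Agent.H36.BP (EN fs wd Sub)
open Pool.Agent.H14.PP (IsCone CurveAt Tan)
open Pool.Agent.H62.EF (MN pr)
open Pool.Agent.AD (Vd Chart Charts)
open Pool.Agent.TG
open Pool.Agent.G3 (Cv wt PS QD Crs)

variable {N k : ℕ}

theorem wt_nonneg {r : ℕ} (W : Fin r → Vd (k + 1) →L[ℂ] ℂ) (y : Vd (k + 1)) : 0 ≤ wt W y := Finset.sum_nonneg fun i _ => by positivity

theorem wt_cont {r : ℕ} (W : Fin r → Vd (k + 1) →L[ℂ] ℂ) : Continuous (wt W) := by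
  unfold wt
  exact continuous_finsetSum _ fun i _ => ((W i).continuous.norm.pow 2)

/-- the weight is bounded on balls -/
theorem wt_le {r : ℕ} (W : Fin r → Vd (k + 1) →L[ℂ] ℂ) (R : ℝ) : ∃ M : ℝ, 0 ≤ M ∧ ∀ y : Vd (k + 1), ‖y‖ ≤ R → wt W y ≤ M := by
  refine ⟨∑ i, (‖W i‖ * R) ^ 2, Finset.sum_nonneg fun i _ => by positivity, fun y hy => ?_⟩
  unfold wt
  refine Finset.sum_le_sum fun i _ => ?_
  refine pow_le_pow_left₀ (norm_nonneg _) ?_ 2
  exact ((W i).le_opNorm y).trans (mul_le_mul_of_nonneg_left hy (norm_nonneg _))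

/-- the weight is positive definite -/
theorem wt_ge {r : ℕ} {W : Fin r → Vd (k + 1) →L[ℂ] ℂ} (hW : ∀ y, (∀ i, W i y = 0) → y = 0) :
    ∃ c : ℝ, 0 < c ∧ ∀ y : Vd (k + 1), c * ‖y‖ ^ 2 ≤ wt W y := by
  have hpos : ∀ y ∈ sphere (0 : Vd (k + 1)) 1, 0 < wt W y := by
    intro y hy
    rw [mem_sphere_zero_iff_norm] at hy
    rcases (wt_nonneg W y).eq_or_lt with h1 | h1
    · exfalso
      have h2 : ∀ i, W i y = 0 := by
        intro i
        have h3 := (Finset.sum_eq_zero_iff_of_nonneg (s := Finset.univ) (f := fun i => ‖W i y‖ ^ 2) fun i _ => by positivity).1 h1.symm i (Finset.mem_univ i)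
        exact norm_eq_zero.1 (pow_eq_zero_iff (two_ne_zero)|>.1 h3)
      rw [hW y h2, norm_zero] at hy
      exact zero_ne_one hy
    · exact h1
  have hne : (sphere (0 : Vd (k + 1)) 1).Nonempty := by
    refine ⟨fun _ => 1, ?_⟩
    rw [mem_sphere_zero_iff_norm]
    simp [pi_norm_const]
  obtain ⟨y₁, hy₁, hmin⟩ := (isCompact_sphere (0 : Vd (k + 1)) 1).exists_isMinOn hne (wt_cont W).continuousOn
  refine ⟨wt W y₁, hpos y₁ hy₁, fun y => ?_⟩
  by_cases hy : y = 0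
  · subst hy
    simp [wt]
  · have hn : 0 < ‖y‖ := norm_pos_iff.2 hy
    set c : ℂ := (((‖y‖⁻¹ : ℝ)) : ℂ) with hcd
    have hcn : ‖c‖ = ‖y‖⁻¹ := by rw [hcd, Complex.norm_real, norm_inv, norm_norm]
    have h1 : c • y ∈ sphere (0 : Vd (k + 1)) 1 := by
      rw [mem_sphere_zero_iff_norm, norm_smul, hcn]
      exact inv_mul_cancel₀ hn.ne'
    have h2 : wt W y₁ ≤ wt W (c • y) := hmin h1
    have h3 : wt W (c • y) = (‖y‖⁻¹) ^ 2 * wt W y := by
      unfold wt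
      rw [Finset.mul_sum]
      refine Finset.sum_congr rfl fun i _ => ?_
      rw [map_smul, norm_smul, hcn, mul_pow]
    rw [h3] at h2
    have h4 := mul_le_mul_of_nonneg_right h2 (by positivity : 0 ≤ ‖y‖ ^ 2)
    have h5 : (‖y‖⁻¹) ^ 2 * wt W y * ‖y‖ ^ 2 = wt W y := by
      field_simp
    rwa [h5] at h4

variable {X : Set (EN N)} {Λ : AddSubgroup (Vd (k + 1))} {u : EN N → Vd (k + 1)} {D B : Set (Vd (k + 1))}

/-- a factor which is a function of `y` -/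
theorem irel_mul {α β : VForm X Λ u} {e : Vd (k + 1) → ℂ} (he : ∀ y, AnalyticAt ℂ e y)
    (h : ∀ y, ∀ x ∈ X, u x - y ∈ Λ → ∀ v : Fin (k + 2) → EN N, (∀ i, Tan X x (v i)) → β.toFun y x v = e y * α.toFun y x v)
    {ε : ℝ} {y : Vd (k + 1)} {m m' : MN N} {v : ℂ} (hv : IRel α ε y m m' v) : IRel β ε y m m' (e y * v) := by
  obtain ⟨χ, c, ρ, A, p, p', hst, hA, hp, hp', hpz, hpz', hpy, hpy', hseg, hv⟩ := hv
  have hms : ∀ q, AnalyticAt ℂ (ms (k := k) c ρ) q := fun q => ms_an c ρ q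
  refine ⟨χ, c, ρ, fun q => e (ms c ρ q) * A q, p, p', hst, ⟨fun q hq => ((he _).comp (hms q)).mul (hA.an q hq), fun q hq => ?_, fun q hq h0 => ?_⟩, hp, hp', hpz, hpz', hpy,
    hpy', hseg, ?_⟩
  · have hd1 : HasFDerivAt (fun q => e (ms c ρ q)) (fderiv ℂ (fun q => e (ms c ρ q)) q) q := ((he _).comp (hms q)).differentiableAt.hasFDerivAt
    have hd2 : HasFDerivAt A (fderiv ℂ A q) q := (hA.an q hq).differentiableAt.hasFDerivAt
    have h0 : fderiv ℂ (fun q => e (ms c ρ q)) q (Pi.single 0 1) = 0 := by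
      have h1 : HasDerivAt (fun t : ℂ => q + t • (Pi.single 0 1 : Vd (k + 2))) (Pi.single 0 1) 0 := by
        have := ((hasDerivAt_id (0 : ℂ)).smul_const (Pi.single 0 1 : Vd (k + 2))).const_add q
        rwa [one_smul] at this
      have hd1' : HasFDerivAt (fun q => e (ms c ρ q)) (fderiv ℂ (fun q => e (ms c ρ q)) q) (q + (0 : ℂ) • (Pi.single 0 1 : Vd (k + 2))) := by
        rw [zero_smul, add_zero]
        exact hd1
      have h2 := hd1'.comp_hasDerivAt (0 : ℂ) h1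
      have h3 : ((fun q => e (ms c ρ q)) ∘ fun t : ℂ => q + t • (Pi.single 0 1 : Vd (k + 2))) = fun _ => e (ms c ρ q) := by
        funext t
        show e (ms c ρ (q + t • (Pi.single 0 1 : Vd (k + 2)))) = _
        congr 1
        unfold ms
        congr 2
        funext i
        show (q + t • (Pi.single 0 1 : Vd (k + 2))) i.succ = q i.succ
        simp
      rw [h3] at h2
      exact h2.unique (hasDerivAt_const _ _)
    have hd3 : fderiv ℂ (fun q => e (ms c ρ q) * A q) q = e (ms c ρ q) • fderiv ℂ A q + A q • fderiv ℂ (fun q => e (ms c ρ q)) q := (hd1.mul hd2).fderiv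
    rw [hd3]
    simp only [ContinuousLinearMap.add_apply, ContinuousLinearMap.smul_apply, smul_eq_mul]
    rw [h0, mul_zero, add_zero, hA.der q hq]
    show _ = β.toFun (ms c ρ q) (χ.σ q) _
    rw [h _ _ (χ.σ_mem q hq).1 (hst.lift q hq) _ fun i => tan_sigma χ hq _]
    rfl
  · show e (ms c ρ q) * A q = 0
    rw [hA.zero q hq h0, mul_zero]
  · show e y * v = (e (ms c ρ p') * A p' - e (ms c ρ p) * A p) / (ρ : ℂ) ^ (k + 1)
    rw [hpz, hpz', hv]
    ring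

/-- the theta factors of the integrals -/
theorem II_tht (G : Geo X Λ u D B) {Γ : AddSubgroup (Vd (k + 1))} {r : ℕ} {W : Fin r → Vd (k + 1) →L[ℂ] ℂ} {α : VForm X Λ u} (hle : Γ ≤ Λ) (h : Pool.Agent.G3.A.Tht Γ W α)
    {δ ε ε₀ : ℝ} (hc : Cst X Λ u D δ ε ε₀) {l : Vd (k + 1)} (hl : l ∈ Γ) {y : Vd (k + 1)} (hy : y ∈ Gd D δ) {m m' : MN N} (hm : m ∈ Fb X Λ u y) (hm' : m' ∈ Fb X Λ u y)
    (hd : dist m m' ≤ ε₀) : ‖II α ε (y + l) m m'‖ = Real.exp (wt W y - wt W (y + l)) * ‖II α ε y m m'‖ := by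
  obtain ⟨L, c, h1, h2⟩ := h l hl
  obtain ⟨v, hv⟩ := hc.rel y hy m hm m' hm' hd α
  obtain ⟨χ, c', ρ, hcap⟩ := hc.cap y hy m hm
  have hε := hc.ε_pos
  have he : ∀ y : Vd (k + 1), AnalyticAt ℂ (fun y => Complex.exp (L y + c)) y := fun y => ((L.analyticAt y).add analyticAt_const).cexp
  have h3 := irel_mul (β := α.shift (hle hl)) he (fun y x hx hy v hv => h2 y x hx hy v hv) hv
  rw [← II_shift (hle hl), II_of_rel G.cone G.tor G.lat le_rfl hv hcap (by linarith), II_of_rel G.cone G.tor G.lat le_rfl h3 hcap (by linarith), norm_mul, h1]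

/-- the weighted bounds -/
theorem jbw_of_frm (G : Geo X Λ u D B) {Γ : AddSubgroup (Vd (k + 1))} {J r : ℕ} {W : Fin r → Vd (k + 1) →L[ℂ] ℂ} {α : Fin J → VForm X Λ u}
    (h : Pool.Agent.G3.A.Frm X Λ u D Γ W α) : JBw X Λ u D α W := by
  obtain ⟨c₀, C₀, hc₀, hC₀, hdec⟩ := h.dec G
  obtain ⟨R, -, hR⟩ := h.lat.cpt
  obtain ⟨M, hM0, hM⟩ := wt_le W R
  -- translation
  have key : ∀ {δ ε ε₀ : ℝ}, Cst X Λ u D δ ε ε₀ → ∀ y ∈ Gd D δ, ∃ l ∈ Γ, y - l ∈ Gd D δ ∧ ‖y - l‖ ≤ R ∧ Fb X Λ u (y - l) = Fb X Λ u y ∧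
      ∀ j, ∀ m ∈ Fb X Λ u y, ∀ m' ∈ Fb X Λ u y, dist m m' ≤ ε₀ →
        ‖JJ (α j) y m m'‖ = Real.exp (wt W (y - l) - wt W y) * ‖II (α j) ε (y - l) m m'‖ := by
    intro δ ε ε₀ hc y hy
    obtain ⟨l, hl, hyl⟩ := hR y
    have h1 : y - l ∈ Gd D δ := by
      rw [sub_eq_add_neg]
      exact (G.gd_add δ (Λ.neg_mem (h.le hl))).2 hy
    have h2 : Fb X Λ u (y - l) = Fb X Λ u y := by
      rw [sub_eq_add_neg, fb_add (Λ.neg_mem (h.le hl))]
    refine ⟨l, hl, h1, hyl, h2, fun j m hm m' hm' hd => ?_⟩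
    have h3 := II_tht G h.le (h.per j) hc hl h1 (by rw [h2]; exact hm) (by rw [h2]; exact hm') hd
    rw [sub_add_cancel] at h3
    rw [jj_eq_II G.cone G.tor G.lat hc hy hm hm' hd, h3]
  refine ⟨h.pos, fun δ hδ => ?_, fun δ hδ => ?_⟩
  · obtain ⟨ε, ε₀, -, -, hc⟩ := exists_cst G hδ one_pos
    choose C hC0 hC using fun j => Pool.Agent.G3.A.jb G (hdec j) hC₀ hc
    have hs : 0 ≤ ∑ j, C j := Finset.sum_nonneg fun j _ => (hC0 j).le
    refine ⟨ε₀, Real.exp M * (1 + ∑ j, C j), hc.ε₀_pos, by positivity, fun j y hy n hn n' hn' hd => ?_⟩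
    obtain ⟨l, hl, h1, h2, h3, h4⟩ := key hc y hy
    rw [h4 j n hn n' hn' hd]
    have h5 : ‖II (α j) ε (y - l) n n'‖ ≤ (1 + ∑ j, C j) * dist n n' := by
      have h6 := hC j (y - l) h1 n (by rw [h3]; exact hn) n' (by rw [h3]; exact hn') hd
      have h7 : C j ≤ 1 + ∑ j, C j := by
        have h8 := Finset.single_le_sum (f := fun j => C j) (fun j _ => (hC0 j).le) (Finset.mem_univ j)
        linarith
      have h8 : Real.exp (-(c₀ * ‖y - l‖ ^ 2)) ≤ 1 := Real.exp_le_one_iff.2 (by nlinarith [sq_nonneg ‖y - l‖])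
      calc ‖II (α j) ε (y - l) n n'‖ ≤ C j * Real.exp (-(c₀ * ‖y - l‖ ^ 2)) * dist n n' := h6
        _ ≤ (1 + ∑ j, C j) * 1 * dist n n' := by
          refine mul_le_mul_of_nonneg_right ?_ dist_nonneg
          exact mul_le_mul h7 h8 (Real.exp_nonneg _) (by linarith)
        _ = _ := by ring
    have h6 : Real.exp (wt W (y - l) - wt W y) ≤ Real.exp M * Real.exp (-wt W y) := by
      rw [← Real.exp_add]
      exact Real.exp_le_exp.2 (by linarith [hM (y - l) h2])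
    calc Real.exp (wt W (y - l) - wt W y) * ‖II (α j) ε (y - l) n n'‖ ≤ (Real.exp M * Real.exp (-wt W y)) * ((1 + ∑ j, C j) * dist n n') :=
          mul_le_mul h6 h5 (norm_nonneg _) (by positivity)
      _ = _ := by ring
  · obtain ⟨ε, ε₀, -, -, hc⟩ := exists_cst G hδ one_pos
    obtain ⟨ε₁, c, hε₁, hle, hc0, hb⟩ := Pool.Agent.G3.A.jn G h.sep hc R
    refine ⟨ε₁, c, hε₁, hc0, fun y hy n hn n' hn' hd => ?_⟩
    obtain ⟨l, hl, h1, h2, h3, h4⟩ := key hc y hy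
    obtain ⟨j, hj⟩ := hb (y - l) h1 h2 n (by rw [h3]; exact hn) n' (by rw [h3]; exact hn') hd
    refine ⟨j, ?_⟩
    rw [h4 j n hn n' hn' (hd.trans hle)]
    have h6 : Real.exp (-wt W y) ≤ Real.exp (wt W (y - l) - wt W y) := Real.exp_le_exp.2 (by linarith [wt_nonneg W (y - l)])
    calc c * Real.exp (-wt W y) * dist n n' = Real.exp (-wt W y) * (c * dist n n') := by ring
      _ ≤ _ := mul_le_mul h6 hj (by positivity) (Real.exp_nonneg _)

/-- the weighted bounds imply the bounds of `G3` -/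
theorem JBw.jbd {J r : ℕ} {W : Fin r → Vd (k + 1) →L[ℂ] ℂ} {α : Fin J → VForm X Λ u} (h : JBw X Λ u D α W) : ∃ c₀ : ℝ, Pool.Agent.G3.JBd X Λ u D α c₀ := by
  obtain ⟨c₀, hc₀, hwt⟩ := wt_ge h.pos
  refine ⟨c₀, hc₀, fun δ hδ => ?_, fun δ R hδ => ?_⟩
  · obtain ⟨ε₀, C, h1, h2, h3⟩ := h.ub δ hδ
    refine ⟨ε₀, C, h1, h2, fun j y hy n hn n' hn' hd => (h3 j y hy n hn n' hn' hd).trans ?_⟩
    refine mul_le_mul_of_nonneg_right (mul_le_mul_of_nonneg_left (Real.exp_le_exp.2 ?_) h2.le) dist_nonneg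
    linarith [hwt y]
  · obtain ⟨ε₀, c, h1, h2, h3⟩ := h.lb δ hδ
    obtain ⟨M, hM0, hM⟩ := wt_le W R
    refine ⟨ε₀, c * Real.exp (-M), h1, by positivity, fun y hy hyR n hn n' hn' hd => ?_⟩
    obtain ⟨j, hj⟩ := h3 y hy n hn n' hn' hd
    refine ⟨j, le_trans ?_ hj⟩
    exact mul_le_mul_of_nonneg_right (mul_le_mul_of_nonneg_left (Real.exp_le_exp.2 (by linarith [hM y hyR])) h2.le) dist_nonneg

end Pool.Agent.G4
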