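import Pool.Agent.G4.Simp
import Pool.Agent.G3.A.Defs
import Pool.Agent.G3.Z.Sit

/-!
# G4 Z CDefs: the data of block Z, any dimension

`Few Bad a`: the exact hits of `Bad` on the lines of direction `a` are few (density `0`, uniformly).
`Csf`: the finite set of the global sections, holomorphic off `D`, meromorphic everywhere (`mer`: a lift which is not identically `0`; no condition on lines).
`JBw`: bounds for the integrals `JJ (α j)` along short paths in the fibres, with the same weight on both sides.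
`Sit`: all data.  The other definitions (`Lim`, `Arr`, `gg`, `Crs`, `LCT`, `JBd`) are those of `G3/Z`.
-/

set_option autoImplicit false

open Topology Filter Metric

namespace Pool.Agent.G4

open Pool.Agent.H36.BP (EN fs wd Sub)
open Pool.Agent.H14.PP (IsCone CurveAt Tan)
open Pool.Agent.H62.EF (MN pr)
open Pool.Agent.AD (Vd Chart Charts)
open Pool.Agent.TG (TMap Lat Geo Gd VForm JJ II Cst Fb TransAt)
open Pool.Agent.G3 (Cv wt PS QD Crs)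
open Pool.Agent.G3.A (Ba)

variable {N k : ℕ}

/-- the exact hits of the lines of direction `a` with `Bad` are few -/
def Few (Bad : Set (Vd (k + 1))) (a : Vd (k + 1)) : Prop :=
  ∀ ε : ℝ, 0 < ε → ∃ C : ℝ, ∀ (y : Vd (k + 1)) (R : ℝ), 0 ≤ R → ∀ S : Finset ℂ, (∀ z ∈ S, ‖z‖ ≤ R ∧ y + z • a ∈ Bad) → (S.card : ℝ) ≤ ε * R ^ 2 + C

/-- the finite set of the global sections -/
structure Csf (X : Set (EN N)) (Λ : AddSubgroup (Vd (k + 1))) (u : EN N → Vd (k + 1)) (D : Set (Vd (k + 1))) (S : Set (Vd (k + 1) → MN N)) : Prop where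
  fin : S.Finite
  hol : ∀ Φ ∈ S, ∀ y ∉ D, ∃ φ : Vd (k + 1) → EN N, AnalyticAt ℂ φ y ∧ ∀ᶠ z in 𝓝 y, φ z ∈ X ∧ Φ z = pr (φ z) ∧ u (φ z) - z ∈ Λ
  mer : ∀ Φ ∈ S, ∀ y, ∃ φ : Vd (k + 1) → EN N, AnalyticAt ℂ φ y ∧ (∃ᶠ z in 𝓝 y, φ z ≠ 0) ∧ ∀ᶠ z in 𝓝 y, z ∉ D → φ z ≠ 0 → Φ z = pr (φ z)
  tr : ∀ Φ ∈ S, ∀ l ∈ Λ, ∃ Φ' ∈ S, ∀ y ∉ D, Φ' y = Φ (y + l)
  cls : ∀ a : Vd (k + 1), a ≠ 0 → ∀ (b : Vd (k + 1)) (G : ℂ → EN N), Cv X Λ u Set.univ G (fun z => z • a + b) →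
    ∃ Φ ∈ S, ∀ z : ℂ, z • a + b ∉ D → pr (G z) = Φ (z • a + b)

/-- bounds for the integrals along short paths, with the weight `wt W` -/
structure JBw (X : Set (EN N)) (Λ : AddSubgroup (Vd (k + 1))) (u : EN N → Vd (k + 1)) (D : Set (Vd (k + 1))) {J r : ℕ} (α : Fin J → VForm X Λ u)
    (W : Fin r → Vd (k + 1) →L[ℂ] ℂ) : Prop where
  pos : ∀ y, (∀ i, W i y = 0) → y = 0
  ub : ∀ δ : ℝ, 0 < δ → ∃ ε₀ C : ℝ, 0 < ε₀ ∧ 0 < C ∧ ∀ j, ∀ y ∈ Gd D δ, ∀ n ∈ Fb X Λ u y, ∀ n' ∈ Fb X Λ u y, dist n n' ≤ ε₀ →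
    ‖JJ (α j) y n n'‖ ≤ C * Real.exp (-wt W y) * dist n n'
  lb : ∀ δ : ℝ, 0 < δ → ∃ ε₀ c : ℝ, 0 < ε₀ ∧ 0 < c ∧ ∀ y ∈ Gd D δ, ∀ n ∈ Fb X Λ u y, ∀ n' ∈ Fb X Λ u y, dist n n' ≤ ε₀ →
    ∃ j, c * Real.exp (-wt W y) * dist n n' ≤ ‖JJ (α j) y n n'‖

/-- the data of Theorem LCT -/
structure Sit (X : Set (EN N)) (Λ : AddSubgroup (Vd (k + 1))) (u : EN N → Vd (k + 1)) (D B : Set (Vd (k + 1))) (p : EN N → EN N → ℝ) (m : ℕ) (C : ℝ) (Q : EN N → ℂ) (d : ℕ)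
    (S : Set (Vd (k + 1) → MN N)) {J r : ℕ} (α : Fin J → VForm X Λ u) (W : Fin r → Vd (k + 1) →L[ℂ] ℂ) : Prop where
  geo : Geo X Λ u D B
  simp : Simp Λ
  ldi : LDi D
  ps : PS X Λ u D p m C
  qd : QD X Λ u D Q d
  q_ne : ∀ x ∈ X, ∃ᶠ x' in 𝓝 x, x' ∈ X ∧ Q x' ≠ 0
  csf : Csf X Λ u D S
  q_sec : ∀ Φ ∈ S, ∀ y ∉ D, ∀ x ∈ X, pr x = Φ y → Q x = 0
  jbw : JBw X Λ u D α W
  few : ∀ a : Vd (k + 1), a ≠ 0 → Few (Ba D B a) a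
  crs : Crs X Λ u D B

end Pool.Agent.G4
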