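import Pool.Agent.G3.A.Ul

/-!
# G4 Z Abs: limits of holomorphic functions off the hits

`V' ⊆ V` are sets, `V'` open, the discs of radius `r₂` around the points of `V'` are in `V`.  The functions `g n` are, for `𝒰`-many `n`, holomorphic near each point of `V` off the closed discrete set `Sg`; near
the points of `Sg` in `V` they agree on an annulus with a holomorphic function on the disc; on circles of radius between `r₁` and `r₂` around all points of `V'` they are bounded by `C exp (-c |z|²)`.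
`abs_lim`: then they converge on the compact subsets of `V'` off `Sg` to a function `Q`, holomorphic on `V'`, with `‖Q z‖ exp ((c / 2) |z|²) ≤ |C| exp (c r₂²)`.

Proof as in `G3/Z/Abs` (`abs_lb`: gluing at the hits in a disc, maximum principle; `ul_diff`; removable singularities).
-/

set_option autoImplicit false

open Topology Filter Metric

namespace Pool.Agent.G4

/-- gluing at finitely many discs -/
private theorem abs_glue {T : Finset ℂ} {ρ : ℂ → ℝ} (hd : ∀ s ∈ T, ∀ t ∈ T, s ≠ t → ρ s + ρ t ≤ dist s t) {J : ℂ → ℂ → ℂ} {G : ℂ → ℂ}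
    (hJ : ∀ s ∈ T, DifferentiableOn ℂ (J s) (ball s (ρ s))) (hJG : ∀ s ∈ T, ∀ z, ρ s / 4 < dist z s → dist z s < ρ s → J s z = G z)
    (hρ : ∀ s ∈ T, 0 < ρ s) {D : Set ℂ} (hG : ∀ z ∈ D, (∀ s ∈ T, ρ s ≤ dist z s) → DifferentiableAt ℂ G z) :
    ∃ W : ℂ → ℂ, (∀ z ∈ D, DifferentiableAt ℂ W z) ∧ ∀ z, (∀ s ∈ T, ρ s / 4 < dist z s) → W z = G z := by
  classical
  set W : ℂ → ℂ := fun z => if h : ∃ s ∈ T, dist z s < ρ s then J h.choose z else G z with hW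
  have hWJ : ∀ s ∈ T, ∀ z ∈ ball s (ρ s), W z = J s z := by
    intro s hs z hz
    have h : ∃ s ∈ T, dist z s < ρ s := ⟨s, hs, hz⟩
    have h1 : h.choose = s := by
      by_contra hne
      have h2 := hd _ h.choose_spec.1 s hs hne
      have h3 := h.choose_spec.2
      have h4 : dist z s < ρ s := hz
      have h5 := dist_triangle_left h.choose s z
      linarith
    simp only [hW]
    rw [dif_pos h, h1]
  have hWG : ∀ z, (∀ s ∈ T, ρ s / 4 < dist z s) → W z = G z := by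
    intro z hz
    by_cases h : ∃ s ∈ T, dist z s < ρ s
    · obtain ⟨s, hs, hzs⟩ := h
      rw [hWJ s hs z hzs]
      exact hJG s hs z (hz s hs) hzs
    · simp only [hW]
      rw [dif_neg h]
  refine ⟨W, ?_, hWG⟩
  intro z hz
  by_cases h : ∃ s ∈ T, dist z s < ρ s
  · obtain ⟨s, hs, hzs⟩ := h
    have h1 : DifferentiableAt ℂ (J s) z := (hJ s hs).differentiableAt (isOpen_ball.mem_nhds hzs)
    refine h1.congr_of_eventuallyEq ?_
    filter_upwards [isOpen_ball.mem_nhds hzs] with w hw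
    exact hWJ s hs w hw
  · push Not at h
    refine (hG z hz h).congr_of_eventuallyEq ?_
    have h2 : ∀ᶠ w in 𝓝 z, ∀ s ∈ T, ρ s / 4 < dist w s := by
      rw [Filter.eventually_all_finset]
      intro s hs
      have h3 : ρ s / 4 < dist z s := by linarith [h s hs, hρ s hs]
      exact (isOpen_lt continuous_const (continuous_id.dist continuous_const)).mem_nhds h3
    filter_upwards [h2] with w hw
    exact hWG w hw

private theorem abs_fin {Sg : Set ℂ} (hSd : ∀ z, ∀ᶠ w in 𝓝[≠] z, w ∉ Sg) {K : Set ℂ} (hK : IsCompact K) : (Sg ∩ K).Finite := by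
  by_contra h
  obtain ⟨x, -, hx⟩ := Set.Infinite.exists_accPt_of_subset_isCompact h hK Set.inter_subset_right
  rw [accPt_iff_frequently] at hx
  have h1 := hSd x
  rw [eventually_nhdsWithin_iff] at h1
  obtain ⟨w, ⟨hw1, hw2⟩, hw3⟩ := (hx.and_eventually h1).exists
  exact hw3 hw1 hw2.1

/-- the local bound -/
private theorem abs_lb (𝒰 : Ultrafilter ℕ) {V V' : Set ℂ} (hV'o : IsOpen V') {r₁ r₂ c C : ℝ} (hVV : ∀ z₀ ∈ V', closedBall z₀ r₂ ⊆ V) (hr₁ : 0 < r₁) (hc : 0 < c) {Sg : Set ℂ}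
    (hSc : IsClosed Sg) (hSd : ∀ z, ∀ᶠ w in 𝓝[≠] z, w ∉ Sg) {g : ℕ → ℂ → ℂ}
    (h1 : ∀ z₀ ∈ V, z₀ ∉ Sg → ∃ r : ℝ, 0 < r ∧ ∀ᶠ n in (𝒰 : Filter ℕ), DifferentiableOn ℂ (g n) (ball z₀ r))
    (h2 : ∀ z₀ ∈ V, z₀ ∈ Sg → ∀ ε : ℝ, 0 < ε → ∃ r : ℝ, 0 < r ∧ r < ε ∧
      ∀ᶠ n in (𝒰 : Filter ℕ), ∃ J : ℂ → ℂ, DifferentiableOn ℂ J (ball z₀ r) ∧ ∀ z, r / 4 < dist z z₀ → dist z z₀ < r → J z = g n z)
    (hb : ∀ z₀ ∈ V', ∃ r ∈ Set.Icc r₁ r₂, (∀ z, dist z z₀ = r → z ∉ Sg) ∧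
      ∀ᶠ n in (𝒰 : Filter ℕ), ∀ z, dist z z₀ = r → ‖g n z‖ ≤ C * Real.exp (-c * ‖z‖ ^ 2)) {z₀ : ℂ} (hz₀ : z₀ ∈ V') (hz₀S : z₀ ∉ Sg) :
    ∃ δ : ℝ, 0 < δ ∧ ball z₀ δ ⊆ V' \ Sg ∧ ∀ᶠ n in (𝒰 : Filter ℕ), DifferentiableOn ℂ (g n) (ball z₀ δ) ∧
      ∀ z ∈ ball z₀ δ, ‖g n z‖ ≤ |C| * Real.exp (-c * (max 0 (‖z₀‖ - r₂)) ^ 2) := by
  classical
  obtain ⟨r, ⟨hr1, hr2⟩, hcS, hcb⟩ := hb z₀ hz₀
  have hr0 : 0 < r := hr₁.trans_le hr1
  have hD : closedBall z₀ r ⊆ V := (closedBall_subset_closedBall hr2).trans (hVV z₀ hz₀)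
  obtain ⟨r', hr', hdr'⟩ := h1 z₀ (hD (mem_closedBall_self hr0.le)) hz₀S
  have hopen : IsOpen (V' \ Sg) := hV'o.sdiff hSc
  obtain ⟨δ₀, hδ₀, hδ₀s⟩ := Metric.isOpen_iff.1 hopen z₀ ⟨hz₀, hz₀S⟩
  obtain ⟨δ, hδ, hδa, hδb, hδc⟩ : ∃ δ : ℝ, 0 < δ ∧ δ ≤ δ₀ / 2 ∧ δ ≤ r' ∧ δ ≤ r₁ :=
    ⟨min (δ₀ / 2) (min r' r₁), lt_min (by linarith) (lt_min hr' hr₁), min_le_left _ _, (min_le_right _ _).trans (min_le_left _ _),
      (min_le_right _ _).trans (min_le_right _ _)⟩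
  have hfin : (Sg ∩ closedBall z₀ r).Finite := abs_fin hSd (isCompact_closedBall z₀ r)
  obtain ⟨T, hTmem⟩ : ∃ T : Finset ℂ, ∀ s, s ∈ T ↔ s ∈ Sg ∧ s ∈ closedBall z₀ r := ⟨hfin.toFinset, fun s => by rw [hfin.mem_toFinset]; rfl⟩
  have hTr : ∀ s ∈ T, dist s z₀ < r := by
    intro s hs
    obtain ⟨hs1, hs2⟩ := (hTmem s).1 hs
    rcases (mem_closedBall.1 hs2).lt_or_eq with h | h
    · exact h
    · exact absurd hs1 (hcS s h)
  have hTδ : ∀ s ∈ T, δ₀ ≤ dist s z₀ := by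
    intro s hs
    by_contra hlt
    push Not at hlt
    exact (hδ₀s (mem_ball.2 hlt)).2 ((hTmem s).1 hs).1
  obtain ⟨ε, hε0, hεT, hεr, hεδ⟩ : ∃ ε : ℝ, 0 < ε ∧ (∀ s ∈ T, ∀ t ∈ T, s ≠ t → 2 * ε ≤ dist s t) ∧ (∀ s ∈ T, ε ≤ r - dist s z₀) ∧ ε ≤ δ := by
    have key : ∀ a : ℝ, 0 < a → ∀ᶠ ε in 𝓝[>] (0 : ℝ), ε ≤ a := fun a ha => by
      filter_upwards [Ioo_mem_nhdsGT ha] with ε hε using hε.2.le
    have e1 : ∀ᶠ ε in 𝓝[>] (0 : ℝ), ∀ s ∈ T, ∀ t ∈ T, s ≠ t → 2 * ε ≤ dist s t := by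
      rw [Filter.eventually_all_finset]
      intro s hs
      rw [Filter.eventually_all_finset]
      intro t ht
      by_cases hst : s = t
      · exact Eventually.of_forall fun ε h => absurd hst h
      · filter_upwards [key (dist s t / 2) (by have := dist_pos.2 hst; positivity)] with ε hε _
        linarith
    have e2 : ∀ᶠ ε in 𝓝[>] (0 : ℝ), ∀ s ∈ T, ε ≤ r - dist s z₀ := by
      rw [Filter.eventually_all_finset]
      intro s hs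
      exact key _ (by linarith [hTr s hs])
    have e4 : ∀ᶠ ε in 𝓝[>] (0 : ℝ), 0 < ε := self_mem_nhdsWithin
    obtain ⟨ε, hε1, hε2, hε3, hε4⟩ := (e1.and (e2.and ((key δ hδ).and e4))).exists
    exact ⟨ε, hε4, hε1, hε2, hε3⟩
  have h3 : ∀ s, ∃ ρ : ℝ, s ∈ T → 0 < ρ ∧ ρ < ε ∧ ∀ᶠ n in (𝒰 : Filter ℕ), ∃ J : ℂ → ℂ, DifferentiableOn ℂ J (ball s ρ) ∧
      ∀ z, ρ / 4 < dist z s → dist z s < ρ → J z = g n z := by
    intro s
    by_cases hs : s ∈ T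
    · obtain ⟨ρ, h3⟩ := h2 s (hD ((hTmem s).1 hs).2) ((hTmem s).1 hs).1 ε hε0
      exact ⟨ρ, fun _ => h3⟩
    · exact ⟨0, fun h => absurd h hs⟩
  choose ρ hρ using h3
  have hJ : ∀ᶠ n in (𝒰 : Filter ℕ), ∀ s ∈ T, ∃ J : ℂ → ℂ, DifferentiableOn ℂ J (ball s (ρ s)) ∧
      ∀ z, ρ s / 4 < dist z s → dist z s < ρ s → J z = g n z := by
    rw [Filter.eventually_all_finset]
    intro s hs
    exact (hρ s hs).2.2
  set Q : Set ℂ := closedBall z₀ r \ ⋃ s ∈ T, ball s (ρ s) with hQ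
  have hQc : IsCompact Q := (isCompact_closedBall z₀ r).diff (isOpen_biUnion fun s _ => isOpen_ball)
  have hQS : ∀ z ∈ Q, z ∉ Sg := by
    intro z hz hzS
    have h4 : z ∈ T := (hTmem z).2 ⟨hzS, hz.1⟩
    apply hz.2
    rw [Set.mem_iUnion₂]
    exact ⟨z, h4, mem_ball_self (hρ z h4).1⟩
  have hQd : ∀ᶠ n in (𝒰 : Filter ℕ), ∀ z ∈ Q, DifferentiableAt ℂ (g n) z := by
    refine hQc.induction_on (p := fun S => ∀ᶠ n in (𝒰 : Filter ℕ), ∀ z ∈ S, DifferentiableAt ℂ (g n) z) ?_ ?_ ?_ ?_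
    · exact Eventually.of_forall fun n z hz => absurd hz (Set.notMem_empty z)
    · intro s t hst ht
      filter_upwards [ht] with n hn z hz
      exact hn z (hst hz)
    · intro s t hs ht
      filter_upwards [hs, ht] with n hn1 hn2 z hz
      rcases hz with hz | hz
      · exact hn1 z hz
      · exact hn2 z hz
    · intro x hx
      obtain ⟨a, ha, h4⟩ := h1 x (hD hx.1) (hQS x hx)
      refine ⟨ball x a, mem_nhdsWithin_of_mem_nhds (ball_mem_nhds x ha), ?_⟩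
      filter_upwards [h4] with n hn z hz
      exact hn.differentiableAt (isOpen_ball.mem_nhds hz)
  refine ⟨δ, hδ, (ball_subset_ball (by linarith)).trans hδ₀s, ?_⟩
  filter_upwards [hJ, hQd, hcb, hdr'] with n hn1 hn2 hn3 hn4
  refine ⟨hn4.mono (ball_subset_ball hδb), ?_⟩
  intro z hz
  choose! J hJ1 using hn1
  obtain ⟨W, hW1, hW2⟩ := abs_glue (T := T) (ρ := ρ) (J := J) (G := g n) (D := closedBall z₀ r)
    (by
      intro s hs t ht hst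
      have := hεT s hs t ht hst
      linarith [(hρ s hs).2.1, (hρ t ht).2.1])
    (fun s hs => (hJ1 s hs).1) (fun s hs => (hJ1 s hs).2) (fun s hs => (hρ s hs).1)
    (by
      intro w hw hws
      refine hn2 w ⟨hw, ?_⟩
      rw [Set.mem_iUnion₂]
      rintro ⟨s, hs, hws'⟩
      exact absurd (hws s hs) (not_le.2 hws'))
  have hzr : z ∈ closedBall z₀ r := by
    rw [mem_ball] at hz
    rw [mem_closedBall]
    linarith
  have hWz : W z = g n z := by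
    refine hW2 z fun s hs => ?_
    have h5 := hTδ s hs
    have h6 := dist_triangle_right s z₀ z
    rw [mem_ball] at hz
    have h7 := (hρ s hs).2.1
    have h8 := (hρ s hs).1
    rw [dist_comm s z, dist_comm z₀ z] at h6
    linarith
  rw [← hWz]
  have hWd : DiffContOnCl ℂ W (ball z₀ r) := by
    refine ⟨fun w hw => (hW1 w (ball_subset_closedBall hw)).differentiableWithinAt, ?_⟩
    rw [closure_ball _ hr0.ne']
    exact fun w hw => (hW1 w hw).continuousAt.continuousWithinAt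
  refine Complex.norm_le_of_forall_mem_frontier_norm_le isBounded_ball hWd ?_ (by rw [closure_ball _ hr0.ne']; exact hzr)
  intro w hw
  rw [frontier_ball _ hr0.ne', mem_sphere] at hw
  have hWw : W w = g n w := by
    refine hW2 w fun s hs => ?_
    have h5 := hεr s hs
    have h6 := dist_triangle_right w z₀ s
    have h7 := (hρ s hs).2.1
    have h8 := (hρ s hs).1
    rw [hw, dist_comm z₀ s] at h6
    linarith
  rw [hWw]
  refine (hn3 w hw).trans ?_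
  refine mul_le_mul (le_abs_self C) ?_ (Real.exp_pos _).le (abs_nonneg C)
  rw [Real.exp_le_exp]
  have h9 : max 0 (‖z₀‖ - r₂) ≤ ‖w‖ := by
    refine max_le (norm_nonneg _) ?_
    have h10 := norm_sub_norm_le z₀ w
    rw [← dist_eq_norm, dist_comm, hw] at h10
    linarith
  have h11 : (max 0 (‖z₀‖ - r₂)) ^ 2 ≤ ‖w‖ ^ 2 := pow_le_pow_left₀ (le_max_left _ _) h9 2
  nlinarith

/-- the limit -/
theorem abs_lim (𝒰 : Ultrafilter ℕ) {V V' : Set ℂ} (hV'o : IsOpen V') {r₁ r₂ c C : ℝ} (hVV : ∀ z₀ ∈ V', closedBall z₀ r₂ ⊆ V) (hr₁ : 0 < r₁) (hr : r₁ ≤ r₂) (hc : 0 < c) {Sg : Set ℂ}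
    (hSc : IsClosed Sg)
    (hSd : ∀ z, ∀ᶠ w in 𝓝[≠] z, w ∉ Sg) {g : ℕ → ℂ → ℂ}
    (h1 : ∀ z₀ ∈ V, z₀ ∉ Sg → ∃ r : ℝ, 0 < r ∧ ∀ᶠ n in (𝒰 : Filter ℕ), DifferentiableOn ℂ (g n) (ball z₀ r))
    (h2 : ∀ z₀ ∈ V, z₀ ∈ Sg → ∀ ε : ℝ, 0 < ε → ∃ r : ℝ, 0 < r ∧ r < ε ∧
      ∀ᶠ n in (𝒰 : Filter ℕ), ∃ J : ℂ → ℂ, DifferentiableOn ℂ J (ball z₀ r) ∧ ∀ z, r / 4 < dist z z₀ → dist z z₀ < r → J z = g n z)
    (hb : ∀ z₀ ∈ V', ∃ r ∈ Set.Icc r₁ r₂, (∀ z, dist z z₀ = r → z ∉ Sg) ∧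
      ∀ᶠ n in (𝒰 : Filter ℕ), ∀ z, dist z z₀ = r → ‖g n z‖ ≤ C * Real.exp (-c * ‖z‖ ^ 2)) :
    ∃ Q : ℂ → ℂ, (∀ z ∈ V', DifferentiableAt ℂ Q z) ∧ (∀ z ∈ V', ‖Q z‖ * Real.exp (c / 2 * ‖z‖ ^ 2) ≤ |C| * Real.exp (c * r₂ ^ 2)) ∧
      ∀ K ⊆ V' \ Sg, IsCompact K → ∀ ε : ℝ, 0 < ε → ∀ᶠ n in (𝒰 : Filter ℕ), ∀ z ∈ K, ‖g n z - Q z‖ < ε := by
  classical
  have hVo : IsOpen (V' \ Sg) := hV'o.sdiff hSc
  have hlim : ∀ z₀, ∃ (δ : ℝ) (K : ℂ → ℂ), z₀ ∈ V' \ Sg → 0 < δ ∧ ball z₀ δ ⊆ V' \ Sg ∧ DifferentiableOn ℂ K (ball z₀ δ) ∧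
      (∀ z ∈ ball z₀ δ, ‖K z‖ ≤ |C| * Real.exp (-c * (max 0 (‖z₀‖ - r₂)) ^ 2)) ∧
      ∀ z ∈ ball z₀ δ, ∀ w : ℕ → ℂ, Tendsto w (𝒰 : Filter ℕ) (𝓝 z) → Tendsto (fun n => g n (w n)) (𝒰 : Filter ℕ) (𝓝 (K z)) := by
    intro z₀
    by_cases hz : z₀ ∈ V' \ Sg
    · obtain ⟨δ, hδ, hδs, h⟩ := abs_lb 𝒰 hV'o hVV hr₁ hc hSc hSd h1 h2 hb hz.1 hz.2
      obtain ⟨K, hK1, hK2, hK3⟩ := Pool.Agent.G3.A.ul_diff h
      exact ⟨δ, K, fun _ => ⟨hδ, hδs, hK1, hK2, hK3⟩⟩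
    · exact ⟨0, fun _ => 0, fun h => absurd h hz⟩
  choose δ K hK using hlim
  obtain ⟨P, hP⟩ : ∃ P : ℂ → ℂ, ∀ z, P z = K z z := ⟨fun z => K z z, fun z => rfl⟩
  have hPt : ∀ z ∈ V' \ Sg, ∀ w : ℕ → ℂ, Tendsto w (𝒰 : Filter ℕ) (𝓝 z) → Tendsto (fun n => g n (w n)) (𝒰 : Filter ℕ) (𝓝 (P z)) := by
    intro z hz w hw
    rw [hP]
    exact (hK z hz).2.2.2.2 z (mem_ball_self (hK z hz).1) w hw
  have hPK : ∀ z₀ ∈ V' \ Sg, ∀ z ∈ ball z₀ (δ z₀), P z = K z₀ z := by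
    intro z₀ hz₀ z hz
    have hzV := (hK z₀ hz₀).2.1 hz
    exact tendsto_nhds_unique (hPt z hzV (fun _ => z) tendsto_const_nhds) ((hK z₀ hz₀).2.2.2.2 z hz (fun _ => z) tendsto_const_nhds)
  have hPd : ∀ z ∈ V' \ Sg, DifferentiableAt ℂ P z := by
    intro z₀ hz₀
    have h3 : DifferentiableAt ℂ (K z₀) z₀ := (hK z₀ hz₀).2.2.1.differentiableAt (ball_mem_nhds _ (hK z₀ hz₀).1)
    refine h3.congr_of_eventuallyEq ?_
    filter_upwards [ball_mem_nhds z₀ (hK z₀ hz₀).1] with z hz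
    exact hPK z₀ hz₀ z hz
  have hPb : ∀ z ∈ V' \ Sg, ‖P z‖ ≤ |C| * Real.exp (-c * (max 0 (‖z‖ - r₂)) ^ 2) := by
    intro z hz
    rw [hP]
    exact (hK z hz).2.2.2.1 z (mem_ball_self (hK z hz).1)
  have hPb1 : ∀ z ∈ V' \ Sg, ‖P z‖ ≤ |C| := by
    intro z hz
    refine (hPb z hz).trans (mul_le_of_le_one_right (abs_nonneg C) ?_)
    rw [Real.exp_le_one_iff]
    nlinarith [sq_nonneg (max 0 (‖z‖ - r₂))]
  -- extension
  obtain ⟨Q, hQS, hQP⟩ : ∃ Q : ℂ → ℂ, (∀ z ∈ Sg, Q z = limUnder (𝓝[≠] z) P) ∧ ∀ z, z ∉ Sg → Q z = P z :=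
    ⟨fun z => if z ∈ Sg then limUnder (𝓝[≠] z) P else P z, fun z hz => if_pos hz, fun z hz => if_neg hz⟩
  have hQd : ∀ z ∈ V', DifferentiableAt ℂ Q z := by
    intro z hz
    by_cases hzS : z ∈ Sg
    · have h3 : ∀ᶠ w in 𝓝[≠] z, w ∉ Sg := hSd z
      rw [eventually_nhdsWithin_iff] at h3
      obtain ⟨a, ha, h4⟩ := Metric.eventually_nhds_iff_ball.1 (h3.and (hV'o.mem_nhds hz))
      have h5 : DifferentiableOn ℂ (Function.update P z (limUnder (𝓝[≠] z) P)) (ball z a) := by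
        refine Complex.differentiableOn_update_limUnder_of_bddAbove (ball_mem_nhds z ha) ?_ ?_
        · intro w hw
          exact (hPd w ⟨(h4 w hw.1).2, (h4 w hw.1).1 hw.2⟩).differentiableWithinAt
        · refine ⟨|C|, ?_⟩
          rintro _ ⟨w, hw, rfl⟩
          exact hPb1 w ⟨(h4 w hw.1).2, (h4 w hw.1).1 hw.2⟩
      refine (h5.differentiableAt (ball_mem_nhds z ha)).congr_of_eventuallyEq ?_
      filter_upwards [ball_mem_nhds z ha] with w hw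
      by_cases hwz : w = z
      · rw [hwz, Function.update_self]
        exact hQS z hzS
      · rw [Function.update_of_ne hwz]
        exact hQP w ((h4 w hw).1 hwz)
    · refine (hPd z ⟨hz, hzS⟩).congr_of_eventuallyEq ?_
      filter_upwards [hSc.isOpen_compl.mem_nhds hzS] with w hw
      exact hQP w hw
  have hexp : ∀ z : ℂ, Real.exp (-c * (max 0 (‖z‖ - r₂)) ^ 2) * Real.exp (c / 2 * ‖z‖ ^ 2) ≤ Real.exp (c * r₂ ^ 2) := by
    intro z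
    rw [← Real.exp_add, Real.exp_le_exp]
    rcases le_total 0 (‖z‖ - r₂) with h | h
    · rw [max_eq_right h]
      nlinarith [mul_nonneg hc.le (sq_nonneg (‖z‖ - 2 * r₂))]
    · rw [max_eq_left h]
      have h3 := norm_nonneg z
      have h4 : ‖z‖ ^ 2 ≤ r₂ ^ 2 := pow_le_pow_left₀ h3 (by linarith) 2
      nlinarith [sq_nonneg r₂]
  have hPe : ∀ z ∈ V' \ Sg, ‖P z‖ * Real.exp (c / 2 * ‖z‖ ^ 2) ≤ |C| * Real.exp (c * r₂ ^ 2) := by
    intro z hz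
    calc ‖P z‖ * Real.exp (c / 2 * ‖z‖ ^ 2) ≤ |C| * Real.exp (-c * (max 0 (‖z‖ - r₂)) ^ 2) * Real.exp (c / 2 * ‖z‖ ^ 2) :=
          mul_le_mul_of_nonneg_right (hPb z hz) (Real.exp_pos _).le
      _ = |C| * (Real.exp (-c * (max 0 (‖z‖ - r₂)) ^ 2) * Real.exp (c / 2 * ‖z‖ ^ 2)) := by ring
      _ ≤ |C| * Real.exp (c * r₂ ^ 2) := mul_le_mul_of_nonneg_left (hexp z) (abs_nonneg C)
  have hQe : ∀ z ∈ V', ‖Q z‖ * Real.exp (c / 2 * ‖z‖ ^ 2) ≤ |C| * Real.exp (c * r₂ ^ 2) := by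
    intro z hz
    by_cases hzS : z ∈ Sg
    · have hcont : ContinuousAt (fun w : ℂ => ‖Q w‖ * Real.exp (c / 2 * ‖w‖ ^ 2)) z := by
        refine (hQd z hz).continuousAt.norm.mul ?_
        fun_prop
      have ht : Tendsto (fun w : ℂ => ‖Q w‖ * Real.exp (c / 2 * ‖w‖ ^ 2)) (𝓝[≠] z) (𝓝 (‖Q z‖ * Real.exp (c / 2 * ‖z‖ ^ 2))) :=
        hcont.tendsto.mono_left nhdsWithin_le_nhds
      refine le_of_tendsto ht ?_
      filter_upwards [hSd z, mem_nhdsWithin_of_mem_nhds (hV'o.mem_nhds hz)] with w hw1 hw2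
      rw [hQP w hw1]
      exact hPe w ⟨hw2, hw1⟩
    · rw [hQP z hzS]
      exact hPe z ⟨hz, hzS⟩
  refine ⟨Q, hQd, hQe, ?_⟩
  -- conclusion
  intro K' hK' hK'c ε hε
  by_contra hcon
  rw [← Ultrafilter.eventually_not] at hcon
  have h3 : ∀ n, ∃ z, (¬ ∀ z ∈ K', ‖g n z - Q z‖ < ε) → z ∈ K' ∧ ε ≤ ‖g n z - Q z‖ := by
    intro n
    by_cases h : ∀ z ∈ K', ‖g n z - Q z‖ < ε
    · exact ⟨0, fun h' => absurd h h'⟩
    · push Not at h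
      obtain ⟨z, hz1, hz2⟩ := h
      exact ⟨z, fun _ => ⟨hz1, hz2⟩⟩
  choose w hw using h3
  obtain ⟨z, hzK, hz⟩ := hK'c.ultrafilter_le_nhds (𝒰.map w) (by
    rw [Ultrafilter.coe_map, le_principal_iff, mem_map]
    filter_upwards [hcon] with n hn
    exact (hw n hn).1)
  have h5 := hPt z (hK' hzK) w hz
  have h6 : Tendsto (fun n => Q (w n)) (𝒰 : Filter ℕ) (𝓝 (P z)) := by
    rw [← hQP z (hK' hzK).2]
    exact (hQd z (hK' hzK).1).continuousAt.tendsto.comp hz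
  have h7 := (h5.sub h6).norm
  rw [sub_self, norm_zero] at h7
  obtain ⟨n, h9, h10⟩ := ((h7.eventually (gt_mem_nhds hε)).and hcon).exists
  exact absurd h9 (not_lt.2 (hw n h10).2)

end Pool.Agent.G4
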