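import Pool.Agent.G4.Z.Core
import Pool.Agent.G4.Z.Abs
import Pool.Agent.G4.U.UStar
import Pool.Agent.G3.Z.Circ

/-!
# G4 Z LctD: Theorem LCT, any dimension

`arr_false`.  `Eb` is the set of the exact hits of the bad points on the limit line, `Sg` the set of all exact hits of `D`.  `circ` for `D` (radius at most `1 / 4`) gives `δ₁` and so `δ`, then `r₀`; `circ` for
`D ∪ Z` (radius at most `r₀ / 8`) gives `δ₂`.  `gg_off`, `gg_hit`, `gg_up`, `abs_lim`: the functions `gv` converge off the discs of radius `r₀ / 4` around `Eb` to `PP`, `‖PP z‖ ≤ C exp (- (c / 2) |z|²)`.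
`κ z = exp ((c / 2) |z|²) ‖PP z‖` satisfies the hypotheses of `ustar`: (hb) by the bound; (hs) maximum principle, the factor is `exp (- (c / 2) (r₀ / 4)²)`; (hm) maximum principle on a circle of radius at most
`r₀ / 8`, then `core` with a circle of radius at most `1 / 4`.  So `PP = 0` far from `Eb`: contradiction to `gg_lo`.
`lct`: `lct_lim` and the invariance of `Lam`, `deriv` under the translations of `h n` by `l n`; `arr_false`.
-/

set_option autoImplicit false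

open Topology Filter Metric

namespace Pool.Agent.G4

open Pool.Agent.H36.BP (EN fs wd Sub)
open Pool.Agent.H14.PP (IsCone CurveAt Tan)
open Pool.Agent.H62.EF (MN pr)
open Pool.Agent.AD (Vd Chart Charts)
open Pool.Agent.TG (TMap Lat Geo Gd)

open Pool.Agent.TG (VForm JJ II Cst Fb TransAt)
open Pool.Agent.G3 (Cv wt PS QD Crs Lim Arr gg Lq Lam Np pf Ok circ LCT)
open Pool.Agent.G3.A (Ba)

variable {N k : ℕ} {X : Set (EN N)} {Λ : AddSubgroup (Vd (k + 1))} {u : EN N → Vd (k + 1)} {D B : Set (Vd (k + 1))} {p : EN N → EN N → ℝ} {m d : ℕ} {C : ℝ}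
  {Q : EN N → ℂ} {S : Set (Vd (k + 1) → MN N)} {J r : ℕ} {α : Fin J → VForm X Λ u} {W : Fin r → Vd (k + 1) →L[ℂ] ℂ} {𝒰 : Ultrafilter ℕ} {F : ℕ → ℂ → EN N} {h : ℕ → ℂ → Vd (k + 1)}
  {E : ℕ → ℂ → ℂ} {a b : Vd (k + 1)} {Φ : Vd (k + 1) → MN N}

/-- the multiples of the elements of a lattice form a lattice -/
private theorem LctD_lat {Γ : AddSubgroup (Vd (k + 1))} (hΓ : Lat Γ) {M : ℕ} (hM : 1 ≤ M) : Lat (Γ.map (nsmulAddMonoidHom M)) := by
  have hM1 : (1 : ℝ) ≤ M := by exact_mod_cast hM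
  have hM0 : (0 : ℝ) < M := by linarith
  obtain ⟨δ, hδ, hd⟩ := hΓ.disc
  obtain ⟨R, hR, hc⟩ := hΓ.cpt
  refine ⟨⟨δ, hδ, ?_⟩, ⟨M * R, by positivity, ?_⟩⟩
  · rintro _ ⟨l, hl, rfl⟩ hn
    have h1 : (nsmulAddMonoidHom M : Vd (k + 1) →+ Vd (k + 1)) l = (M : ℝ) • l := by
      rw [nsmulAddMonoidHom_apply, Nat.cast_smul_eq_nsmul]
    rw [h1, norm_smul, Real.norm_of_nonneg hM0.le] at hn
    have h2 : ‖l‖ < δ := by
      have h3 : ‖l‖ ≤ M * ‖l‖ := le_mul_of_one_le_left (norm_nonneg _) hM1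
      linarith
    rw [hd l hl h2, map_zero]
  · intro y
    obtain ⟨l, hl, hyl⟩ := hc ((M : ℝ)⁻¹ • y)
    refine ⟨(nsmulAddMonoidHom M : Vd (k + 1) →+ Vd (k + 1)) l, ⟨l, hl, rfl⟩, ?_⟩
    have h1 : (nsmulAddMonoidHom M : Vd (k + 1) →+ Vd (k + 1)) l = (M : ℝ) • l := by
      rw [nsmulAddMonoidHom_apply, Nat.cast_smul_eq_nsmul]
    have h2 : y - (M : ℝ) • l = (M : ℝ) • ((M : ℝ)⁻¹ • y - l) := by
      rw [smul_sub, smul_smul, mul_inv_cancel₀ hM0.ne', one_smul]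
    rw [h1, h2, norm_smul, Real.norm_of_nonneg hM0.le]
    exact mul_le_mul_of_nonneg_left hyl hM0.le

/-! discrete sets in the plane -/

private theorem LctD_fin {Sg : Set ℂ} (hSd : ∀ z, ∀ᶠ w in 𝓝[≠] z, w ∉ Sg) {K : Set ℂ} (hK : IsCompact K) : (Sg ∩ K).Finite := by
  by_contra h
  obtain ⟨x, -, hx⟩ := Set.Infinite.exists_accPt_of_subset_isCompact h hK Set.inter_subset_right
  rw [accPt_iff_frequently] at hx
  have h1 := hSd x
  rw [eventually_nhdsWithin_iff] at h1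
  obtain ⟨w, ⟨hw1, hw2⟩, hw3⟩ := (hx.and_eventually h1).exists
  exact hw3 hw1 hw2.1

private theorem LctD_closed {Sg : Set ℂ} (hSd : ∀ z, ∀ᶠ w in 𝓝[≠] z, w ∉ Sg) : IsClosed Sg := by
  refine isClosed_of_closure_subset fun x hx => ?_
  by_contra hxS
  rw [mem_closure_iff_frequently] at hx
  have h1 := hSd x
  rw [eventually_nhdsWithin_iff] at h1
  obtain ⟨w, hw1, hw2⟩ := (hx.and_eventually h1).exists
  exact hw2 (fun h => hxS (by rwa [Set.mem_singleton_iff.1 h] at hw1)) hw1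

private theorem far_of {Eb : Set ℂ} {z : ℂ} {s s' : ℝ} (hs0 : 0 ≤ s) (hs : s < s') (h : ∀ e ∈ Eb, s' ≤ dist z e) : z ∈ (cthickening s Eb)ᶜ := by
  intro hz
  rw [mem_cthickening_iff] at hz
  have h1 : ENNReal.ofReal s' ≤ infEDist z Eb := le_infEDist.2 fun e he => by
    rw [edist_dist]
    exact ENNReal.ofReal_le_ofReal (h e he)
  have h2 := h1.trans hz
  rw [ENNReal.ofReal_le_ofReal_iff hs0] at h2
  linarith

private theorem far_to {Eb : Set ℂ} {z : ℂ} {s : ℝ} (h : z ∈ (cthickening s Eb)ᶜ) : ∀ e ∈ Eb, s < dist z e := by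
  intro e he
  by_contra hlt
  push Not at hlt
  exact h (mem_cthickening_of_dist_le z e s Eb he hlt)

/-- there is a point far from a set with few points -/
private theorem far_ex {Eb : Set ℂ} {M₀ : ℕ} (hfin : (Eb ∩ closedBall 0 2).Finite) (hloc : (Eb ∩ closedBall 0 2).ncard ≤ M₀) {s : ℝ} (hs0 : 0 ≤ s) (hs : 2 * s * ((M₀ : ℝ) + 1) < 1) :
    ((cthickening s Eb)ᶜ).Nonempty := by
  classical
  have hM : 0 < (M₀ : ℝ) + 1 := by positivity
  have hs1 : s < 1 / (2 * ((M₀ : ℝ) + 1)) := by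
    rw [lt_div_iff₀ (by positivity)]
    linarith
  obtain ⟨s', hss, hs'⟩ := exists_between hs1
  rw [lt_div_iff₀ (by positivity)] at hs'
  by_contra hne
  have h1 : ∀ z : ℂ, ∃ e ∈ Eb, dist z e < s' := by
    intro z
    by_contra hcon
    push Not at hcon
    exact hne ⟨z, far_of hs0 hss hcon⟩
  choose e he hd using h1
  set f : ℕ → ℂ := fun i => (((i : ℝ) / ((M₀ : ℝ) + 1) : ℝ) : ℂ) with hf
  have hinj : ∀ i ∈ Finset.range (M₀ + 1), ∀ j ∈ Finset.range (M₀ + 1), e (f i) = e (f j) → i = j := by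
    intro i _ j _ hij
    by_contra hne'
    have h2 := hd (f i)
    have h3 := hd (f j)
    rw [← hij] at h3
    have h4 := dist_triangle_right (f i) (f j) (e (f i))
    have h5 : dist (f i) (f j) = |(i : ℝ) - j| / ((M₀ : ℝ) + 1) := by
      rw [dist_eq_norm, hf]
      simp only
      rw [← Complex.ofReal_sub, Complex.norm_real, ← sub_div, norm_div, Real.norm_eq_abs, Real.norm_of_nonneg hM.le]
    have h6 : (1 : ℝ) ≤ |(i : ℝ) - j| := by
      have h7 : (1 : ℤ) ≤ |(i : ℤ) - j| := Int.one_le_abs (sub_ne_zero.2 (by exact_mod_cast hne'))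
      exact_mod_cast h7
    have h7 : |(i : ℝ) - j| / ((M₀ : ℝ) + 1) < 2 * s' := by
      rw [← h5]
      linarith
    rw [div_lt_iff₀ hM] at h7
    linarith
  have hmem : ∀ i ∈ Finset.range (M₀ + 1), e (f i) ∈ hfin.toFinset := by
    intro i hi
    rw [Set.Finite.mem_toFinset]
    refine ⟨he _, ?_⟩
    rw [mem_closedBall_zero_iff]
    have h2 : ‖f i‖ ≤ 1 := by
      rw [hf]
      simp only
      rw [Complex.norm_real, Real.norm_of_nonneg (by positivity), div_le_one hM]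
      rw [Finset.mem_range] at hi
      have h3 : (i : ℝ) < (M₀ : ℝ) + 1 := by exact_mod_cast hi
      exact h3.le
    have h3 := hd (f i)
    rw [dist_comm, dist_eq_norm] at h3
    have h4 : ‖e (f i)‖ ≤ ‖e (f i) - f i‖ + ‖f i‖ := norm_le_norm_sub_add _ _
    have h5 : s' ≤ 1 := by nlinarith
    linarith
  have h2 := Finset.card_le_card_of_injOn (fun i => e (f i)) hmem fun i hi j hj => hinj i hi j hj
  rw [Finset.card_range, ← Set.ncard_eq_toFinset_card _ hfin] at h2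
  omega

/-- the weight -/
private theorem gauss (c : ℝ) (z w : ℂ) : Real.exp (c / 2 * ‖w‖ ^ 2) =
    Real.exp (c / 2 * ‖z‖ ^ 2) * ‖Complex.exp ((c : ℂ) * ((starRingEnd ℂ) z * (w - z)))‖ * Real.exp (c / 2 * ‖w - z‖ ^ 2) := by
  rw [Complex.norm_exp, ← Real.exp_add, ← Real.exp_add, Complex.re_ofReal_mul]
  congr 1
  rw [Complex.sq_norm, Complex.sq_norm, Complex.sq_norm, Complex.normSq_apply, Complex.normSq_apply, Complex.normSq_apply]
  simp only [Complex.sub_re, Complex.sub_im, Complex.mul_re, Complex.conj_re, Complex.conj_im]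
  ring

/-- the maximum principle -/
private theorem maxp {V' : Set ℂ} {P : ℂ → Fin J → ℂ} (hP : ∀ z ∈ V', DifferentiableAt ℂ P z) {z : ℂ} {s : ℝ} (hs : 0 < s) (hsub : closedBall z s ⊆ V') {f : ℂ → ℂ}
    (hf : DifferentiableOn ℂ f (closedBall z s)) {T : ℝ} (hT : ∀ w, dist w z = s → ‖P w‖ * ‖f w‖ ≤ T) : ‖P z‖ * ‖f z‖ ≤ T := by
  have hd : DifferentiableOn ℂ (fun w => f w • P w) (closedBall z s) := hf.smul fun w hw => (hP w (hsub hw)).differentiableWithinAt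
  have hcl : DiffContOnCl ℂ (fun w => f w • P w) (ball z s) := by
    refine DifferentiableOn.diffContOnCl ?_
    rw [closure_ball z hs.ne']
    exact hd
  have h1 : ‖f z • P z‖ ≤ T := by
    refine Complex.norm_le_of_forall_mem_frontier_norm_le isBounded_ball hcl (fun w hw => ?_) ?_
    · rw [frontier_ball z hs.ne', mem_sphere] at hw
      rw [norm_smul, mul_comm]
      exact hT w hw
    · rw [closure_ball z hs.ne']
      exact mem_closedBall_self hs.le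
  rwa [norm_smul, mul_comm] at h1

theorem arr_false (H : Sit X Λ u D B p m C Q d S α W) (hΦ : Φ ∈ S) (A : Arr X Λ u D Q d p m 𝒰 F h E a b Φ) : False := by
  classical
  have ha : a ≠ 0 := A.lim.a_ne
  have ha0 : 0 < ‖a‖ := norm_pos_iff.2 ha
  obtain ⟨μ, Z, hμ, hZ, ⟨M, hM, hp⟩, hcount⟩ := ordQ H.geo H.simp H.ldi H.csf H.qd H.q_ne hΦ (H.q_sec Φ hΦ)
  obtain ⟨hAc, -⟩ := ordQ_bounds H.geo H.csf H.qd hΦ hμ hM hZ hp
  set Sg : Set ℂ := {z | z • a + b ∈ D} with hSg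
  have hSd : ∀ z, ∀ᶠ w in 𝓝[≠] z, w ∉ Sg := fun z => H.ldi a ha b z
  have hSc : IsClosed Sg := LctD_closed hSd
  set Eb : Set ℂ := {z | z • a + b ∈ Ba D B a} with hEb
  have hES : Eb ⊆ Sg := fun z hz => hz.1
  have hEd : ∀ z, ∀ᶠ w in 𝓝[≠] z, w ∉ Eb := fun z => (hSd z).mono fun w hw h => hw (hES h)
  have hEc : IsClosed Eb := LctD_closed hEd
  have hEf : ∀ (z : ℂ) (R : ℝ), (Eb ∩ closedBall z R).Finite := fun z R => LctD_fin hEd (isCompact_closedBall z R)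
  -- few bad hits
  have hfew : ∀ ε : ℝ, 0 < ε → ∃ C : ℝ, ∀ (z : ℂ) (R : ℝ), 0 ≤ R → ((Eb ∩ closedBall z R).ncard : ℝ) ≤ ε * R ^ 2 + C := by
    intro ε hε
    obtain ⟨C', hC'⟩ := H.few a ha ε hε
    refine ⟨C', fun z R hR => ?_⟩
    have hf := hEf z R
    rw [Set.ncard_eq_toFinset_card _ hf]
    have h1 := hC' (z • a + b) R hR (hf.toFinset.image fun w => w - z) (by
      intro v hv
      rw [Finset.mem_image] at hv
      obtain ⟨w, hw, rfl⟩ := hv
      rw [Set.Finite.mem_toFinset] at hw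
      refine ⟨by rw [← dist_eq_norm]; exact hw.2, ?_⟩
      have e : z • a + b + (w - z) • a = w • a + b := by
        rw [sub_smul]
        abel
      rw [e]
      exact hw.1)
    rwa [Finset.card_image_of_injective _ sub_left_injective] at h1
  obtain ⟨C₄, hC₄⟩ := hfew 1 one_pos
  obtain ⟨M₀, hM₀⟩ : ∃ M₀ : ℕ, 4 + C₄ ≤ M₀ := exists_nat_ge _
  have hloc : ∀ z : ℂ, (Eb ∩ closedBall z 2).ncard ≤ M₀ := by
    intro z
    have h1 := hC₄ z 2 (by norm_num)
    have h2 : ((Eb ∩ closedBall z 2).ncard : ℝ) ≤ (M₀ : ℝ) := by linarith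
    exact_mod_cast h2
  -- the big circles
  obtain ⟨δ₁, ρ₁, hδ₁, hρ₁, -, hbig⟩ := circ H.geo.D_closed H.geo.lat H.geo.D_inv (a := a) (fun b' => (hcount a ha b').mono fun z hz => Or.inl hz) (r₂ := 1 / 4) (by norm_num)
  obtain ⟨δ, hδ, hδ4, hδa⟩ : ∃ δ : ℝ, 0 < δ ∧ δ ≤ 1 / 4 ∧ 2 * δ * ‖a‖ ≤ δ₁ := by
    refine ⟨min (1 / 4) (δ₁ / (2 * ‖a‖)), lt_min (by norm_num) (by positivity), min_le_left _ _, ?_⟩
    have h1 : min (1 / 4) (δ₁ / (2 * ‖a‖)) ≤ δ₁ / (2 * ‖a‖) := min_le_right _ _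
    rw [le_div_iff₀ (by positivity)] at h1
    linarith
  obtain ⟨r₀, hr₀d⟩ : ∃ r₀ : ℝ, r₀ = δ * δ ^ M₀ := ⟨_, rfl⟩
  have hr₀ : 0 < r₀ := by rw [hr₀d]; positivity
  have hδ1 : δ ^ M₀ ≤ 1 := pow_le_one₀ hδ.le (by linarith)
  have hr₀δ : r₀ ≤ δ := by rw [hr₀d]; nlinarith
  have hr₀c : r₀ / (2 * δ) * (1 / δ) ^ M₀ ≤ 1 / 2 := by
    rw [hr₀d, one_div, inv_pow]
    have h1 : δ ^ M₀ ≠ 0 := pow_ne_zero _ hδ.ne'
    have h2 : δ * δ ^ M₀ / (2 * δ) * (δ ^ M₀)⁻¹ = 1 / 2 := by field_simp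
    rw [h2]
  -- the small circles
  have hinv : ∀ y ∈ D ∪ Z, ∀ l ∈ Λ.map (nsmulAddMonoidHom M), y + l ∈ D ∪ Z := by
    rintro y hy _ ⟨l, hl, rfl⟩
    rw [nsmulAddMonoidHom_apply]
    rcases hy with hy | hy
    · exact Or.inl (H.geo.D_inv y hy _ (Λ.nsmul_mem hl M))
    · exact Or.inr (hp y hy l hl)
  obtain ⟨δ₂, ρ₂, hδ₂, hρ₂, hρ₂r, hsmall⟩ := circ hAc (LctD_lat H.geo.lat hM) hinv (a := a) (hcount a ha) (r₂ := r₀ / 8) (by positivity)
  obtain ⟨c, hc, hup⟩ := gg_up H hΦ A hμ hM hZ hp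
  obtain ⟨C', hC'⟩ := hup δ₂ hδ₂
  have hlift : ∀ z z₀ : ℂ, z • a + b = (z - z₀) • a + (z₀ • a + b) := by
    intro z z₀
    rw [sub_smul]
    abel
  have hsm : ∀ z₀ : ℂ, ∃ s ∈ Set.Icc ρ₂ (r₀ / 8), ∀ z : ℂ, dist z z₀ = s → ∀ w ∈ D ∪ Z, δ₂ ≤ ‖z • a + b - w‖ := by
    intro z₀
    obtain ⟨s, hs, hrd⟩ := hsmall (z₀ • a + b)
    refine ⟨s, hs, fun z hz w hw => ?_⟩
    rw [hlift z z₀]
    exact hrd (z - z₀) (by rw [← dist_eq_norm]; exact hz) w hw
  have hbg : ∀ z₀ : ℂ, ∃ s ∈ Set.Icc ρ₁ (1 / 4), ∀ z : ℂ, dist z z₀ = s → z • a + b ∈ Gd D δ₁ := by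
    intro z₀
    obtain ⟨s, hs, hrd⟩ := hbig (z₀ • a + b)
    refine ⟨s, hs, fun z hz w hw => ?_⟩
    rw [hlift z z₀]
    exact hrd (z - z₀) (by rw [← dist_eq_norm]; exact hz) w hw
  -- the limit functions
  set V' : Set ℂ := (cthickening (r₀ / 4) Eb)ᶜ with hV'
  have hV'o : IsOpen V' := isClosed_cthickening.isOpen_compl
  have hEdif : ∀ (z₀ : ℂ) (r : ℝ), ∀ᶠ n in (𝒰 : Filter ℕ), DifferentiableOn ℂ (E n) (ball z₀ r) := by
    intro z₀ r
    filter_upwards [A.ex (‖z₀‖ + r)] with n hn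
    refine hn.1.mono fun z hz => ?_
    rw [mem_ball, dist_eq_norm] at hz
    rw [mem_ball, dist_zero_right]
    calc ‖z‖ = ‖(z - z₀) + z₀‖ := by rw [sub_add_cancel]
      _ ≤ ‖z - z₀‖ + ‖z₀‖ := norm_add_le _ _
      _ < ‖z₀‖ + r := by linarith
  have hlimj : ∀ j : Fin J, ∃ P : ℂ → ℂ, (∀ z ∈ V', DifferentiableAt ℂ P z) ∧ (∀ z ∈ V', ‖P z‖ * Real.exp (c / 2 * ‖z‖ ^ 2) ≤ |C'| * Real.exp (c * (r₀ / 8) ^ 2)) ∧
      ∀ K ⊆ V' \ Sg, IsCompact K → ∀ ε : ℝ, 0 < ε → ∀ᶠ n in (𝒰 : Filter ℕ), ∀ z ∈ K, ‖gv α Φ F h E Q d p m μ n z j - P z‖ < ε := by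
    intro j
    refine abs_lim 𝒰 (V := Ebᶜ) hV'o (r₁ := ρ₂) (r₂ := r₀ / 8) ?_ hρ₂ hρ₂r hc (C := C') hSc hSd (g := fun n z => gv α Φ F h E Q d p m μ n z j) ?_ ?_ ?_
    · intro z₀ hz₀ w hw hwE
      have h1 := far_to hz₀ w hwE
      rw [mem_closedBall, dist_comm] at hw
      linarith
    · intro z₀ _ hz₀S
      obtain ⟨r, hr, hn⟩ := gg_off H hΦ A (α j) hz₀S
      refine ⟨r, hr, ?_⟩
      filter_upwards [hn, hEdif z₀ r] with n h1 h2
      exact ((h1.pow μ).mul h2).mul_const _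
    · intro z₀ hz₀ hz₀S ε hε
      have hB : z₀ • a + b ∉ B := fun hb => hz₀ ⟨hz₀S, Or.inl hb⟩
      have ht : TransAt D (z₀ • a + b) a := by
        by_contra ht
        exact hz₀ ⟨hz₀S, Or.inr ht⟩
      obtain ⟨r, hr, hrε, hn⟩ := gg_hit H hΦ A (α j) hz₀S hB ht hε
      refine ⟨r, hr, hrε, ?_⟩
      filter_upwards [hn, hEdif z₀ r] with n h1 h2
      obtain ⟨K, hK, hKe⟩ := h1
      refine ⟨fun z => K z ^ μ * E n z * ((Real.exp (Lam Q d p m (F n) (h n) 0) : ℝ) : ℂ), ((hK.pow μ).mul h2).mul_const _, ?_⟩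
      intro z hz1 hz2
      simp only [gv]
      rw [hKe z hz1 hz2]
    · intro z₀ _
      obtain ⟨s, hs, hdist⟩ := hsm z₀
      refine ⟨s, hs, ?_, ?_⟩
      · intro z hz hzS
        have h1 := hdist z hz (z • a + b) (Or.inl hzS)
        rw [sub_self, norm_zero] at h1
        linarith
      · filter_upwards [hC' (sphere z₀ s) (isCompact_sphere z₀ s) fun z hz => hdist z (mem_sphere.1 hz)] with n hn z hz
        rw [gv_norm]
        exact hn z (mem_sphere.2 hz) j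
  choose P hP1 hP2 hP3 using hlimj
  obtain ⟨PP, hPP⟩ : ∃ PP : ℂ → Fin J → ℂ, ∀ z, PP z = fun j => P j z := ⟨fun z j => P j z, fun z => rfl⟩
  have hPP1 : ∀ z ∈ V', DifferentiableAt ℂ PP z := by
    intro z hz
    have e : PP = fun z j => P j z := funext hPP
    rw [e]
    exact differentiableAt_pi.2 fun j => hP1 j z hz
  have hPP2 : ∀ z ∈ V', Real.exp (c / 2 * ‖z‖ ^ 2) * ‖PP z‖ ≤ |C'| * Real.exp (c * (r₀ / 8) ^ 2) := by
    intro z hz
    have h0 : 0 < Real.exp (c / 2 * ‖z‖ ^ 2) := Real.exp_pos _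
    rw [mul_comm, ← le_div_iff₀ h0, pi_norm_le_iff_of_nonneg (by positivity)]
    intro j
    rw [le_div_iff₀ h0, hPP]
    exact hP2 j z hz
  have hPP3 : ∀ K ⊆ V' \ Sg, IsCompact K → ∀ ε : ℝ, 0 < ε → ∀ᶠ n in (𝒰 : Filter ℕ), ∀ z ∈ K, ‖gv α Φ F h E Q d p m μ n z - PP z‖ < ε := by
    intro K hK hKc ε hε
    filter_upwards [Filter.eventually_all.2 fun j => hP3 j K hK hKc ε hε] with n hn z hz
    rw [pi_norm_lt_iff hε]
    intro j
    rw [hPP]
    exact hn j z hz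
  obtain ⟨C₃, hC₃, hcore⟩ := core H hΦ A μ hδ₁ hδ₂
  -- the weight
  obtain ⟨hh, hhd⟩ : ∃ hh : ℂ → ℂ → ℂ, ∀ z w, hh z w = Complex.exp ((c : ℂ) * ((starRingEnd ℂ) z * (w - z))) := ⟨fun z w => Complex.exp ((c : ℂ) * ((starRingEnd ℂ) z * (w - z))), fun _ _ => rfl⟩
  have hhdiff : ∀ z, Differentiable ℂ (hh z) := by
    intro z
    have e : hh z = fun w => Complex.exp ((c : ℂ) * ((starRingEnd ℂ) z * (w - z))) := funext (hhd z)
    rw [e]
    fun_prop
  have hhz : ∀ z, hh z z = 1 := by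
    intro z
    rw [hhd, sub_self, mul_zero, mul_zero, Complex.exp_zero]
  have hconv : ∀ (z w : ℂ) (y S' : ℝ), 0 ≤ y → Real.exp (c / 2 * ‖w‖ ^ 2) * ‖PP w‖ * y ≤ S' →
      ‖PP w‖ * (y * ‖hh z w‖) ≤ S' * Real.exp (-(c / 2 * ‖z‖ ^ 2)) * Real.exp (-(c / 2 * dist w z ^ 2)) := by
    intro z w y S' hy hS'
    rw [gauss c z w, ← hhd, ← dist_eq_norm] at hS'
    have e1 : Real.exp (c / 2 * ‖z‖ ^ 2) * Real.exp (-(c / 2 * ‖z‖ ^ 2)) = 1 := by rw [← Real.exp_add, add_neg_cancel, Real.exp_zero]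
    have e2 : Real.exp (c / 2 * dist w z ^ 2) * Real.exp (-(c / 2 * dist w z ^ 2)) = 1 := by rw [← Real.exp_add, add_neg_cancel, Real.exp_zero]
    have h1 := mul_le_mul_of_nonneg_right hS' (mul_nonneg (Real.exp_pos (-(c / 2 * ‖z‖ ^ 2))).le (Real.exp_pos (-(c / 2 * dist w z ^ 2))).le)
    calc ‖PP w‖ * (y * ‖hh z w‖) = (Real.exp (c / 2 * ‖z‖ ^ 2) * Real.exp (-(c / 2 * ‖z‖ ^ 2))) * (Real.exp (c / 2 * dist w z ^ 2) * Real.exp (-(c / 2 * dist w z ^ 2))) *
          (‖PP w‖ * (y * ‖hh z w‖)) := by rw [e1, e2]; ring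
      _ = Real.exp (c / 2 * ‖z‖ ^ 2) * ‖hh z w‖ * Real.exp (c / 2 * dist w z ^ 2) * ‖PP w‖ * y * (Real.exp (-(c / 2 * ‖z‖ ^ 2)) * Real.exp (-(c / 2 * dist w z ^ 2))) := by ring
      _ ≤ S' * (Real.exp (-(c / 2 * ‖z‖ ^ 2)) * Real.exp (-(c / 2 * dist w z ^ 2))) := h1
      _ = _ := by ring
  have hback : ∀ (z : ℂ) (y S' : ℝ), ‖PP z‖ * y ≤ S' * Real.exp (-(c / 2 * ‖z‖ ^ 2)) → Real.exp (c / 2 * ‖z‖ ^ 2) * ‖PP z‖ * y ≤ S' := by
    intro z y S' hS'
    have e1 : Real.exp (c / 2 * ‖z‖ ^ 2) * Real.exp (-(c / 2 * ‖z‖ ^ 2)) = 1 := by rw [← Real.exp_add, add_neg_cancel, Real.exp_zero]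
    calc Real.exp (c / 2 * ‖z‖ ^ 2) * ‖PP z‖ * y = Real.exp (c / 2 * ‖z‖ ^ 2) * (‖PP z‖ * y) := by ring
      _ ≤ Real.exp (c / 2 * ‖z‖ ^ 2) * (S' * Real.exp (-(c / 2 * ‖z‖ ^ 2))) := mul_le_mul_of_nonneg_left hS' (Real.exp_pos _).le
      _ = S' * (Real.exp (c / 2 * ‖z‖ ^ 2) * Real.exp (-(c / 2 * ‖z‖ ^ 2))) := by ring
      _ = S' := by rw [e1, mul_one]
  have hzero : ∀ z, (∀ e ∈ Eb, r₀ ≤ dist z e) → Real.exp (c / 2 * ‖z‖ ^ 2) * ‖PP z‖ = 0 := by
    refine Pool.Agent.G4.U.ustar hEc hEf hloc (fun ε hε => ?_) (δ := δ) (ρ := 1 / 2) (r₀ := r₀) (q := Real.exp (-(c / 2 * (r₀ / 4) ^ 2)))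
      (C₁ := max (|C'| * Real.exp (c * (r₀ / 8) ^ 2)) C₃) (κ := fun z => Real.exp (c / 2 * ‖z‖ ^ 2) * ‖PP z‖) hδ hδ4 (by norm_num) le_rfl hr₀ hr₀c ?_ ?_ ?_ ?_ ?_
    · obtain ⟨C₆, hC₆⟩ := hfew ε hε
      exact ⟨C₆, fun z R hR => hC₆ z R (by linarith)⟩
    · rw [Real.exp_lt_one_iff]
      have : 0 < c / 2 * (r₀ / 4) ^ 2 := by positivity
      linarith
    · intro z
      positivity
    · intro z hz
      exact (hPP2 z (far_of (by positivity) (by linarith : r₀ / 4 < r₀ / 2) hz)).trans (le_max_left _ _)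
    · -- (hs)
      intro z hz g hg _ S' hS'
      have hsub : closedBall z (r₀ / 4) ⊆ V' := by
        intro w hw
        refine far_of (by positivity) (by linarith : r₀ / 4 < r₀ / 2) fun e he => ?_
        have h1 := hz e he
        have h2 := dist_triangle z w e
        rw [mem_closedBall, dist_comm] at hw
        linarith
      have hsub2 : closedBall z (r₀ / 4) ⊆ ball z (r₀ / 2) := closedBall_subset_ball (by linarith)
      have h1 := maxp hPP1 (s := r₀ / 4) (by positivity) hsub (f := fun w => g w * hh z w) ((hg.mono hsub2).mul (hhdiff z).differentiableOn)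
        (T := S' * Real.exp (-(c / 2 * ‖z‖ ^ 2)) * Real.exp (-(c / 2 * (r₀ / 4) ^ 2))) (fun w hw => by
          have h2 := hconv z w ‖g w‖ S' (norm_nonneg _) (hS' w hw)
          rw [hw] at h2
          rwa [norm_mul])
      simp only [hhz, mul_one] at h1
      refine hback z ‖g z‖ _ (h1.trans (le_of_eq ?_))
      ring
    · -- (hm)
      intro z hz _ g hg _ S' hS'
      obtain ⟨s, hs, hsd⟩ := hsm z
      have hs0 : 0 < s := hρ₂.trans_le hs.1
      have hsub : closedBall z s ⊆ V' := by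
        intro w hw
        refine far_of (by positivity) (by linarith : r₀ / 4 < 3 * r₀ / 8) fun e he => ?_
        have h1 := hz e he
        have h2 := dist_triangle z w e
        rw [mem_closedBall, dist_comm] at hw
        linarith [hs.2]
      -- the inequality at the points of the small circle
      have hw' : ∀ w', dist w' z = s → 0 ≤ S' ∧ ‖PP w'‖ * ‖g w' * hh z w'‖ ≤ C₃ * (S' * Real.exp (-(c / 2 * ‖z‖ ^ 2))) := by
        intro w' hw'
        obtain ⟨t, ht, htd⟩ := hbg w'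
        have ht0 : 0 < t := hρ₁.trans_le ht.1
        have hwz : ∀ w, dist w w' ≤ t → dist w z ≤ 1 / 2 := by
          intro w hw
          have h1 := dist_triangle w w' z
          linarith [hs.2, ht.2]
        have hwE : ∀ w, dist w w' = t → ∀ e ∈ Eb, 2 * δ ≤ dist w e := by
          intro w hw e he
          have h1 := htd w hw (e • a + b) (hES he)
          have e1 : w • a + b - (e • a + b) = (w - e) • a := by
            rw [sub_smul]
            abel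
          rw [e1, norm_smul, ← dist_eq_norm] at h1
          by_contra hlt
          push Not at hlt
          have h2 := mul_lt_mul_of_pos_right hlt ha0
          linarith
        have hineq : ∀ w, dist w w' = t → Real.exp (c / 2 * ‖w‖ ^ 2) * ‖PP w‖ * ‖g w‖ ≤ S' := fun w hw => hS' w (hwz w hw.le) (hwE w hw)
        have hS'0 : 0 ≤ S' := by
          have h1 := hineq (w' + t) (by rw [dist_eq_norm, add_sub_cancel_left, Complex.norm_real, Real.norm_of_nonneg ht0.le])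
          refine le_trans ?_ h1
          positivity
        refine ⟨hS'0, ?_⟩
        have hballsub : closedBall w' t ⊆ ball z 1 := by
          intro w hw
          have h1 := hwz w (mem_closedBall.1 hw)
          rw [mem_ball]
          linarith
        have hw'D : w' • a + b ∈ Gd D δ₂ := fun v hv => hsd w' hw' v (Or.inl hv)
        refine hcore PP w' t ht0 (by linarith [ht.2]) hw'D htd ?_ (fun w => g w * hh z w) ((hg.mono hballsub).mul (hhdiff z).differentiableOn)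
          (S' * Real.exp (-(c / 2 * ‖z‖ ^ 2))) ?_
        · intro ε hε
          have hKsub : insert w' (sphere w' t) ⊆ V' \ Sg := by
            rintro w (rfl | hw)
            · exact ⟨hsub (mem_closedBall.2 hw'.le), Pool.Agent.TG.gd_notMem hδ₂ hw'D⟩
            · rw [mem_sphere] at hw
              refine ⟨far_of (by positivity) (by linarith : r₀ / 4 < 2 * δ) (hwE w hw), Pool.Agent.TG.gd_notMem hδ₁ (htd w hw)⟩
          filter_upwards [hPP3 _ hKsub ((isCompact_sphere w' t).insert w') ε hε] with n hn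
          exact ⟨hn w' (Set.mem_insert _ _), fun w hw => hn w (Set.mem_insert_of_mem _ (mem_sphere.2 hw))⟩
        · intro w hw
          have h2 := hconv z w ‖g w‖ S' (norm_nonneg _) (hineq w hw)
          rw [norm_mul]
          refine h2.trans ?_
          refine mul_le_of_le_one_right (by positivity) ?_
          rw [Real.exp_le_one_iff]
          have : 0 ≤ c / 2 * dist w z ^ 2 := by positivity
          linarith
      have hS'0 : 0 ≤ S' := (hw' (z + s) (by rw [dist_eq_norm, add_sub_cancel_left, Complex.norm_real, Real.norm_of_nonneg hs0.le])).1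
      have hsubz : closedBall z s ⊆ ball z 1 := closedBall_subset_ball (by linarith [hs.2])
      have h1 := maxp hPP1 hs0 hsub (f := fun w => g w * hh z w) ((hg.mono hsubz).mul (hhdiff z).differentiableOn) (fun w hw => (hw' w hw).2)
      simp only [hhz, mul_one] at h1
      have h2 := hback z ‖g z‖ (C₃ * S') (h1.trans (le_of_eq (by ring)))
      exact h2.trans (mul_le_mul_of_nonneg_right (le_max_right _ _) hS'0)
  -- the contradiction
  set U : Set ℂ := (cthickening r₀ Eb)ᶜ with hU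
  have hUo : IsOpen U := isClosed_cthickening.isOpen_compl
  have hUn : U.Nonempty := by
    refine far_ex (hEf 0 2) (hloc 0) hr₀.le ?_
    have h1 : r₀ ≤ (1 / 4) ^ (M₀ + 1) := by
      rw [hr₀d, ← pow_succ']
      exact pow_le_pow_left₀ hδ.le hδ4 _
    have h2 : 2 * ((M₀ : ℝ) + 1) < 4 ^ (M₀ + 1) := by
      have h3 : M₀ + 1 < 2 ^ (M₀ + 1) := Nat.lt_two_pow_self
      have h4 : 2 ≤ 2 ^ (M₀ + 1) := by
        calc 2 = 2 ^ 1 := (pow_one 2).symm
          _ ≤ 2 ^ (M₀ + 1) := Nat.pow_le_pow_right (by norm_num) (by omega)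
      have h5 : 2 * (M₀ + 1) < 4 ^ (M₀ + 1) := by
        have e : 4 ^ (M₀ + 1) = 2 ^ (M₀ + 1) * 2 ^ (M₀ + 1) := by
          rw [← mul_pow]
          norm_num
        rw [e]
        nlinarith
      exact_mod_cast h5
    have h3 : (1 / 4 : ℝ) ^ (M₀ + 1) * 4 ^ (M₀ + 1) = 1 := by
      rw [← mul_pow]
      norm_num
    have h4 : (0 : ℝ) < (1 / 4) ^ (M₀ + 1) := by positivity
    calc 2 * r₀ * ((M₀ : ℝ) + 1) = r₀ * (2 * ((M₀ : ℝ) + 1)) := by ring
      _ ≤ (1 / 4) ^ (M₀ + 1) * (2 * ((M₀ : ℝ) + 1)) := mul_le_mul_of_nonneg_right h1 (by positivity)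
      _ < (1 / 4) ^ (M₀ + 1) * 4 ^ (M₀ + 1) := mul_lt_mul_of_pos_left h2 h4
      _ = 1 := h3
  obtain ⟨K, c', hK, hKU, hKD, hc', hlo⟩ := gg_lo H hΦ A hμ hM hZ hp (hcount a ha b) hUo hUn
  have hKV : K ⊆ V' \ Sg := by
    intro z hz
    refine ⟨far_of (by positivity) (by linarith : r₀ / 4 < r₀) fun e he => (far_to (hKU hz) e he).le, hKD z hz⟩
  obtain ⟨n, h1, z, hz, j, h2⟩ := ((hPP3 K hKV hK c' hc').and hlo).exists
  have h3 := hzero z fun e he => (far_to (hKU hz) e he).le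
  have h4 : PP z = 0 := by
    rcases mul_eq_zero.1 h3 with h5 | h5
    · exact absurd h5 (Real.exp_pos _).ne'
    · exact norm_eq_zero.1 h5
  have h5 := h1 z hz
  rw [h4, sub_zero] at h5
  have h6 : ‖gv α Φ F h E Q d p m μ n z j‖ ≤ ‖gv α Φ F h E Q d p m μ n z‖ := norm_le_pi_norm _ j
  rw [gv_norm] at h6
  linarith

theorem lct (H : Sit X Λ u D B p m C Q d S α W) : LCT X Λ u Q d p m := by
  intro 𝒰 a F h E ha hF hok hd hE hstar
  obtain ⟨l, b, Φ, -, hΦ, hLim⟩ := lct_lim H.geo.cone H.geo.tor H.geo.lat H.geo.D_closed H.ldi H.ps H.csf ha hF hd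
  have hder : ∀ n, deriv (fun z => h n z + l n) = deriv (h n) := by
    intro n
    funext z
    exact deriv_add_const _
  have hLam : ∀ n z, Lam Q d p m (F n) (fun z => h n z + l n) z = Lam Q d p m (F n) (h n) z := by
    intro n z
    simp only [Lam, Np, hder]
  refine arr_false H hΦ (𝒰 := 𝒰) (F := F) (h := fun n z => h n z + l n) (E := E) (a := a) (b := b) ⟨hLim, hok, ?_, hE, ?_⟩
  · intro r ε hε
    filter_upwards [hd r ε hε] with n hn z hz
    rw [hder]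
    exact hn z hz
  · intro r ε hε
    filter_upwards [hstar r ε hε] with n hn z hz hO
    rw [hLam, hLam]
    exact hn z hz hO

end Pool.Agent.G4
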