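import Pool.Agent.G4.Z.CDefs
import Pool.Agent.G3.P.LimM

/-!
# G4 Z Arc: sections over arcs

`sec_arc`: `Φ` a section of the finite set `S`, `γ` holomorphic on `ball 0 R` with `γ w ∉ D` outside a discrete set.  Over `ball 0 r`, `r < R`, the section lifts to a curve `G` with `pr (G z) = Φ (γ z)`, `γ z ∉ D`.

Proof.  Near `z₀` (`arc_loc`): `φ` the lift of `Csf.mer` at `y₀ = γ z₀`, `v` a vector with `φ (y₀ + v) ≠ 0`, `c m` the derivative of order `m` of `φ` in the direction `v`; `m` minimal such that `c m ∘ γ` is not `0` near `z₀`.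
Then `φ (γ z + t v) = t ^ m (c m (γ z) / m! + ...)` and so `Φ (γ z) = pr (c m (γ z))` for `z ≠ z₀` near `z₀`.
Global: the columns of the matrix `Φ (γ z)`, divided by the diagonal element, are meromorphic vector functions; divide by zeros and poles.
-/

set_option autoImplicit false

open Topology Filter Metric

namespace Pool.Agent.G4

open Pool.Agent.H36.BP (EN fs wd Sub)
open Pool.Agent.H14.PP (IsCone CurveAt Tan)
open Pool.Agent.H62.EF (MN pr)
open Pool.Agent.AD (Vd Chart Charts)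
open Pool.Agent.TG (TMap Lat Geo Gd)
open Pool.Agent.G3 (Cv)

variable {N k : ℕ}

/-- the derivative in the direction `v` -/
private noncomputable def dv (v : Vd (k + 1)) (φ : Vd (k + 1) → EN N) : Vd (k + 1) → EN N := fun y => fderiv ℂ φ y v

private theorem dv_an {v : Vd (k + 1)} {φ : Vd (k + 1) → EN N} {y : Vd (k + 1)} (h : AnalyticAt ℂ φ y) : AnalyticAt ℂ (dv v φ) y :=
  ((ContinuousLinearMap.apply ℂ (EN N) v).analyticAt (fderiv ℂ φ y)).comp_of_eq h.fderiv rfl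

private theorem dv_it (v : Vd (k + 1)) (n : ℕ) {φ : Vd (k + 1) → EN N} {y : Vd (k + 1)} (h : AnalyticAt ℂ φ y) : AnalyticAt ℂ ((dv v)^[n] φ) y := by
  induction n generalizing φ with
  | zero => exact h
  | succ n ih =>
    rw [Function.iterate_succ_apply]
    exact ih (dv_an h)

private theorem line_an (y v : Vd (k + 1)) (t : ℂ) : AnalyticAt ℂ (fun w : ℂ => y + w • v) t :=
  analyticAt_const.add (analyticAt_id.smul analyticAt_const)

private theorem line_ev {P : Vd (k + 1) → Prop} {y : Vd (k + 1)} (v : Vd (k + 1)) (h : ∀ᶠ z in 𝓝 y, P z) : ∀ᶠ t in 𝓝 (0 : ℂ), P (y + t • v) := by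
  have h1 : Tendsto (fun t : ℂ => y + t • v) (𝓝 0) (𝓝 y) := by
    have h2 := (line_an y v 0).continuousAt.tendsto
    rwa [zero_smul, add_zero] at h2
  exact h1.eventually h

private theorem dv_coef (v : Vd (k + 1)) (n : ℕ) : ∀ {φ : Vd (k + 1) → EN N} {g : ℂ → EN N} {y : Vd (k + 1)}, AnalyticAt ℂ φ y → AnalyticAt ℂ g 0 →
    (∀ᶠ t in 𝓝 (0 : ℂ), φ (y + t • v) = t ^ n • g t) → (dv v)^[n] φ y = (n.factorial : ℂ) • g 0 := by
  induction n with
  | zero =>
    intro φ g y hφ hg h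
    have h1 := h.self_of_nhds
    rw [zero_smul, add_zero, pow_zero, one_smul] at h1
    rw [Function.iterate_zero_apply, h1, Nat.factorial_zero, Nat.cast_one, one_smul]
  | succ n ih =>
    intro φ g y hφ hg h
    rw [Function.iterate_succ_apply]
    have h1 : (fun t : ℂ => φ (y + t • v)) =ᶠ[𝓝 0] fun t => t ^ (n + 1) • g t := h
    have h2 := h1.deriv
    have key : ∀ᶠ t in 𝓝 (0 : ℂ), dv v φ (y + t • v) = t ^ n • (((n : ℂ) + 1) • g t + t • deriv g t) := by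
      filter_upwards [h2, line_ev v hφ.eventually_analyticAt, hg.eventually_analyticAt] with t t1 t2 t3
      have e1 : HasDerivAt (fun t : ℂ => y + t • v) v t := by
        have := (((hasDerivAt_id t).smul_const v).const_add y)
        rwa [one_smul] at this
      have e2 : deriv (fun t : ℂ => φ (y + t • v)) t = dv v φ (y + t • v) :=
        (t2.differentiableAt.hasFDerivAt.comp_hasDerivAt t e1).deriv
      have e3 : HasDerivAt (fun t : ℂ => t ^ (n + 1) • g t) (t ^ (n + 1) • deriv g t + (((n : ℂ) + 1) * t ^ n) • g t) t := by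
        have := (hasDerivAt_pow (n + 1) t).smul t3.differentiableAt.hasDerivAt
        rwa [Nat.add_sub_cancel, Nat.cast_add, Nat.cast_one] at this
      rw [← e2, t1, e3.deriv, smul_add, smul_smul, smul_smul, pow_succ, add_comm, mul_comm ((n : ℂ) + 1)]
    have hg1 : AnalyticAt ℂ (fun t => ((n : ℂ) + 1) • g t + t • deriv g t) 0 :=
      AnalyticAt.add (f := fun t => ((n : ℂ) + 1) • g t) (g := fun t => t • deriv g t) (AnalyticAt.smul (f := fun _ : ℂ => ((n : ℂ) + 1)) analyticAt_const hg)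
        (AnalyticAt.smul (f := fun t : ℂ => t) analyticAt_id hg.deriv)
    have h3 := ih (g := fun t => ((n : ℂ) + 1) • g t + t • deriv g t) (dv_an hφ) hg1 key
    rw [h3]
    simp only [zero_smul, add_zero]
    rw [smul_smul, Nat.factorial_succ]
    push_cast
    rw [mul_comm]

private theorem dv_lt {v : Vd (k + 1)} {n j : ℕ} (hj : j < n) {φ : Vd (k + 1) → EN N} {g : ℂ → EN N} {y : Vd (k + 1)} (hφ : AnalyticAt ℂ φ y) (hg : AnalyticAt ℂ g 0)
    (h : ∀ᶠ t in 𝓝 (0 : ℂ), φ (y + t • v) = t ^ n • g t) : (dv v)^[j] φ y = 0 := by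
  have h1 := dv_coef v j (g := fun t => t ^ (n - j) • g t) hφ ((analyticAt_id.pow _).smul hg) (by
    filter_upwards [h] with t ht
    rw [ht, smul_smul, ← pow_add]
    congr 2
    omega)
  rw [h1, zero_pow (by omega), zero_smul, smul_zero]

/-- the leading coefficient -/
private theorem dv_lead {v : Vd (k + 1)} {m : ℕ} {φ : Vd (k + 1) → EN N} {y : Vd (k + 1)} (hφ : AnalyticAt ℂ φ y) (h0 : ∀ j < m, (dv v)^[j] φ y = 0)
    (h1 : (dv v)^[m] φ y ≠ 0) :
    (∀ᶠ t in 𝓝[≠] (0 : ℂ), φ (y + t • v) ≠ 0) ∧ Tendsto (fun t : ℂ => pr (φ (y + t • v))) (𝓝[≠] 0) (𝓝 (pr ((dv v)^[m] φ y))) := by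
  have hf : AnalyticAt ℂ (fun t : ℂ => φ (y + t • v)) 0 := hφ.comp_of_eq (line_an y v 0) (by simp)
  have hne : ¬ ∀ᶠ t in 𝓝 (0 : ℂ), φ (y + t • v) = 0 := by
    intro h
    refine h1 ?_
    have := dv_coef v m (g := fun _ => 0) hφ analyticAt_const (by
      filter_upwards [h] with t ht
      rw [ht, smul_zero])
    rw [this, smul_zero]
  obtain ⟨n, g, hg, hg0, hge⟩ := hf.exists_eventuallyEq_pow_smul_nonzero_iff.2 hne
  simp only [sub_zero] at hge
  have hn := dv_coef v n hφ hg hge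
  have hnf : (n.factorial : ℂ) ≠ 0 := by exact_mod_cast n.factorial_ne_zero
  have hmn : m = n := by
    rcases lt_trichotomy m n with h | h | h
    · exact absurd (dv_lt h hφ hg hge) h1
    · exact h
    · exfalso
      have := h0 n h
      rw [hn, smul_eq_zero] at this
      exact this.elim hnf hg0
  subst hmn
  have hgc : ∀ᶠ t in 𝓝 (0 : ℂ), g t ≠ 0 := hg.continuousAt.eventually_ne hg0
  have hpw : ∀ᶠ t in 𝓝[≠] (0 : ℂ), t ^ m ≠ 0 := by
    filter_upwards [self_mem_nhdsWithin] with t ht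
    exact pow_ne_zero _ ht
  constructor
  · filter_upwards [hge.filter_mono nhdsWithin_le_nhds, hgc.filter_mono nhdsWithin_le_nhds, hpw] with t t1 t2 t3
    rw [t1]
    exact smul_ne_zero t3 t2
  · rw [hn, Pool.Agent.H62.EF.pr_smul _ hnf]
    have hc : Tendsto (fun t => pr (g t)) (𝓝[≠] (0 : ℂ)) (𝓝 (pr (g 0))) :=
      (ContinuousAt.comp (g := fun x : EN N => pr x) (Pool.Agent.H62.EF.continuousAt_pr hg0) hg.continuousAt).tendsto.mono_left nhdsWithin_le_nhds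
    refine hc.congr' ?_
    filter_upwards [hge.filter_mono nhdsWithin_le_nhds, hpw] with t t1 t3
    rw [t1, Pool.Agent.H62.EF.pr_smul _ t3]

variable {X : Set (EN N)} {Λ : AddSubgroup (Vd (k + 1))} {u : EN N → Vd (k + 1)} {D : Set (Vd (k + 1))} {S : Set (Vd (k + 1) → MN N)}

/-- the sections are continuous off `D` -/
theorem Csf.cont (hX : IsCone X) (hS : Csf X Λ u D S) {Φ : Vd (k + 1) → MN N} (hΦ : Φ ∈ S) {y : Vd (k + 1)} (hy : y ∉ D) : ContinuousAt Φ y := by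
  obtain ⟨φ, hφ, hφe⟩ := hS.hol Φ hΦ y hy
  have h0 : φ y ≠ 0 := Pool.Agent.TG.ne_zero hX hφe.self_of_nhds.1
  have h1 : ContinuousAt (fun z => pr (φ z)) y :=
    ContinuousAt.comp (g := fun x : EN N => pr x) (Pool.Agent.H62.EF.continuousAt_pr h0) hφ.continuousAt
  refine h1.congr ?_
  filter_upwards [hφe] with z hz
  exact hz.2.1.symm

/-- local lift over an arc -/
private theorem arc_loc (hX : IsCone X) (hDc : IsClosed D) (hS : Csf X Λ u D S) {Φ : Vd (k + 1) → MN N} (hΦ : Φ ∈ S) {γ : ℂ → Vd (k + 1)} {z₀ : ℂ}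
    (hγ : AnalyticAt ℂ γ z₀) (hγD : ∀ᶠ w in 𝓝[≠] z₀, γ w ∉ D) :
    ∃ H : ℂ → EN N, AnalyticAt ℂ H z₀ ∧ ∀ᶠ w in 𝓝[≠] z₀, H w ≠ 0 ∧ Φ (γ w) = pr (H w) := by
  obtain ⟨φ, hφa, hφf, hφe⟩ := hS.mer Φ hΦ (γ z₀)
  set y₀ := γ z₀ with hy₀
  obtain ⟨s, hs, hball⟩ := Metric.eventually_nhds_iff_ball.1 (hφa.eventually_analyticAt.and hφe.eventually_nhds)
  obtain ⟨y₁, hy₁, hy₁b⟩ := (hφf.and_eventually (isOpen_ball.mem_nhds (mem_ball_self hs))).exists
  set v := y₁ - y₀ with hv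
  have hvs : ‖v‖ < s := by rw [hv, ← mem_ball_iff_norm]; exact hy₁b
  have hy1v : y₀ + (1 : ℂ) • v = y₁ := by rw [hv, one_smul]; abel
  -- some derivative at `y₀` is not `0`
  have hex : ∃ m : ℕ, (dv v)^[m] φ y₀ ≠ 0 := by
    by_cases hv0 : v = 0
    · refine ⟨0, ?_⟩
      rw [Function.iterate_zero_apply]
      rw [hv0, smul_zero, add_zero] at hy1v
      rwa [hy1v]
    have hv1 : 0 < ‖v‖ := norm_pos_iff.2 hv0
    have hin : ∀ t ∈ ball (0 : ℂ) (s / ‖v‖), y₀ + t • v ∈ ball y₀ s := by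
      intro t ht
      rw [mem_ball_zero_iff, lt_div_iff₀ hv1] at ht
      rw [mem_ball_iff_norm, add_sub_cancel_left, norm_smul]
      exact ht
    have hfa : AnalyticOnNhd ℂ (fun t : ℂ => φ (y₀ + t • v)) (ball 0 (s / ‖v‖)) := fun t ht => (hball _ (hin t ht)).1.comp_of_eq (line_an y₀ v t) rfl
    have h1b : (1 : ℂ) ∈ ball (0 : ℂ) (s / ‖v‖) := by
      rw [mem_ball_zero_iff, norm_one, lt_div_iff₀ hv1, one_mul]
      exact hvs
    have h0b : (0 : ℂ) ∈ ball (0 : ℂ) (s / ‖v‖) := mem_ball_self (by positivity)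
    have hne : ¬ ∀ᶠ t in 𝓝 (0 : ℂ), φ (y₀ + t • v) = 0 := by
      intro h
      have := hfa.eqOn_zero_of_preconnected_of_eventuallyEq_zero (convex_ball 0 _).isPreconnected h0b h h1b
      simp only [hy1v] at this
      exact hy₁ this
    obtain ⟨n, g, hg, hg0, hge⟩ := (hfa 0 h0b).exists_eventuallyEq_pow_smul_nonzero_iff.2 hne
    simp only [sub_zero] at hge
    refine ⟨n, ?_⟩
    rw [dv_coef v n hφa hg hge]
    exact smul_ne_zero (by exact_mod_cast n.factorial_ne_zero) hg0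
  have hca : ∀ m : ℕ, AnalyticAt ℂ (fun z => (dv v)^[m] φ (γ z)) z₀ := fun m => (dv_it v m hφa).comp_of_eq hγ rfl
  have hex2 : ∃ m : ℕ, ¬ ∀ᶠ z in 𝓝 z₀, (dv v)^[m] φ (γ z) = 0 := by
    obtain ⟨m, hm⟩ := hex
    exact ⟨m, fun h => hm h.self_of_nhds⟩
  classical
  set m := Nat.find hex2 with hmdef
  have hm1 : ¬ ∀ᶠ z in 𝓝 z₀, (dv v)^[m] φ (γ z) = 0 := Nat.find_spec hex2
  have hm2 : ∀ j < m, ∀ᶠ z in 𝓝 z₀, (dv v)^[j] φ (γ z) = 0 := fun j hj => not_not.1 (Nat.find_min hex2 hj)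
  have hm3 : ∀ᶠ z in 𝓝[≠] z₀, (dv v)^[m] φ (γ z) ≠ 0 := (hca m).eventually_eq_zero_or_eventually_ne_zero.resolve_left hm1
  have hm4 : ∀ᶠ z in 𝓝 z₀, ∀ j < m, (dv v)^[j] φ (γ z) = 0 := by
    have := (Finset.range m).eventually_all (l := 𝓝 z₀) (p := fun j z => (dv v)^[j] φ (γ z) = 0)
    have h2 := this.2 fun j hj => hm2 j (Finset.mem_range.1 hj)
    filter_upwards [h2] with z hz j hj
    exact hz j (Finset.mem_range.2 hj)
  refine ⟨fun z => (dv v)^[m] φ (γ z), hca m, ?_⟩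
  have hgb : ∀ᶠ z in 𝓝 z₀, γ z ∈ ball y₀ s := hγ.continuousAt.eventually (isOpen_ball.mem_nhds (mem_ball_self hs))
  filter_upwards [hm3, hm4.filter_mono nhdsWithin_le_nhds, hgb.filter_mono nhdsWithin_le_nhds, hγD] with z z1 z2 z3 z4
  refine ⟨z1, ?_⟩
  obtain ⟨l1, l2⟩ := dv_lead (hball _ z3).1 z2 z1
  have hD : ∀ᶠ t in 𝓝[≠] (0 : ℂ), γ z + t • v ∉ D := (line_ev v (hDc.isOpen_compl.mem_nhds z4)).filter_mono nhdsWithin_le_nhds
  have hE : ∀ᶠ t in 𝓝[≠] (0 : ℂ), γ z + t • v ∉ D → φ (γ z + t • v) ≠ 0 → Φ (γ z + t • v) = pr (φ (γ z + t • v)) :=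
    (line_ev v (hball _ z3).2).filter_mono nhdsWithin_le_nhds
  have hc : Tendsto (fun t : ℂ => Φ (γ z + t • v)) (𝓝[≠] 0) (𝓝 (Φ (γ z))) := by
    have h1 : Tendsto (fun t : ℂ => γ z + t • v) (𝓝 0) (𝓝 (γ z)) := by
      have h2 := (line_an (γ z) v 0).continuousAt.tendsto
      rwa [zero_smul, add_zero] at h2
    exact ((hS.cont hX hΦ z4).tendsto.comp h1).mono_left nhdsWithin_le_nhds
  refine tendsto_nhds_unique (hc.congr' ?_) l2
  filter_upwards [hD, hE, l1] with t t1 t2 t3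
  exact t2 t1 t3

/-- the column `j` of a matrix divided by the diagonal element -/
private noncomputable def col (j : Fin (N + 1)) (P : MN N) : EN N := WithLp.toLp 2 fun i => P (i, j) / P (j, j)

private theorem col_pr {j : Fin (N + 1)} {x : EN N} (hx : x ≠ 0) : (x j = 0 → col j (pr x) = 0) ∧ (x j ≠ 0 → col j (pr x) = (x j)⁻¹ • x) := by
  have h2 : ((‖x‖ ^ 2 : ℝ) : ℂ) ≠ 0 := by
    have : ‖x‖ ≠ 0 := norm_ne_zero_iff.mpr hx
    exact_mod_cast pow_ne_zero 2 this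
  constructor
  · intro h
    ext i
    simp [col, pr, h]
  · intro h
    have h3 : (starRingEnd ℂ) (x j) ≠ 0 := (map_ne_zero _).2 h
    ext i
    simp only [col, pr, PiLp.smul_apply, smul_eq_mul]
    rw [div_div_div_cancel_right₀ h2]
    field_simp

/-- sections over arcs -/
theorem sec_arc (hX : IsCone X) (hu : TMap X Λ u) (hΛ : Lat Λ) (hDc : IsClosed D) (hS : Csf X Λ u D S) {Φ : Vd (k + 1) → MN N} (hΦ : Φ ∈ S) {γ : ℂ → Vd (k + 1)} {r R : ℝ}
    (hr : r < R) (hγ : DifferentiableOn ℂ γ (ball 0 R)) (hγD : ∀ z ∈ ball (0 : ℂ) R, ∀ᶠ w in 𝓝[≠] z, γ w ∉ D) :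
    ∃ G : ℂ → EN N, Cv X Λ u (ball 0 r) G γ ∧ ∀ z ∈ ball (0 : ℂ) r, γ z ∉ D → pr (G z) = Φ (γ z) := by
  rcases le_or_gt R 0 with hR | hR
  · have he : ball (0 : ℂ) r = ∅ := ball_eq_empty.2 (by linarith)
    rw [he]
    exact ⟨fun _ => 0, ⟨differentiableOn_empty, differentiableOn_empty, fun z hz => absurd hz (Set.notMem_empty z), fun z hz => absurd hz (Set.notMem_empty z)⟩,
      fun z hz => absurd hz (Set.notMem_empty z)⟩
  have hγa : AnalyticOnNhd ℂ γ (ball 0 R) := hγ.analyticOnNhd isOpen_ball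
  choose! H hHa hHe using fun z (hz : z ∈ ball (0 : ℂ) R) => arc_loc hX hDc hS hΦ (hγa z hz) (hγD z hz)
  have h0 : (0 : ℂ) ∈ ball (0 : ℂ) R := mem_ball_self hR
  -- a component which is not `0` at `0`
  have hcomp : ∀ (z : ℂ) (j : Fin (N + 1)), z ∈ ball (0 : ℂ) R → AnalyticAt ℂ (fun w => H z w j) z := fun z j hz =>
    ((ContinuousLinearMap.proj (R := ℂ) (φ := fun _ : Fin (N + 1) => ℂ) j).comp (EuclideanSpace.equiv (Fin (N + 1)) ℂ).toContinuousLinearMap).analyticAt _ |>.comp_of_eq (hHa z hz) rfl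
  obtain ⟨j, hj⟩ : ∃ j : Fin (N + 1), ¬ ∀ᶠ w in 𝓝 (0 : ℂ), H 0 w j = 0 := by
    by_contra h
    push Not at h
    have h1 : ∀ᶠ w in 𝓝 (0 : ℂ), ∀ j : Fin (N + 1), H 0 w j = 0 := Filter.eventually_all.2 h
    obtain ⟨w, w1, w2⟩ := ((h1.filter_mono nhdsWithin_le_nhds).and (hHe 0 h0)).exists
    refine w2.1 ?_
    ext i
    exact w1 i
  set M : ℂ → EN N := fun w => col j (Φ (γ w)) with hM
  have hMe : ∀ z ∈ ball (0 : ℂ) R, (∀ᶠ w in 𝓝[≠] z, M w = 0) ∨ ∀ᶠ w in 𝓝[≠] z, H z w j ≠ 0 ∧ M w = (H z w j)⁻¹ • H z w := by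
    intro z hz
    rcases (hcomp z j hz).eventually_eq_zero_or_eventually_ne_zero with h | h
    · left
      filter_upwards [h.filter_mono nhdsWithin_le_nhds, hHe z hz] with w w1 w2
      rw [hM]
      simp only [w2.2]
      exact (col_pr w2.1).1 w1
    · right
      filter_upwards [h, hHe z hz] with w w1 w2
      refine ⟨w1, ?_⟩
      rw [hM]
      simp only [w2.2]
      exact (col_pr w2.1).2 w1
  have hMm : MeromorphicOn M (ball 0 R) := by
    intro z hz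
    rcases hMe z hz with h | h
    · exact (MeromorphicAt.const (0 : EN N) z).congr (by filter_upwards [h] with w hw; rw [hw])
    · refine MeromorphicAt.congr (((hcomp z j hz).meromorphicAt.inv).smul (hHa z hz).meromorphicAt) ?_
      filter_upwards [h] with w hw
      rw [hw.2]
      rfl
  have hM0 : meromorphicOrderAt M 0 ≠ ⊤ := by
    intro h
    rw [meromorphicOrderAt_eq_top_iff] at h
    have h1 := (hcomp 0 j h0).eventually_eq_zero_or_eventually_ne_zero.resolve_left hj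
    rcases hMe 0 h0 with h2 | h2
    · obtain ⟨w, w1, w2, w3⟩ := (h1.and (h2.and (hHe 0 h0))).exists
      have h3 : M w = (H 0 w j)⁻¹ • H 0 w := by
        rw [hM]
        simp only [w3.2]
        exact (col_pr w3.1).2 w1
      rw [w2] at h3
      exact smul_ne_zero (inv_ne_zero w1) w3.1 h3.symm
    · obtain ⟨w, w1, w2, w3⟩ := (h.and (h2.and (hHe 0 h0))).exists
      rw [w2.2] at w1
      exact smul_ne_zero (inv_ne_zero w2.1) w3.1 w1
  have hMt : ∀ z ∈ ball (0 : ℂ) R, meromorphicOrderAt M z ≠ ⊤ := fun z hz =>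
    hMm.meromorphicOrderAt_ne_top_of_isPreconnected (convex_ball 0 R).isPreconnected h0 hz hM0
  have hMn : ∀ z ∈ ball (0 : ℂ) R, ∀ᶠ w in 𝓝[≠] z, M w ≠ 0 := fun z hz => (meromorphicOrderAt_ne_top_iff_eventually_ne_zero (hMm z hz)).1 (hMt z hz)
  have hMpr : ∀ z ∈ ball (0 : ℂ) R, ∀ᶠ w in 𝓝[≠] z, M w ≠ 0 ∧ pr (M w) = Φ (γ w) := by
    intro z hz
    filter_upwards [hMn z hz, hHe z hz] with w w1 w2
    refine ⟨w1, ?_⟩
    have h1 : M w = col j (pr (H z w)) := by rw [hM]; simp only [w2.2]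
    have h2 : H z w j ≠ 0 := fun h => w1 (by rw [h1]; exact (col_pr w2.1).1 h)
    rw [h1, (col_pr w2.1).2 h2, Pool.Agent.H62.EF.pr_smul _ (inv_ne_zero h2), w2.2]
  -- divide by the zeros and poles
  have hsub : closedBall (0 : ℂ) r ⊆ ball 0 R := closedBall_subset_ball hr
  have hMc : MeromorphicOn M (closedBall 0 r) := fun z hz => hMm z (hsub hz)
  obtain ⟨G, hGa, hG0, hGe⟩ := hMc.extract_zeros_poles (fun z => hMt z.1 (hsub z.2)) ((MeromorphicOn.divisor M (closedBall 0 r)).finiteSupport (isCompact_closedBall 0 r))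
  have hsub' : ball (0 : ℂ) r ⊆ closedBall 0 r := ball_subset_closedBall
  have hsub2 : ball (0 : ℂ) r ⊆ ball 0 R := ball_subset_ball hr.le
  have hG : ∀ z ∈ closedBall (0 : ℂ) r, AnalyticAt ℂ G z ∧ G z ≠ 0 := fun z hz => ⟨hGa z hz, hG0 ⟨z, hz⟩⟩
  -- the points near `z`
  have hev : ∀ z ∈ ball (0 : ℂ) r, ∀ᶠ w in 𝓝[≠] z, G w ≠ 0 ∧ γ w ∉ D ∧ pr (G w) = Φ (γ w) := by
    intro z hz
    have h1 : ∀ᶠ w in 𝓝[≠] z, w ∈ closedBall (0 : ℂ) r := nhdsWithin_le_nhds (Filter.mem_of_superset (isOpen_ball.mem_nhds hz) hsub')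
    have h3 : ∀ᶠ w in 𝓝[≠] z, w ∈ closedBall (0 : ℂ) r → M w = ((∏ᶠ u, (· - u) ^ MeromorphicOn.divisor M (closedBall 0 r) u) • G) w := by
      have h4 := mem_codiscreteWithin.1 hGe z (hsub' hz)
      rw [disjoint_principal_right] at h4
      filter_upwards [h4] with w hw hwm
      by_contra h5
      exact hw ⟨hwm, h5⟩
    filter_upwards [h1, h3, hMpr z (hsub2 hz), hγD z (hsub2 hz)] with w w1 w3 w4 w5
    refine ⟨(hG w w1).2, w5, ?_⟩
    have h6 := w3 w1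
    rw [Pi.smul_apply'] at h6
    rw [← w4.2, h6]
    refine (Pool.Agent.H62.EF.pr_smul _ fun h7 => ?_).symm
    rw [h7, zero_smul] at h6
    exact w4.1 h6
  have hγc : ∀ z ∈ ball (0 : ℂ) r, ContinuousAt γ z := fun z hz => (hγa z (hsub2 hz)).continuousAt
  have hmem : ∀ z ∈ ball (0 : ℂ) r, G z ∈ X ∧ u (G z) - γ z ∈ Λ := by
    intro z hz
    have hprc : ContinuousAt (fun w => pr (G w)) z :=
      ContinuousAt.comp (g := fun x : EN N => pr x) (Pool.Agent.H62.EF.continuousAt_pr (hG z (hsub' hz)).2) (hG z (hsub' hz)).1.continuousAt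
    refine Pool.Agent.G3.lim_mem (l := 𝓝[≠] z) hX hu hΛ (x := G) (y := γ) ?_ (hG z (hsub' hz)).2 (hprc.tendsto.mono_left nhdsWithin_le_nhds)
      ((hγc z hz).tendsto.mono_left nhdsWithin_le_nhds)
    filter_upwards [hev z hz] with w hw
    obtain ⟨φ', -, hφ'⟩ := hS.hol Φ hΦ (γ w) hw.2.1
    obtain ⟨h1, h2, h3⟩ := hφ'.self_of_nhds
    have h4 : pr (G w) = pr (φ' (γ w)) := hw.2.2.trans h2
    obtain ⟨c, hc, hcx⟩ := (Pool.Agent.H62.EF.pr_eq_iff hw.1 (Pool.Agent.TG.ne_zero hX h1)).1 h4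
    have hGX : G w ∈ X := by
      rw [hcx]
      exact hX.smul_mem _ h1 c hc
    exact ⟨hGX, Pool.Agent.TG.fb_lift hX hu (Pool.Agent.TG.mem_fb h1 h3) hGX h4⟩
  refine ⟨G, ⟨fun z hz => (hG z (hsub' hz)).1.differentiableAt.differentiableWithinAt, hγ.mono hsub2, fun z hz => (hmem z hz).1, fun z hz => (hmem z hz).2⟩, fun z hz hzD => ?_⟩
  have hc1 : ContinuousAt (fun w => Φ (γ w)) z := ContinuousAt.comp (g := Φ) (hS.cont hX hΦ hzD) (hγc z hz)
  have hc2 : ContinuousAt (fun w => pr (G w)) z :=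
    ContinuousAt.comp (g := fun x : EN N => pr x) (Pool.Agent.H62.EF.continuousAt_pr (hG z (hsub' hz)).2) (hG z (hsub' hz)).1.continuousAt
  have t1 : Tendsto (fun w => Φ (γ w)) (𝓝[≠] z) (𝓝 (Φ (γ z))) := hc1.tendsto.mono_left nhdsWithin_le_nhds
  have t2 : Tendsto (fun w => pr (G w)) (𝓝[≠] z) (𝓝 (pr (G z))) := hc2.tendsto.mono_left nhdsWithin_le_nhds
  refine tendsto_nhds_unique t2 (t1.congr' ?_)
  filter_upwards [hev z hz] with w w1
  exact w1.2.2.symm

/-- sections over lines -/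
theorem sec_line (hX : IsCone X) (hu : TMap X Λ u) (hΛ : Lat Λ) (hDc : IsClosed D) (hL : LDi D) (hS : Csf X Λ u D S) {Φ : Vd (k + 1) → MN N} (hΦ : Φ ∈ S) {a : Vd (k + 1)} (ha : a ≠ 0)
    (b : Vd (k + 1)) (r : ℝ) : ∃ G : ℂ → EN N, Cv X Λ u (ball 0 r) G (fun z => z • a + b) ∧ ∀ z ∈ ball (0 : ℂ) r, z • a + b ∉ D → pr (G z) = Φ (z • a + b) :=
  sec_arc hX hu hΛ hDc hS hΦ (R := r + 1) (by linarith) ((differentiable_id.smul_const a).add_const b).differentiableOn fun z _ => hL a ha b z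

end Pool.Agent.G4
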