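import Pool.Agent.G4.Z.LocA

/-!
# G4 Z LocB: comparison of `|Q|` with the distance from the section

Plan.  `D ∪ Z` is closed: `D` is closed and near `y ∉ D` the set `Z` is the zero set of a continuous function (`OrdAt`).  The bounds: by compactness modulo the finite index subgroup `M Λ` (both `Z` and, after increasing
`M`, `Φ` off `D` are invariant: `Csf.fin`, `Csf.tr` give a common period `M`), it suffices to prove them near each `y₀` with distance `≥ δ` from `D ∪ Z`: for `y` near `y₀`, `x` over `y` with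
`pr x` near `Φ y₀`: `x = c • χ.σ q`, `q` near `q₀`, `ms c ρ q = y + λ`, and by `Lat.disc` (close points) `ms c ρ q = y` after choosing the lift; `|Q x| / |x|^d = |Q (χ.σ q)| / |χ.σ q|^d` is comparable to
`|q 0 - φ y|^μ` because `b ≠ 0` near `q₀`, and `dist (pr x) (Φ y)` is comparable to `|q 0 - φ y|` (`pr ∘ χ.σ` is an immersion, injective: `TG/Nr`, `TG/Cp`, `AD/ChartFs`).
-/

set_option autoImplicit false

open Topology Filter Metric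

namespace Pool.Agent.G4

open Pool.Agent.H36.BP (EN fs wd Sub)
open Pool.Agent.H14.PP (IsCone CurveAt Tan)
open Pool.Agent.H62.EF (MN pr)
open Pool.Agent.AD (Vd Chart Charts)
open Pool.Agent.TG (TMap Lat Geo Gd)

open Pool.Agent.TG (VForm JJ Fb TransAt)
open Pool.Agent.G3 (Cv wt PS QD Crs)

variable {N k : ℕ}

/-! ### copies of private lemmas of `LocA` and `A/JB` -/

private theorem lb_ms_mem {X : Set (EN N)} {Λ : AddSubgroup (Vd (k + 1))} {u : EN N → Vd (k + 1)} (hu : TMap X Λ u) {χ : Chart (k + 2) X} {c : Vd (k + 1)} {ρ : ℝ}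
    (hm : Pool.Agent.TG.Str Λ u χ c ρ) {x : EN N} (hx : x ∈ X) (hU : x ∈ χ.U) {y : Vd (k + 1)} (h : u x - y ∈ Λ) :
    Pool.Agent.TG.ms c ρ (χ.q x) - y ∈ Λ := by
  obtain ⟨hb, a, ha, e⟩ := χ.surj x hx hU
  have h1 : u x - u (χ.σ (χ.q x)) ∈ Λ := by
    have h3 := hu.smul _ (χ.σ_mem _ hb).1 a ha
    rw [← e] at h3
    exact h3
  have h2 := hm.lift _ hb
  have h3 := Λ.sub_mem (Λ.sub_mem h h1) h2
  convert h3 using 1
  abel

private theorem lb_eq_cons {c y : Vd (k + 1)} {ρ : ℝ} (hρ : 0 < ρ) {q : Vd (k + 2)} (h : Pool.Agent.TG.ms c ρ q = y) :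
    q = Fin.cons (α := fun _ => ℂ) (q 0) ((ρ : ℂ)⁻¹ • (y - c)) := by
  have hρ' : (ρ : ℂ) ≠ 0 := by exact_mod_cast hρ.ne'
  have h1 : (ρ : ℂ)⁻¹ • (y - c) = Pool.Agent.TG.tl q := by
    rw [← h]
    unfold Pool.Agent.TG.ms
    rw [add_sub_cancel_left, smul_smul, inv_mul_cancel₀ hρ', one_smul]
  rw [h1]
  funext i
  refine Fin.cases ?_ (fun j => ?_) i
  · rfl
  · rfl

private theorem lb_cons_an {m : ℕ} {E : Type*} [NormedAddCommGroup E] [NormedSpace ℂ E] {f : E → ℂ} {g : E → Vd m} {x : E} (hf : AnalyticAt ℂ f x) (hg : AnalyticAt ℂ g x) :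
    AnalyticAt ℂ (fun x => (Fin.cons (α := fun _ => ℂ) (f x) (g x) : Vd (m + 1))) x := by
  rw [analyticAt_pi_iff]
  intro i
  refine Fin.cases ?_ (fun j => ?_) i
  · simpa using hf
  · simpa using (analyticAt_pi_iff.1 hg) j

private theorem lb_period {X : Set (EN N)} {Λ : AddSubgroup (Vd (k + 1))} {u : EN N → Vd (k + 1)} {D B : Set (Vd (k + 1))} {S : Set (Vd (k + 1) → MN N)}
    (G : Geo X Λ u D B) (hS : Csf X Λ u D S) {Φ : Vd (k + 1) → MN N} (hΦ : Φ ∈ S) : ∃ M : ℕ, 1 ≤ M ∧ ∀ l ∈ Λ, ∀ y ∉ D, Φ (y + M • l) = Φ y := by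
  classical
  set T := hS.fin.toFinset with hT
  refine ⟨T.card.factorial, Nat.factorial_pos _, fun l hl => ?_⟩
  have h1 : ∀ m : ℕ, ∃ f ∈ S, ∀ y ∉ D, f y = Φ (y + m • l) := fun m => hS.tr Φ hΦ (m • l) (Λ.nsmul_mem hl m)
  choose f hf hfe using h1
  obtain ⟨i, hi, j, hj, hij, hfij⟩ := Finset.exists_ne_map_eq_of_card_lt_of_maps_to (s := Finset.range (T.card + 1)) (t := T) (f := f)
    (by rw [Finset.card_range]; omega) (fun m _ => by rw [hT]; simpa using hf m)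
  -- a period `m ≤ card`
  obtain ⟨m, hm1, hm2, hm⟩ : ∃ m : ℕ, 1 ≤ m ∧ m ≤ T.card ∧ ∀ y ∉ D, Φ (y + m • l) = Φ y := by
    have key : ∀ i j : ℕ, i < j → j ≤ T.card → f i = f j → ∃ m : ℕ, 1 ≤ m ∧ m ≤ T.card ∧ ∀ y ∉ D, Φ (y + m • l) = Φ y := by
      intro i j hij hj hfij
      refine ⟨j - i, by omega, by omega, fun y hy => ?_⟩
      have hy' : y - i • l ∉ D := by
        intro h
        have h2 := G.D_inv _ h (i • l) (Λ.nsmul_mem hl i)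
        rw [sub_add_cancel] at h2
        exact hy h2
      have h2 := hfe i _ hy'
      have h3 := hfe j _ hy'
      rw [hfij, h3] at h2
      rw [sub_add_cancel] at h2
      rw [← h2]
      congr 1
      have e : j = i + (j - i) := by omega
      conv_rhs => rw [e, add_smul]
      abel
    rw [Finset.mem_range] at hi hj
    rcases lt_or_gt_of_ne hij with h | h
    · exact key i j h (by omega) hfij
    · exact key j i h (by omega) hfij.symm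
  obtain ⟨n, hn⟩ := Nat.dvd_factorial hm1 hm2
  have h2 : ∀ t : ℕ, ∀ y ∉ D, Φ (y + (m * t) • l) = Φ y := by
    intro t
    induction t with
    | zero =>
      intro y _
      rw [mul_zero, zero_smul, add_zero]
    | succ t ih =>
      intro y hy
      have hy' : y + (m * t) • l ∉ D := by
        intro h
        exact hy ((G.D_sub (Λ.nsmul_mem hl _)).1 h)
      rw [mul_add, mul_one, add_smul, ← add_assoc, hm _ hy', ih y hy]
  rw [hn]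
  exact h2 n

/-- the product of a matrix and the vector `x₀` -/
private noncomputable def lb_mul (x₀ : EN N) : MN N →ₗ[ℂ] EN N where
  toFun y := WithLp.toLp 2 fun i => ∑ j, y (i, j) * x₀ j
  map_add' y z := by
    ext i
    simp [add_mul, Finset.sum_add_distrib]
  map_smul' c y := by
    ext i
    simp [Finset.mul_sum, mul_assoc]

private theorem lb_mul_pr (x₀ x : EN N) :
    lb_mul x₀ (pr x) = (inner ℂ x x₀ / ((‖x‖ ^ 2 : ℝ) : ℂ)) • x := by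
  ext i
  simp only [lb_mul, pr, LinearMap.coe_mk, AddHom.coe_mk, PiLp.smul_apply, smul_eq_mul]
  rw [PiLp.inner_apply, Finset.sum_div, Finset.sum_mul]
  refine Finset.sum_congr rfl fun j _ => ?_
  simp only [RCLike.inner_apply]
  ring

private theorem lb_mul_self {x₀ : EN N} (hx₀ : x₀ ≠ 0) : lb_mul x₀ (pr x₀) = x₀ := by
  rw [lb_mul_pr]
  have h1 : inner ℂ x₀ x₀ = ((‖x₀‖ ^ 2 : ℝ) : ℂ) := by
    rw [inner_self_eq_norm_sq_to_K]
    push_cast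
    rfl
  rw [h1, div_self, one_smul]
  have : ‖x₀‖ ≠ 0 := norm_ne_zero_iff.2 hx₀
  exact_mod_cast pow_ne_zero 2 this

/-- the coordinates are locally Lipschitz functions of the point of the projective space -/
private theorem lb_lower {d : ℕ} {X : Set (EN N)} (hX : IsCone X) (χ : Chart d X) {a : Vd d} (haB : a ∈ ball (0 : Vd d) 2) :
    ∃ K : ℝ, 0 < K ∧ ∀ᶠ p : Vd d × Vd d in 𝓝 (a, a), p.1 ∈ ball (0 : Vd d) 2 → p.2 ∈ ball (0 : Vd d) 2 →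
      ‖p.1 - p.2‖ ≤ K * dist (pr (χ.σ p.1)) (pr (χ.σ p.2)) := by
  have hx₀ : χ.σ a ≠ 0 := Pool.Agent.TG.ne_zero hX (χ.σ_mem a haB).1
  set x₀ := χ.σ a with hx₀def
  let L : MN N →L[ℂ] EN N := LinearMap.toContinuousLinearMap (lb_mul x₀)
  have hL : ∀ y, L y = lb_mul x₀ y := fun y => rfl
  have hLx : L (pr x₀) = x₀ := by rw [hL, lb_mul_self hx₀]
  have hQan : AnalyticAt ℂ (fun y => χ.q (L y)) (pr x₀) := by
    have h1 : AnalyticAt ℂ χ.q (L (pr x₀)) := by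
      rw [hLx]
      exact χ.q_an _ (χ.σ_mem a haB).2.1
    exact h1.comp (L.analyticAt _)
  obtain ⟨K, s, hs, hK⟩ := hQan.hasStrictFDerivAt.exists_lipschitzOnWith
  have hcpr : ContinuousAt (fun p => pr (χ.σ p)) a :=
    ContinuousAt.comp (g := pr) (Pool.Agent.H62.EF.continuousAt_pr hx₀) (χ.σ_an a haB).continuousAt
  have h1 : ∀ᶠ p in 𝓝 a, pr (χ.σ p) ∈ s := hcpr hs
  have h2 : ∀ᶠ p in 𝓝 a, L (pr (χ.σ p)) ≠ 0 := by
    have hc : ContinuousAt (fun p => L (pr (χ.σ p))) a :=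
      ContinuousAt.comp (g := L) L.continuous.continuousAt hcpr
    apply hc.eventually_ne
    rw [← hx₀def, hLx]
    exact hx₀
  have h3 : ∀ p, p ∈ ball (0 : Vd d) 2 → L (pr (χ.σ p)) ≠ 0 → χ.q (L (pr (χ.σ p))) = p := by
    intro p hp hne
    rw [hL, lb_mul_pr] at hne ⊢
    have hc : inner ℂ (χ.σ p) x₀ / ((‖χ.σ p‖ ^ 2 : ℝ) : ℂ) ≠ 0 := by
      intro h0
      rw [h0, zero_smul] at hne
      exact hne rfl
    rw [χ.q_smul _ (χ.σ_mem p hp).2.1 _ hc]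
    exact (χ.σ_mem p hp).2.2
  refine ⟨(K : ℝ) + 1, by positivity, ?_⟩
  have h12 := h1.and h2
  rw [nhds_prod_eq]
  filter_upwards [h12.prod_mk h12] with p hp hp1 hp2
  have h4 := hK.dist_le_mul _ hp.1.1 _ hp.2.1
  simp only [h3 p.1 hp1 hp.1.2, h3 p.2 hp2 hp.2.2] at h4
  rw [dist_eq_norm p.1 p.2] at h4
  refine h4.trans (mul_le_mul_of_nonneg_right (by linarith) dist_nonneg)

/-- the distance in the projective space is bounded by the distance in the cone -/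
private theorem lb_dist_pr_le {x y : EN N} (hx : x ≠ 0) (hy : y ≠ 0) : dist (pr x) (pr y) ≤ 2 / ‖y‖ * ‖x - y‖ := by
  have hxn : 0 < ‖x‖ := norm_pos_iff.2 hx
  have hyn : 0 < ‖y‖ := norm_pos_iff.2 hy
  have h1 : wd x y = wd x (y - x) := by
    have h2 := Pool.Agent.H36.BP.wd_inv x (y - x) 1 1
    simp only [one_smul, norm_one, one_pow, one_mul, sub_add_cancel] at h2
    exact h2
  have h3 := Pool.Agent.H36.BP.wd_le x (y - x)
  rw [Pool.Agent.H62.EF.dist_pr hx hy, h1]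
  have h4 : Real.sqrt 2 ≤ 2 := by
    rw [Real.sqrt_le_left (by norm_num)]
    norm_num
  have h5 : wd x (y - x) / (‖x‖ * ‖y‖) ≤ ‖y - x‖ / ‖y‖ := by
    rw [div_le_div_iff₀ (by positivity) hyn]
    nlinarith [h3]
  calc Real.sqrt 2 * (wd x (y - x) / (‖x‖ * ‖y‖)) ≤ 2 * (‖y - x‖ / ‖y‖) :=
        mul_le_mul h4 h5 (div_nonneg (Pool.Agent.H36.BP.wd_nonneg _ _) (by positivity)) (by norm_num)
    _ = 2 / ‖y‖ * ‖x - y‖ := by rw [norm_sub_rev x y]; ring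

/-- `pr ∘ χ.σ` is locally Lipschitz -/
private theorem lb_upper {d : ℕ} {X : Set (EN N)} (hX : IsCone X) (χ : Chart d X) {a : Vd d} (haB : a ∈ ball (0 : Vd d) 2) :
    ∃ L : ℝ, 0 < L ∧ ∀ᶠ p : Vd d × Vd d in 𝓝 (a, a), dist (pr (χ.σ p.1)) (pr (χ.σ p.2)) ≤ L * ‖p.1 - p.2‖ := by
  have hx₀ : χ.σ a ≠ 0 := Pool.Agent.TG.ne_zero hX (χ.σ_mem a haB).1
  have hn : 0 < ‖χ.σ a‖ := norm_pos_iff.2 hx₀
  obtain ⟨K, s, hs, hK⟩ := (χ.σ_an a haB).hasStrictFDerivAt.exists_lipschitzOnWith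
  have h1 : ∀ᶠ p in 𝓝 a, p ∈ s ∧ ‖χ.σ a‖ / 2 < ‖χ.σ p‖ := by
    have h2 : ∀ᶠ p in 𝓝 a, ‖χ.σ a‖ / 2 < ‖χ.σ p‖ :=
      (χ.σ_an a haB).continuousAt.norm.eventually_const_lt (by linarith)
    exact (show ∀ᶠ p in 𝓝 a, p ∈ s from hs).and h2
  refine ⟨2 / (‖χ.σ a‖ / 2) * ((K : ℝ) + 1), by positivity, ?_⟩
  rw [nhds_prod_eq]
  filter_upwards [h1.prod_mk h1] with p hp
  have hp1 : χ.σ p.1 ≠ 0 := norm_pos_iff.1 (lt_trans (by positivity) hp.1.2)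
  have hp2 : χ.σ p.2 ≠ 0 := norm_pos_iff.1 (lt_trans (by positivity) hp.2.2)
  have h4 := hK.dist_le_mul _ hp.1.1 _ hp.2.1
  rw [dist_eq_norm, dist_eq_norm] at h4
  refine (lb_dist_pr_le hp1 hp2).trans ?_
  rw [mul_assoc]
  refine mul_le_mul ?_ (h4.trans (mul_le_mul_of_nonneg_right (by linarith) (norm_nonneg _))) (norm_nonneg _) (by positivity)
  exact div_le_div_of_nonneg_left (by norm_num) (by positivity) hp.2.2.le

/-- points near the point of a chart -/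
private theorem lb_near {d : ℕ} {X : Set (EN N)} (hX : IsCone X) (χ : Chart d X) {a : Vd d} (haB : a ∈ ball (0 : Vd d) 2) {s : ℝ} (hs : 0 < s) :
    ∃ e : ℝ, 0 < e ∧ ∀ x ∈ X, dist (pr x) (pr (χ.σ a)) < e → x ∈ χ.U ∧ ‖χ.q x - a‖ < s := by
  have hσ := χ.σ_mem a haB
  have hx0 : χ.σ a ≠ 0 := Pool.Agent.TG.ne_zero hX hσ.1
  have hV : {x | x ∈ χ.U ∧ ‖χ.q x - a‖ < s} ∈ 𝓝 (χ.σ a) := by
    have h1 : ∀ᶠ x in 𝓝 (χ.σ a), x ∈ χ.U := χ.isOpen_U.mem_nhds hσ.2.1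
    have h2 : ∀ᶠ x in 𝓝 (χ.σ a), ‖χ.q x - a‖ < s := by
      have hc : ContinuousAt (fun x => ‖χ.q x - a‖) (χ.σ a) := ((χ.q_an _ hσ.2.1).continuousAt.sub continuousAt_const).norm
      have h3 : (fun x => ‖χ.q x - a‖) (χ.σ a) < s := by simpa [hσ.2.2] using hs
      exact hc.tendsto.eventually_lt_const h3
    exact h1.and h2
  obtain ⟨e, he, h⟩ := Pool.Agent.H62.EF.near_of_pr hx0 hV
  refine ⟨e, he, fun x hx hxd => ?_⟩
  obtain ⟨c, hc, hcU, hcq⟩ := h x (Pool.Agent.TG.ne_zero hX hx) hxd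
  have e : x = c⁻¹ • (c • x) := by rw [smul_smul, inv_mul_cancel₀ hc, one_smul]
  have hxU : x ∈ χ.U := by rw [e]; exact χ.smul_U _ hcU _ (inv_ne_zero hc)
  refine ⟨hxU, ?_⟩
  rw [← χ.q_smul x hxU c hc]
  exact hcq

/-- near a point outside `D ∪ Z` -/
private theorem lb_local {X : Set (EN N)} {Λ : AddSubgroup (Vd (k + 1))} {u : EN N → Vd (k + 1)} {Q : EN N → ℂ} {d : ℕ}
    (hX : IsCone X) (hu : TMap X Λ u) (hΛ : Lat Λ) (hQh : ∀ (c : ℂ) (x : EN N), Q (c • x) = c ^ d * Q x)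
    {Φ : Vd (k + 1) → MN N} {μ : ℕ} {Z : Set (Vd (k + 1))} {y₀ : Vd (k + 1)} (hO : OrdAt X Λ u Q Φ μ Z y₀) (hyZ : y₀ ∉ Z) :
    ∃ r C : ℝ, 0 < r ∧ 0 < C ∧ ∀ y, ‖y - y₀‖ < r → ∀ x ∈ X, u x - y ∈ Λ → dist (pr x) (Φ y) ≤ r →
      ‖Q x‖ ≤ C * ‖x‖ ^ d * dist (pr x) (Φ y) ^ μ ∧ ‖x‖ ^ d * dist (pr x) (Φ y) ^ μ ≤ C * ‖Q x‖ := by
  obtain ⟨χ, c, ρ, q₀, φ, b, hstr, hq₀, hms, hφ, hφ0, hb, hE1, hE2, hE3⟩ := hO
  set T : Vd (k + 1) → Vd (k + 2) := fun y => Fin.cons (α := fun _ => ℂ) (φ y) ((ρ : ℂ)⁻¹ • (y - c)) with hT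
  have hTan : AnalyticAt ℂ T y₀ := lb_cons_an hφ (by fun_prop)
  have hT0 : T y₀ = q₀ := by
    have h1 := lb_eq_cons hstr.pos hms
    simp only [hT, hφ0]
    exact h1.symm
  have hb0 : b q₀ ≠ 0 := by
    intro h0
    refine hyZ ((hE3.self_of_nhds).2 ?_)
    have h1 : b (T y₀) = 0 := by rw [hT0]; exact h0
    exact h1
  have hbn : 0 < ‖b q₀‖ := norm_pos_iff.2 hb0
  have hσ0 : χ.σ q₀ ≠ 0 := Pool.Agent.TG.ne_zero hX (χ.σ_mem q₀ hq₀).1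
  have hσn : 0 < ‖χ.σ q₀‖ := norm_pos_iff.2 hσ0
  obtain ⟨K, hK, hKe⟩ := lb_lower hX χ hq₀
  obtain ⟨L, hL, hLe⟩ := lb_upper hX χ hq₀
  obtain ⟨dd, hdd, hdisc⟩ := hΛ.disc
  -- the radius `s`
  have e1 : ∀ᶠ q in 𝓝 q₀, (Q (χ.σ q) = (q 0 - φ (Pool.Agent.TG.ms c ρ q)) ^ μ * b q) ∧ (‖b q₀‖ / 2 < ‖b q‖ ∧ ‖b q‖ < 2 * ‖b q₀‖) ∧
      (‖χ.σ q₀‖ / 2 < ‖χ.σ q‖ ∧ ‖χ.σ q‖ < 2 * ‖χ.σ q₀‖) ∧ (‖Pool.Agent.TG.ms c ρ q - y₀‖ < dd / 2) ∧ q ∈ ball (0 : Vd (k + 2)) 2 := by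
    have g1 : ∀ᶠ q in 𝓝 q₀, ‖b q₀‖ / 2 < ‖b q‖ := hb.continuousAt.norm.eventually_const_lt (by linarith)
    have g2 : ∀ᶠ q in 𝓝 q₀, ‖b q‖ < 2 * ‖b q₀‖ := hb.continuousAt.norm.eventually_lt_const (by linarith)
    have g3 : ∀ᶠ q in 𝓝 q₀, ‖χ.σ q₀‖ / 2 < ‖χ.σ q‖ := (χ.σ_an q₀ hq₀).continuousAt.norm.eventually_const_lt (by linarith)
    have g4 : ∀ᶠ q in 𝓝 q₀, ‖χ.σ q‖ < 2 * ‖χ.σ q₀‖ := (χ.σ_an q₀ hq₀).continuousAt.norm.eventually_lt_const (by linarith)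
    have g5 : ∀ᶠ q in 𝓝 q₀, ‖Pool.Agent.TG.ms c ρ q - y₀‖ < dd / 2 := by
      have h1 : ContinuousAt (fun q => ‖Pool.Agent.TG.ms c ρ q - y₀‖) q₀ :=
        ((Pool.Agent.TG.ms_an c ρ q₀).continuousAt.sub continuousAt_const).norm
      refine h1.eventually_lt_const ?_
      show ‖Pool.Agent.TG.ms c ρ q₀ - y₀‖ < dd / 2
      rw [hms, sub_self, norm_zero]
      exact half_pos hdd
    have g6 : ∀ᶠ q in 𝓝 q₀, q ∈ ball (0 : Vd (k + 2)) 2 := isOpen_ball.mem_nhds hq₀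
    filter_upwards [hE2, g1, g2, g3, g4, g5, g6] with q h0 h1 h2 h3 h4 h5 h6
    exact ⟨h0, ⟨h1, h2⟩, ⟨h3, h4⟩, h5, h6⟩
  obtain ⟨s₁, hs₁, hball₁⟩ := Metric.eventually_nhds_iff_ball.1 e1
  obtain ⟨s₂, hs₂, hball₂⟩ := Metric.eventually_nhds_iff_ball.1 (hKe.and hLe)
  set s := min s₁ s₂ with hsd
  have hs : 0 < s := lt_min hs₁ hs₂
  obtain ⟨e, he, hnear⟩ := lb_near hX χ hq₀ hs
  -- the radius in `y`
  have e2 : ∀ᶠ y in 𝓝 y₀, Φ y = pr (χ.σ (T y)) ∧ ‖T y - q₀‖ < s ∧ dist (pr (χ.σ (T y))) (pr (χ.σ q₀)) < e / 2 ∧ ‖y - y₀‖ < dd / 2 := by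
    have g1 : ∀ᶠ y in 𝓝 y₀, ‖T y - q₀‖ < s := by
      have h1 : ContinuousAt (fun y => ‖T y - q₀‖) y₀ := (hTan.continuousAt.sub continuousAt_const).norm
      refine h1.eventually_lt_const ?_
      show ‖T y₀ - q₀‖ < s
      rw [hT0, sub_self, norm_zero]
      exact hs
    have g2 : ∀ᶠ y in 𝓝 y₀, dist (pr (χ.σ (T y))) (pr (χ.σ q₀)) < e / 2 := by
      have h1 : ContinuousAt (fun q => pr (χ.σ q)) q₀ :=
        ContinuousAt.comp (g := pr) (Pool.Agent.H62.EF.continuousAt_pr hσ0) (χ.σ_an q₀ hq₀).continuousAt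
      have h2 : ContinuousAt (fun q => pr (χ.σ q)) (T y₀) := by
        rw [hT0]
        exact h1
      have h3 : ContinuousAt (fun y => pr (χ.σ (T y))) y₀ :=
        ContinuousAt.comp (g := fun q => pr (χ.σ q)) (f := T) h2 hTan.continuousAt
      have h4 := h3.tendsto
      simp only [hT0] at h4
      exact h4.eventually (ball_mem_nhds _ (half_pos he))
    have g3 : ∀ᶠ y in 𝓝 y₀, ‖y - y₀‖ < dd / 2 := by
      filter_upwards [ball_mem_nhds y₀ (half_pos hdd)] with y hy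
      rwa [mem_ball, dist_eq_norm] at hy
    filter_upwards [hE1, g1, g2, g3] with y h0 h1 h2 h3
    exact ⟨h0, h1, h2, h3⟩
  obtain ⟨r₁, hr₁, hball₃⟩ := Metric.eventually_nhds_iff_ball.1 e2
  refine ⟨min r₁ (e / 4), max (K ^ μ * (2 * ‖b q₀‖) / (‖χ.σ q₀‖ / 2) ^ d) ((2 * ‖χ.σ q₀‖) ^ d * L ^ μ / (‖b q₀‖ / 2)), lt_min hr₁ (by linarith),
    lt_max_of_lt_left (by positivity), fun y hy x hx hux hxd => ?_⟩
  obtain ⟨hΦy, hTs, hTd, hyd⟩ := hball₃ y (by rw [mem_ball, dist_eq_norm]; exact hy.trans_le (min_le_left _ _))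
  have hxd' : dist (pr x) (Φ y) ≤ e / 4 := hxd.trans (min_le_right _ _)
  obtain ⟨hxU, hxq⟩ := hnear x hx (by
    have h1 := dist_triangle (pr x) (Φ y) (pr (χ.σ q₀))
    rw [hΦy] at h1 hxd'
    linarith)
  set q := χ.q x with hq
  have hqs : q ∈ ball q₀ s := by rw [mem_ball, dist_eq_norm]; exact hxq
  have hTs' : T y ∈ ball q₀ s := by rw [mem_ball, dist_eq_norm]; exact hTs
  obtain ⟨hQq, ⟨hb1, hb2⟩, ⟨hσ1, hσ2⟩, hmsd, hqB⟩ := hball₁ q (ball_subset_ball (min_le_left _ _) hqs)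
  obtain ⟨-, -, -, -, hTB⟩ := hball₁ (T y) (ball_subset_ball (min_le_left _ _) hTs')
  have hpair : ((q, T y) : Vd (k + 2) × Vd (k + 2)) ∈ ball (q₀, q₀) s₂ := by
    rw [mem_ball, Prod.dist_eq, max_lt_iff]
    exact ⟨(mem_ball.1 hqs).trans_le (min_le_right _ _), (mem_ball.1 hTs').trans_le (min_le_right _ _)⟩
  obtain ⟨hlow, hupp⟩ := hball₂ _ hpair
  have hlow' := hlow hqB hTB
  simp only at hlow' hupp
  -- `ms c ρ q = y`
  have hmsq : Pool.Agent.TG.ms c ρ q = y := by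
    refine sub_eq_zero.1 (hdisc _ (lb_ms_mem hu hstr hx hxU hux) ?_)
    have h1 : Pool.Agent.TG.ms c ρ (χ.q x) - y = (Pool.Agent.TG.ms c ρ q - y₀) - (y - y₀) := by
      rw [← hq]
      abel
    rw [h1]
    have h2 := norm_sub_le (Pool.Agent.TG.ms c ρ q - y₀) (y - y₀)
    linarith
  have hqc := lb_eq_cons hstr.pos hmsq
  have hdiff : q - T y = (q 0 - φ y) • (Pi.single 0 1 : Vd (k + 2)) := by
    conv_lhs => rw [hqc]
    simp only [hT]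
    funext i
    refine Fin.cases ?_ (fun i => ?_) i
    · simp
    · simp
  have hnd : ‖q - T y‖ = ‖q 0 - φ y‖ := by
    rw [hdiff, norm_smul, Pi.norm_single, norm_one, mul_one]
  rw [hnd] at hlow' hupp
  rw [hmsq] at hQq
  have hprx : pr (χ.σ q) = pr x := Pool.Agent.TG.pr_sigma_q χ hx hxU
  rw [hprx, ← hΦy] at hlow' hupp
  obtain ⟨-, a, ha, hxa⟩ := χ.surj x hx hxU
  rw [← hq] at hxa
  have hQx : ‖Q x‖ = ‖a‖ ^ d * (‖q 0 - φ y‖ ^ μ * ‖b q‖) := by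
    conv_lhs => rw [hxa]
    rw [hQh, norm_mul, norm_pow, hQq, norm_mul, norm_pow]
  have hxn : ‖x‖ ^ d = ‖a‖ ^ d * ‖χ.σ q‖ ^ d := by
    conv_lhs => rw [hxa]
    rw [norm_smul, mul_pow]
  set t := dist (pr x) (Φ y) with ht
  have ht0 : 0 ≤ t := dist_nonneg
  set w := ‖q 0 - φ y‖ with hw
  have hw0 : 0 ≤ w := norm_nonneg _
  set A := ‖a‖ ^ d with hA
  have hA0 : 0 ≤ A := by positivity
  have hwK : w ^ μ ≤ K ^ μ * t ^ μ := by
    rw [← mul_pow]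
    exact pow_le_pow_left₀ hw0 hlow' μ
  have htL : t ^ μ ≤ L ^ μ * w ^ μ := by
    rw [← mul_pow]
    exact pow_le_pow_left₀ ht0 hupp μ
  have hσd1 : (‖χ.σ q₀‖ / 2) ^ d ≤ ‖χ.σ q‖ ^ d := pow_le_pow_left₀ (by positivity) hσ1.le d
  have hσd2 : ‖χ.σ q‖ ^ d ≤ (2 * ‖χ.σ q₀‖) ^ d := pow_le_pow_left₀ (norm_nonneg _) hσ2.le d
  have hσp : 0 < (‖χ.σ q₀‖ / 2) ^ d := by positivity
  have htμ : 0 ≤ t ^ μ := by positivity
  have hwμ : 0 ≤ w ^ μ := by positivity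
  rw [hQx, hxn]
  constructor
  · calc A * (w ^ μ * ‖b q‖) ≤ A * ((K ^ μ * t ^ μ) * (2 * ‖b q₀‖)) := by
          refine mul_le_mul_of_nonneg_left ?_ hA0
          exact mul_le_mul hwK hb2.le (norm_nonneg _) (by positivity)
      _ = (K ^ μ * (2 * ‖b q₀‖) / (‖χ.σ q₀‖ / 2) ^ d) * (A * (‖χ.σ q₀‖ / 2) ^ d) * t ^ μ := by
          field_simp
      _ ≤ (K ^ μ * (2 * ‖b q₀‖) / (‖χ.σ q₀‖ / 2) ^ d) * (A * ‖χ.σ q‖ ^ d) * t ^ μ := by
          refine mul_le_mul_of_nonneg_right ?_ htμ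
          refine mul_le_mul_of_nonneg_left ?_ (by positivity)
          exact mul_le_mul_of_nonneg_left hσd1 hA0
      _ ≤ _ := by
          refine mul_le_mul_of_nonneg_right ?_ htμ
          refine mul_le_mul_of_nonneg_right (le_max_left _ _) (by positivity)
  · calc A * ‖χ.σ q‖ ^ d * t ^ μ ≤ A * (2 * ‖χ.σ q₀‖) ^ d * (L ^ μ * w ^ μ) := by
          refine mul_le_mul ?_ htL htμ (by positivity)
          exact mul_le_mul_of_nonneg_left hσd2 hA0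
      _ = ((2 * ‖χ.σ q₀‖) ^ d * L ^ μ / (‖b q₀‖ / 2)) * (A * (w ^ μ * (‖b q₀‖ / 2))) := by
          field_simp
      _ ≤ ((2 * ‖χ.σ q₀‖) ^ d * L ^ μ / (‖b q₀‖ / 2)) * (A * (w ^ μ * ‖b q‖)) := by
          refine mul_le_mul_of_nonneg_left ?_ (by positivity)
          refine mul_le_mul_of_nonneg_left ?_ hA0
          exact mul_le_mul_of_nonneg_left hb1.le hwμ
      _ ≤ _ := mul_le_mul_of_nonneg_right (le_max_right _ _) (by positivity)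

theorem ordQ_bounds {X : Set (EN N)} {Λ : AddSubgroup (Vd (k + 1))} {u : EN N → Vd (k + 1)} {D B : Set (Vd (k + 1))} {Q : EN N → ℂ} {d : ℕ} {S : Set (Vd (k + 1) → MN N)}
    (G : Geo X Λ u D B) (hS : Csf X Λ u D S) (hQ : QD X Λ u D Q d) {Φ : Vd (k + 1) → MN N} (hΦ : Φ ∈ S) {μ M : ℕ} (hμ : 1 ≤ μ) (hM : 1 ≤ M) {Z : Set (Vd (k + 1))}
    (hZ : ∀ y ∉ D, OrdAt X Λ u Q Φ μ Z y) (hp : ∀ y ∈ Z, ∀ l ∈ Λ, y + M • l ∈ Z) :
    IsClosed (D ∪ Z) ∧ ∀ δ : ℝ, 0 < δ → ∃ ε₀ C : ℝ, 0 < ε₀ ∧ 0 < C ∧ ∀ y, (∀ w ∈ D ∪ Z, δ ≤ ‖y - w‖) → ∀ x ∈ X, u x - y ∈ Λ → dist (pr x) (Φ y) ≤ ε₀ →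
      ‖Q x‖ ≤ C * ‖x‖ ^ d * dist (pr x) (Φ y) ^ μ ∧ ‖x‖ ^ d * dist (pr x) (Φ y) ^ μ ≤ C * ‖Q x‖ := by
  have _ := hμ
  have hcl : IsClosed (D ∪ Z) := by
    rw [← isOpen_compl_iff, isOpen_iff_mem_nhds]
    intro y hy
    have hyD : y ∉ D := fun h => hy (Or.inl h)
    have hyZ : y ∉ Z := fun h => hy (Or.inr h)
    obtain ⟨χ, c, ρ, q₀, φ, b, hstr, hq₀, hms, hφ, hφ0, hb, -, -, hE⟩ := hZ y hyD
    have hβ : ContinuousAt (fun y => b (Fin.cons (α := fun _ => ℂ) (φ y) ((ρ : ℂ)⁻¹ • (y - c)))) y := by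
      refine (AnalyticAt.fun_comp (g := b) (f := fun y : Vd (k + 1) => (Fin.cons (α := fun _ => ℂ) (φ y) ((ρ : ℂ)⁻¹ • (y - c)) : Vd (k + 2))) ?_
        (lb_cons_an hφ (by fun_prop))).continuousAt
      have h1 := lb_eq_cons hstr.pos hms
      simp only [hφ0]
      rw [← h1]
      exact hb
    have hne : b (Fin.cons (α := fun _ => ℂ) (φ y) ((ρ : ℂ)⁻¹ • (y - c))) ≠ 0 := fun h => hyZ ((hE.self_of_nhds).2 h)
    filter_upwards [G.D_closed.isOpen_compl.mem_nhds hyD, hE, hβ.eventually_ne hne] with z h1 h2 h3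
    rintro (h4 | h4)
    · exact h1 h4
    · exact h3 (h2.1 h4)
  refine ⟨hcl, fun δ hδ => ?_⟩
  obtain ⟨M', hM', hMΦ⟩ := lb_period G hS hΦ
  obtain ⟨R, hR, hcpt⟩ := G.lat.cpt
  set m := M * M' with hm
  have hm1 : 1 ≤ m := Nat.mul_pos hM hM'
  have hmr : (0 : ℝ) < m := by exact_mod_cast hm1
  -- the compact set
  set E : Set (Vd (k + 1)) := {y | ∀ w ∈ D ∪ Z, δ ≤ ‖y - w‖} with hEd
  have hEc : IsClosed E := by
    have h1 : E = ⋂ w ∈ D ∪ Z, {y | δ ≤ ‖y - w‖} := by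
      ext y
      simp only [hEd, Set.mem_ofPred_eq, Set.mem_iInter]
    rw [h1]
    refine isClosed_biInter fun w _ => ?_
    exact isClosed_le continuous_const (by fun_prop)
  have hK : IsCompact (closedBall (0 : Vd (k + 1)) (m * R) ∩ E) := (isCompact_closedBall _ _).inter_right hEc
  have hmain : ∃ r C : ℝ, 0 < r ∧ 0 < C ∧ ∀ y ∈ closedBall (0 : Vd (k + 1)) (m * R) ∩ E, ∀ x ∈ X, u x - y ∈ Λ → dist (pr x) (Φ y) ≤ r →
      ‖Q x‖ ≤ C * ‖x‖ ^ d * dist (pr x) (Φ y) ^ μ ∧ ‖x‖ ^ d * dist (pr x) (Φ y) ^ μ ≤ C * ‖Q x‖ := by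
    refine hK.induction_on (p := fun s : Set (Vd (k + 1)) => ∃ r C : ℝ, 0 < r ∧ 0 < C ∧ ∀ y ∈ s, ∀ x ∈ X, u x - y ∈ Λ → dist (pr x) (Φ y) ≤ r →
      ‖Q x‖ ≤ C * ‖x‖ ^ d * dist (pr x) (Φ y) ^ μ ∧ ‖x‖ ^ d * dist (pr x) (Φ y) ^ μ ≤ C * ‖Q x‖) ?_ ?_ ?_ ?_
    · exact ⟨1, 1, one_pos, one_pos, fun y hy => absurd hy (Set.notMem_empty y)⟩
    · rintro s t hst ⟨r, C, hr, hC, h⟩
      exact ⟨r, C, hr, hC, fun y hy => h y (hst hy)⟩
    · rintro s t ⟨r, C, hr, hC, h⟩ ⟨r', C', hr', hC', h'⟩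
      refine ⟨min r r', max C C', lt_min hr hr', lt_max_of_lt_left hC, ?_⟩
      have hup : ∀ (C₁ : ℝ), C₁ ≤ max C C' → ∀ (y : Vd (k + 1)) (x : EN N),
          (‖Q x‖ ≤ C₁ * ‖x‖ ^ d * dist (pr x) (Φ y) ^ μ ∧ ‖x‖ ^ d * dist (pr x) (Φ y) ^ μ ≤ C₁ * ‖Q x‖) →
          (‖Q x‖ ≤ max C C' * ‖x‖ ^ d * dist (pr x) (Φ y) ^ μ ∧ ‖x‖ ^ d * dist (pr x) (Φ y) ^ μ ≤ max C C' * ‖Q x‖) := by
        intro C₁ hC₁ y x hh
        refine ⟨hh.1.trans ?_, hh.2.trans (mul_le_mul_of_nonneg_right hC₁ (norm_nonneg _))⟩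
        refine mul_le_mul_of_nonneg_right ?_ (pow_nonneg dist_nonneg _)
        exact mul_le_mul_of_nonneg_right hC₁ (by positivity)
      rintro y (hy | hy) x hx hux hxd
      · exact hup C (le_max_left _ _) y x (h y hy x hx hux (hxd.trans (min_le_left _ _)))
      · exact hup C' (le_max_right _ _) y x (h' y hy x hx hux (hxd.trans (min_le_right _ _)))
    · intro y₀ hy₀
      have hyD : y₀ ∉ D := by
        intro h
        have h1 := hy₀.2 y₀ (Or.inl h)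
        rw [sub_self, norm_zero] at h1
        linarith
      have hyZ : y₀ ∉ Z := by
        intro h
        have h1 := hy₀.2 y₀ (Or.inr h)
        rw [sub_self, norm_zero] at h1
        linarith
      obtain ⟨r, C, hr, hC, h⟩ := lb_local G.cone G.tor G.lat hQ.hom (hZ y₀ hyD) hyZ
      refine ⟨ball y₀ r, mem_nhdsWithin_of_mem_nhds (ball_mem_nhds _ hr), r, C, hr, hC, fun y hy => h y ?_⟩
      rwa [mem_ball, dist_eq_norm] at hy
  obtain ⟨r, C, hr, hC, h⟩ := hmain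
  refine ⟨r, C, hr, hC, fun y hy x hx hux hxd => ?_⟩
  obtain ⟨l, hl, hly⟩ := hcpt ((m : ℂ)⁻¹ • y)
  have hmc : (m : ℂ) ≠ 0 := by
    have : m ≠ 0 := by omega
    exact_mod_cast this
  set y' := y - m • l with hy'
  have hml : m • l ∈ Λ := Λ.nsmul_mem hl m
  have hyy : y' + m • l = y := by rw [hy', sub_add_cancel]
  have hZm : ∀ w ∈ D ∪ Z, w + m • l ∈ D ∪ Z := by
    rintro w (hw | hw)
    · exact Or.inl (G.D_inv w hw _ hml)
    · right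
      have h1 : m • l = M • (M' • l) := by rw [hm, mul_smul]
      rw [h1]
      exact hp w hw _ (Λ.nsmul_mem hl M')
  have hyE : y' ∈ E := by
    intro w hw
    have h1 := hy _ (hZm w hw)
    have h2 : y' - w = y - (w + m • l) := by rw [hy']; abel
    rw [h2]
    exact h1
  have hyB : y' ∈ closedBall (0 : Vd (k + 1)) (m * R) := by
    rw [mem_closedBall_zero_iff]
    have h1 : y' = (m : ℂ) • ((m : ℂ)⁻¹ • y - l) := by
      rw [smul_sub, smul_smul, mul_inv_cancel₀ hmc, one_smul, hy', Nat.cast_smul_eq_nsmul]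
    rw [h1, norm_smul, Complex.norm_natCast]
    exact mul_le_mul_of_nonneg_left hly hmr.le
  have hyD : y' ∉ D := by
    intro h0
    have h1 := hyE y' (Or.inl h0)
    rw [sub_self, norm_zero] at h1
    linarith
  have hΦy : Φ y = Φ y' := by
    have h1 : m • l = M' • (M • l) := by rw [hm, mul_comm, mul_smul]
    rw [← hyy, h1]
    exact hMΦ _ (Λ.nsmul_mem hl M) _ hyD
  rw [hΦy] at hxd ⊢
  refine h y' ⟨hyB, hyE⟩ x hx ?_ hxd
  have h1 : u x - y' = (u x - y) + m • l := by rw [hy']; abel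
  rw [h1]
  exact Λ.add_mem hux hml

end Pool.Agent.G4
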