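import Pool.Agent.G4.Z.LctA
import Pool.Agent.G4.Z.LocB
import Pool.Agent.G4.Z.JW
import Pool.Agent.G3.Z.Mean
import Pool.Agent.G3.Z.Mk

/-!
# G4 Z LctC: upper and lower bounds for the integrals

`μ ≥ 1` and `Z` are the order of `Q` along `Φ` and the exceptional set (`Z/LocA`, `Z/LocB`).

`gg_up`: on a compact `K` of points of the line with distance `≥ δ` from `D ∪ Z`.  For `𝒰`-many `n` the points `h n z`, `z ∈ K`, have distance `≥ δ/2` from `D ∪ Z` and `dist (Φ (h n z)) (pr (F n z))` is less than the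
`ε₀` of `ordQ_bounds` (with `x = F n z`, `y = h n z`) and of `JBd.ub` (`lct_sec`).  If `Q (F n z) = 0` then the distance is `0` by `ordQ_bounds`, so `gg = 0` by `JBd.ub`.  Otherwise `Ok` holds:
`p ≥ c fs ^ m ≥ c (‖h'‖ / C) ^ m > 0` (`PS.ge_fs`, `PS.du`, `Cv.tan`, `‖h'‖ ≥ ‖a‖ / 2`), and `Np ≤ log (C ^ m / c)` or `0`; by the inequality `star` (`ε = 1`):
`‖Q (F n z)‖ / ‖F n z‖ ^ d = exp (- Lq) ≤ exp (1 + d Np - Lam (0)) / ‖E n z‖`, and `‖gg‖ ^ μ ≤ C exp (- μ c₀ ‖h n z‖ ^ 2) dist ^ μ ≤ C' exp (- μ c₀ ‖h n z‖ ^ 2) ‖Q‖ / ‖F‖ ^ d`;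
`‖h n z‖ ^ 2 ≥ ‖a‖ ^ 2 ‖z‖ ^ 2 / 2 - C''`.  The constant `C` depends only on `δ` (and `c` not even on `δ`).

`gg_lo`: choose `z₀ ∈ U` with `z₀ ≠ 0` and `z₀ • a + b ∉ D ∪ Z` (countable), a small closed ball `K` around it in `U` which does not meet the closed set `{z | z • a + b ∈ D ∪ Z}`; `exists_good` and `mean_bd` with `r = ‖z₀‖`,
`O` the open ball; so for `𝒰`-many `n` there is `z ∈ K` with `Ok` and `Lam (z) ≤ Lam (0) + log ‖E n z‖ + K'`, so (`Lq ≤ Lam`) `‖Q (F n z)‖ / ‖F n z‖ ^ d ≥ exp (- Lam (0) - K') / ‖E n z‖`; with `ordQ_bounds` and `JBd.lb`: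
`c ≤ ‖gg (α j)‖ ^ μ ‖E n z‖ exp (Lam (0))` for some `j`.
-/

set_option autoImplicit false

open Topology Filter Metric

namespace Pool.Agent.G4

open Pool.Agent.H36.BP (EN fs wd Sub)
open Pool.Agent.H14.PP (IsCone CurveAt Tan)
open Pool.Agent.H62.EF (MN pr)
open Pool.Agent.AD (Vd Chart Charts)
open Pool.Agent.TG (TMap Lat Geo Gd)

open Pool.Agent.TG (VForm JJ II Cst Fb TransAt)
open Pool.Agent.G3 (Cv wt PS QD Crs Lim Arr gg Lq Lam Np pf Ok mean_bd exists_good)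

variable {N k : ℕ} {X : Set (EN N)} {Λ : AddSubgroup (Vd (k + 1))} {u : EN N → Vd (k + 1)} {D B : Set (Vd (k + 1))} {p : EN N → EN N → ℝ} {m d : ℕ} {C : ℝ}
  {Q : EN N → ℂ} {S : Set (Vd (k + 1) → MN N)} {J r : ℕ} {α : Fin J → VForm X Λ u} {W : Fin r → Vd (k + 1) →L[ℂ] ℂ} {𝒰 : Ultrafilter ℕ} {F : ℕ → ℂ → EN N} {h : ℕ → ℂ → Vd (k + 1)} {E : ℕ → ℂ → ℂ}
  {a b : Vd (k + 1)} {Φ : Vd (k + 1) → MN N}

/-- the distance of the arc from a set -/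
private theorem LctC_dist {V : Set (Vd (k + 1))} {δ : ℝ} {y q : Vd (k + 1)} (hq : ∀ w ∈ V, δ ≤ ‖q - w‖) (hy : ‖y - q‖ ≤ δ / 2) : ∀ w ∈ V, δ / 2 ≤ ‖y - w‖ := by
  intro w hw
  have h1 := hq w hw
  have h2 : ‖q - w‖ ≤ ‖q - y‖ + ‖y - w‖ := norm_sub_le_norm_sub_add_norm_sub q y w
  rw [norm_sub_rev q y] at h2
  linarith

private theorem LctC_exp_lq {d : ℕ} {x : EN N} (hx : x ≠ 0) {Q : EN N → ℂ} (hQ : Q x ≠ 0) : Real.exp (Lq Q d x) = ‖x‖ ^ d / ‖Q x‖ := by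
  unfold Lq
  rw [Real.exp_sub, Real.exp_log (norm_pos_iff.2 hQ), ← Real.log_pow, Real.exp_log (pow_pos (norm_pos_iff.2 hx) d)]

theorem gg_up (H : Sit X Λ u D B p m C Q d S α W) (hΦ : Φ ∈ S) (A : Arr X Λ u D Q d p m 𝒰 F h E a b Φ) {μ M : ℕ} (hμ : 1 ≤ μ) (hM : 1 ≤ M) {Z : Set (Vd (k + 1))}
    (hZ : ∀ y ∉ D, OrdAt X Λ u Q Φ μ Z y) (hp : ∀ y ∈ Z, ∀ l ∈ Λ, y + M • l ∈ Z) :
    ∃ c : ℝ, 0 < c ∧ ∀ δ : ℝ, 0 < δ → ∃ C' : ℝ, ∀ K : Set ℂ, IsCompact K → (∀ z ∈ K, ∀ w ∈ D ∪ Z, δ ≤ ‖z • a + b - w‖) →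
      ∀ᶠ n in (𝒰 : Filter ℕ), ∀ z ∈ K, ∀ j, ‖gg (α j) Φ (F n) (h n) z‖ ^ μ * ‖E n z‖ * Real.exp (Lam Q d p m (F n) (h n) 0) ≤ C' * Real.exp (-c * ‖z‖ ^ 2) := by
  have ha : 0 < ‖a‖ := norm_pos_iff.2 A.lim.a_ne
  obtain ⟨c₀, hjbd⟩ := H.jbw.jbd
  have hc₀ : 0 < c₀ := hjbd.pos
  have hμ0 : μ ≠ 0 := by omega
  have hμp : (0 : ℝ) < μ := by exact_mod_cast hμ
  obtain ⟨-, hord⟩ := ordQ_bounds H.geo H.csf H.qd hΦ hμ hM hZ hp
  refine ⟨μ * c₀ * ‖a‖ ^ 2 / 2, by positivity, fun δ hδ => ?_⟩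
  obtain ⟨ε₁, C₁, hε₁, hC₁, hord'⟩ := hord (δ / 2) (half_pos hδ)
  obtain ⟨ε₂, C₂, hε₂, hC₂, hub⟩ := hjbd.ub (δ / 2) (half_pos hδ)
  obtain ⟨c₃, hc₃, hge⟩ := H.ps.ge_fs (δ / 2) (half_pos hδ)
  have hC0 : 0 < C := one_pos.trans_le H.ps.C_ge
  set N₁ : ℝ := max 0 (-Real.log (c₃ / C ^ m)) with hN₁
  refine ⟨C₂ ^ μ * Real.exp (1 + d * N₁) * C₁ * Real.exp (μ * c₀ * (‖b‖ + 1) ^ 2), fun K hK hKδ => ?_⟩
  have hKD : ∀ z ∈ K, z • a + b ∉ D := by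
    intro z hz hzD
    have h1 := hKδ z hz _ (Or.inl hzD)
    rw [sub_self, norm_zero] at h1
    linarith
  obtain ⟨r, hr⟩ := hK.isBounded.subset_closedBall (0 : ℂ)
  have hr1 : 0 < |r| + 1 := by positivity
  filter_upwards [A.lim.hlim r (min (δ / 2) 1) (lt_min (half_pos hδ) one_pos), lct_sec H.geo.cone H.geo.D_closed H.csf hΦ A.lim hK hKD (lt_min hε₁ hε₂),
    A.dh (|r| + 1) (‖a‖ / 2) (half_pos ha), A.lim.cv (|r| + 1), A.star (|r| + 1) 1 one_pos, A.ex (|r| + 1)] with n hlim hsec hdh hcv hstar hex z hz j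
  have hzr : z ∈ closedBall (0 : ℂ) r := hr hz
  have hzb : z ∈ ball (0 : ℂ) (|r| + 1) := by
    rw [mem_closedBall, dist_zero_right] at hzr
    rw [mem_ball, dist_zero_right]
    have := le_abs_self r
    linarith
  have hyq := hlim z hzr
  have hy1 : ‖h n z - (z • a + b)‖ ≤ δ / 2 := (hyq.trans_le (min_le_left _ _)).le
  have hy2 : ‖h n z - (z • a + b)‖ ≤ 1 := (hyq.trans_le (min_le_right _ _)).le
  have hyD : ∀ w ∈ D ∪ Z, δ / 2 ≤ ‖h n z - w‖ := LctC_dist (hKδ z hz) hy1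
  have hGd : h n z ∈ Gd D (δ / 2) := fun w hw => hyD w (Or.inl hw)
  obtain ⟨-, hf1, hf2, hdist⟩ := hsec z hz
  have hxX := hcv.mem z hzb
  have hxl := hcv.lift z hzb
  have hx0 : F n z ≠ 0 := Pool.Agent.TG.ne_zero H.geo.cone hxX
  have hxn : 0 < ‖F n z‖ := norm_pos_iff.2 hx0
  have hd1 : dist (pr (F n z)) (Φ (h n z)) ≤ ε₁ := by
    rw [dist_comm]
    exact (hdist.trans_le (min_le_left _ _)).le
  obtain ⟨-, ho2⟩ := hord' (h n z) hyD (F n z) hxX hxl hd1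
  have hj := hub j (h n z) hGd _ hf1 _ hf2 (hdist.trans_le (min_le_right _ _)).le
  rw [dist_comm] at ho2
  set t : ℝ := dist (Φ (h n z)) (pr (F n z)) with ht
  have ht0 : 0 ≤ t := dist_nonneg
  have hgg : ‖gg (α j) Φ (F n) (h n) z‖ ^ μ ≤ C₂ ^ μ * Real.exp (-c₀ * ‖h n z‖ ^ 2) ^ μ * t ^ μ := by
    rw [← mul_pow, ← mul_pow]
    exact pow_le_pow_left₀ (norm_nonneg _) hj μ
  have hEL : 0 ≤ ‖E n z‖ * Real.exp (Lam Q d p m (F n) (h n) 0) := mul_nonneg (norm_nonneg _) (Real.exp_nonneg _)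
  rw [mul_assoc]
  by_cases hQ0 : Q (F n z) = 0
  · rw [hQ0, norm_zero, mul_zero] at ho2
    have h1 : t ^ μ ≤ 0 := by
      by_contra hcon
      push Not at hcon
      have := mul_pos (pow_pos hxn d) hcon
      linarith
    have h2 : ‖gg (α j) Φ (F n) (h n) z‖ ^ μ ≤ 0 := by
      refine hgg.trans ?_
      exact mul_nonpos_of_nonneg_of_nonpos (by positivity) h1
    have h3 : ‖gg (α j) Φ (F n) (h n) z‖ ^ μ * (‖E n z‖ * Real.exp (Lam Q d p m (F n) (h n) 0)) ≤ 0 := mul_nonpos_of_nonpos_of_nonneg h2 hEL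
    refine h3.trans ?_
    positivity
  · have hQn : 0 < ‖Q (F n z)‖ := norm_pos_iff.2 hQ0
    -- the derivative
    have hdz := hdh z hzb
    have hdlo : ‖a‖ / 2 ≤ ‖deriv (h n) z‖ := by
      have h1 : ‖a‖ ≤ ‖a - deriv (h n) z‖ + ‖deriv (h n) z‖ := norm_le_norm_sub_add a _
      rw [norm_sub_rev] at h1
      linarith
    have hdpos : 0 < ‖deriv (h n) z‖ := (half_pos ha).trans_le hdlo
    have hdu := H.ps.du _ (F n) (h n) isOpen_ball hcv z hzb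
    have hfs : ‖deriv (h n) z‖ / C ≤ fs (F n z) (deriv (F n) z) := by
      rw [div_le_iff₀ hC0, mul_comm]
      exact hdu
    have hpge := hge (h n z) hGd (F n z) hxX hxl (deriv (F n) z) (hcv.tan isOpen_ball hzb)
    have hp1 : c₃ * (‖deriv (h n) z‖ / C) ^ m ≤ pf p (F n) z := (mul_le_mul_of_nonneg_left (pow_le_pow_left₀ (by positivity) hfs m) hc₃.le).trans hpge
    have hppos : 0 < pf p (F n) z := lt_of_lt_of_le (by positivity) hp1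
    have hN : Np p m (F n) (h n) z ≤ N₁ := by
      unfold Np
      refine max_le_max le_rfl ?_
      rw [neg_le_neg_iff]
      refine Real.log_le_log (by positivity) ?_
      rw [le_div_iff₀ (by positivity)]
      refine le_trans (le_of_eq ?_) hp1
      rw [div_pow]
      ring
    have hst := hstar z hzb ⟨hQ0, hppos⟩
    have hEn : 0 < ‖E n z‖ := norm_pos_iff.2 (hex.2.1 z hzb)
    have hL : Lam Q d p m (F n) (h n) 0 + Real.log ‖E n z‖ ≤ (1 + d * N₁) + Lq Q d (F n z) := by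
      have h1 : Lam Q d p m (F n) (h n) z = Lq Q d (F n z) + d * Np p m (F n) (h n) z := rfl
      have h2 : (d : ℝ) * Np p m (F n) (h n) z ≤ d * N₁ := mul_le_mul_of_nonneg_left hN (Nat.cast_nonneg d)
      linarith
    have hE : ‖E n z‖ * Real.exp (Lam Q d p m (F n) (h n) 0) ≤ Real.exp (1 + d * N₁) * (‖F n z‖ ^ d / ‖Q (F n z)‖) := by
      have h1 := Real.exp_le_exp.2 hL
      rw [Real.exp_add, Real.exp_add, Real.exp_log hEn, LctC_exp_lq hx0 hQ0, mul_comm] at h1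
      exact h1
    have hpr : t ^ μ * (‖F n z‖ ^ d / ‖Q (F n z)‖) ≤ C₁ := by
      rw [mul_div_assoc', div_le_iff₀ hQn, mul_comm]
      exact ho2
    -- the weight
    have hsq : ‖a‖ ^ 2 * ‖z‖ ^ 2 / 2 - (‖b‖ + 1) ^ 2 ≤ ‖h n z‖ ^ 2 := by
      have h1 : ‖z‖ * ‖a‖ ≤ ‖h n z‖ + (‖b‖ + 1) := by
        have e : z • a = (z • a + b - h n z) + (h n z - b) := by abel
        rw [← norm_smul, e]
        have h2 := norm_add_le (z • a + b - h n z) (h n z - b)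
        have h3 := norm_sub_le (h n z) b
        rw [norm_sub_rev (z • a + b)] at h2
        linarith
      have h2 : (‖z‖ * ‖a‖) ^ 2 ≤ (‖h n z‖ + (‖b‖ + 1)) ^ 2 := pow_le_pow_left₀ (by positivity) h1 2
      nlinarith [sq_nonneg (‖h n z‖ - (‖b‖ + 1))]
    have hexp : Real.exp (-c₀ * ‖h n z‖ ^ 2) ^ μ ≤ Real.exp (μ * c₀ * (‖b‖ + 1) ^ 2) * Real.exp (-(μ * c₀ * ‖a‖ ^ 2 / 2) * ‖z‖ ^ 2) := by
      rw [← Real.exp_nat_mul, ← Real.exp_add]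
      apply Real.exp_le_exp.2
      have h1 : (μ : ℝ) * c₀ * (‖a‖ ^ 2 * ‖z‖ ^ 2 / 2 - (‖b‖ + 1) ^ 2) ≤ μ * c₀ * ‖h n z‖ ^ 2 := mul_le_mul_of_nonneg_left hsq (by positivity)
      linarith
    calc ‖gg (α j) Φ (F n) (h n) z‖ ^ μ * (‖E n z‖ * Real.exp (Lam Q d p m (F n) (h n) 0))
        ≤ (C₂ ^ μ * Real.exp (-c₀ * ‖h n z‖ ^ 2) ^ μ * t ^ μ) * (Real.exp (1 + d * N₁) * (‖F n z‖ ^ d / ‖Q (F n z)‖)) :=
          mul_le_mul hgg hE hEL (by positivity)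
      _ = C₂ ^ μ * Real.exp (1 + d * N₁) * (t ^ μ * (‖F n z‖ ^ d / ‖Q (F n z)‖)) * Real.exp (-c₀ * ‖h n z‖ ^ 2) ^ μ := by ring
      _ ≤ C₂ ^ μ * Real.exp (1 + d * N₁) * C₁ * (Real.exp (μ * c₀ * (‖b‖ + 1) ^ 2) * Real.exp (-(μ * c₀ * ‖a‖ ^ 2 / 2) * ‖z‖ ^ 2)) := by
          refine mul_le_mul (mul_le_mul_of_nonneg_left hpr (by positivity)) hexp (by positivity) (by positivity)
      _ = C₂ ^ μ * Real.exp (1 + d * N₁) * C₁ * Real.exp (μ * c₀ * (‖b‖ + 1) ^ 2) * Real.exp (-(μ * c₀ * ‖a‖ ^ 2 / 2) * ‖z‖ ^ 2) := by ring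

theorem gg_lo (H : Sit X Λ u D B p m C Q d S α W) (hΦ : Φ ∈ S) (A : Arr X Λ u D Q d p m 𝒰 F h E a b Φ) {μ M : ℕ} (hμ : 1 ≤ μ) (hM : 1 ≤ M) {Z : Set (Vd (k + 1))}
    (hZ : ∀ y ∉ D, OrdAt X Λ u Q Φ μ Z y) (hp : ∀ y ∈ Z, ∀ l ∈ Λ, y + M • l ∈ Z) (hZc : Set.Countable {z : ℂ | z • a + b ∈ D ∪ Z}) {U : Set ℂ} (hU : IsOpen U) (hUn : U.Nonempty) :
    ∃ (K : Set ℂ) (c : ℝ), IsCompact K ∧ K ⊆ U ∧ (∀ z ∈ K, z • a + b ∉ D) ∧ 0 < c ∧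
      ∀ᶠ n in (𝒰 : Filter ℕ), ∃ z ∈ K, ∃ j, c ≤ ‖gg (α j) Φ (F n) (h n) z‖ ^ μ * ‖E n z‖ * Real.exp (Lam Q d p m (F n) (h n) 0) := by
  have ha : 0 < ‖a‖ := norm_pos_iff.2 A.lim.a_ne
  have hμ0 : μ ≠ 0 := by omega
  obtain ⟨hcl, hord⟩ := ordQ_bounds H.geo H.csf H.qd hΦ hμ hM hZ hp
  obtain ⟨c₀, hjbd⟩ := H.jbw.jbd
  -- the point `z₀`
  have hdense : Dense ({z : ℂ | z • a + b ∈ D ∪ Z} ∪ {0})ᶜ := (hZc.union (Set.countable_singleton 0)).dense_compl ℝ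
  obtain ⟨z₀, hz₀U, hz₀⟩ := hdense.inter_open_nonempty U hU hUn
  have hz₀D : z₀ • a + b ∉ D ∪ Z := fun h => hz₀ (Or.inl h)
  have hz₀0 : z₀ ≠ 0 := fun h => hz₀ (Or.inr h)
  obtain ⟨δ₀, hδ₀, hball⟩ := Metric.isOpen_iff.1 hcl.isOpen_compl _ hz₀D
  obtain ⟨ρ₁, hρ₁, hU₁⟩ := Metric.isOpen_iff.1 hU _ hz₀U
  set ρ : ℝ := min (ρ₁ / 2) (δ₀ / 2 / ‖a‖) with hρd
  have hρ : 0 < ρ := lt_min (half_pos hρ₁) (by positivity)
  have hKU : closedBall z₀ ρ ⊆ U := by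
    refine Set.Subset.trans ?_ hU₁
    refine closedBall_subset_ball ?_
    exact (min_le_left _ _).trans_lt (half_lt_self hρ₁)
  set δ : ℝ := δ₀ / 2 with hδd
  have hδ : 0 < δ := half_pos hδ₀
  have hKδ : ∀ z ∈ closedBall z₀ ρ, ∀ w ∈ D ∪ Z, δ ≤ ‖z • a + b - w‖ := by
    intro z hz w hw
    have h1 : δ₀ ≤ ‖w - (z₀ • a + b)‖ := by
      by_contra hcon
      push Not at hcon
      exact hball (by rwa [mem_ball, dist_eq_norm]) hw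
    have h2 : ‖z • a + b - (z₀ • a + b)‖ ≤ δ₀ / 2 := by
      have e : z • a + b - (z₀ • a + b) = (z - z₀) • a := by
        rw [sub_smul]
        abel
      rw [e, norm_smul]
      have h3 : ‖z - z₀‖ ≤ δ₀ / 2 / ‖a‖ := by
        rw [mem_closedBall, dist_eq_norm] at hz
        exact hz.trans (min_le_right _ _)
      calc ‖z - z₀‖ * ‖a‖ ≤ δ₀ / 2 / ‖a‖ * ‖a‖ := mul_le_mul_of_nonneg_right h3 ha.le
        _ = δ₀ / 2 := by field_simp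
    have h3 : ‖w - (z₀ • a + b)‖ ≤ ‖w - (z • a + b)‖ + ‖z • a + b - (z₀ • a + b)‖ := norm_sub_le_norm_sub_add_norm_sub _ _ _
    rw [norm_sub_rev w (z • a + b)] at h3
    linarith
  have hKD : ∀ z ∈ closedBall z₀ ρ, z • a + b ∉ D := by
    intro z hz hzD
    have h1 := hKδ z hz _ (Or.inl hzD)
    rw [sub_self, norm_zero] at h1
    linarith
  -- the constants
  set r : ℝ := ‖z₀‖ with hrd
  have hr : 0 < r := norm_pos_iff.2 hz₀0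
  set R : ℝ := r + ρ + 1 with hRd
  have hrR : r < R := by linarith
  obtain ⟨K₁, hmean⟩ := mean_bd (X := X) (Λ := Λ) (u := u) (D := D) (p := p) (m := m) (d := d) (C := C) (Q := Q) H.geo.cone H.ps H.qd (c₀ := ‖a‖ / 2) (H := 3 * ‖a‖ / 2)
    (half_pos ha) hr hrR
  obtain ⟨K', hgood⟩ := exists_good (K := K₁) H.geo.cone H.ps H.qd hr hrR (O := ball z₀ ρ) isOpen_ball ⟨z₀, mem_ball_self hρ, rfl⟩
  obtain ⟨ε₁, C₁, hε₁, hC₁, hord'⟩ := hord (δ / 2) (half_pos hδ)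
  obtain ⟨ε₂, c₂, hε₂, hc₂, hlb⟩ := hjbd.lb (δ / 2) (r * ‖a‖ + ‖b‖ + 1) (half_pos hδ)
  refine ⟨closedBall z₀ ρ, c₂ ^ μ / (C₁ * Real.exp K'), isCompact_closedBall _ _, hKU, hKD, by positivity, ?_⟩
  filter_upwards [A.lim.hlim R (min (δ / 2) 1) (lt_min (half_pos hδ) one_pos),
    lct_sec H.geo.cone H.geo.D_closed H.csf hΦ A.lim (isCompact_closedBall z₀ ρ) hKD (lt_min hε₁ hε₂), A.dh R (‖a‖ / 2) (half_pos ha), A.lim.cv R, A.star R 1 one_pos, A.ex R, A.ok]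
    with n hlim hsec hdh hcv hstar hex hok
  have hdb : ∀ z ∈ ball (0 : ℂ) R, ‖a‖ / 2 ≤ ‖deriv (h n) z‖ ∧ ‖deriv (h n) z‖ ≤ 3 * ‖a‖ / 2 := by
    intro z hz
    have hdz := hdh z hz
    constructor
    · have h1 : ‖a‖ ≤ ‖a - deriv (h n) z‖ + ‖deriv (h n) z‖ := norm_le_norm_sub_add a _
      rw [norm_sub_rev] at h1
      linarith
    · have h1 : ‖deriv (h n) z‖ ≤ ‖deriv (h n) z - a‖ + ‖a‖ := norm_le_norm_sub_add _ a
      linarith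
  obtain ⟨hci, hca⟩ := hmean (F n) (h n) hcv hdb hok
  obtain ⟨z, hzO, hzr, hzok, hzL⟩ := hgood (F n) (h n) (E n) hcv hok hex.1 hex.2.1 hex.2.2 hci hca fun z hz hzok =>
    hstar z (by rw [mem_ball_zero_iff, hz]; exact hrR) hzok
  have hzK : z ∈ closedBall z₀ ρ := ball_subset_closedBall hzO
  have hzb : z ∈ ball (0 : ℂ) R := by rw [mem_ball_zero_iff, hzr]; exact hrR
  have hyq := hlim z (ball_subset_closedBall hzb)
  have hy1 : ‖h n z - (z • a + b)‖ ≤ δ / 2 := (hyq.trans_le (min_le_left _ _)).le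
  have hy2 : ‖h n z - (z • a + b)‖ ≤ 1 := (hyq.trans_le (min_le_right _ _)).le
  have hyD : ∀ w ∈ D ∪ Z, δ / 2 ≤ ‖h n z - w‖ := LctC_dist (hKδ z hzK) hy1
  have hGd : h n z ∈ Gd D (δ / 2) := fun w hw => hyD w (Or.inl hw)
  obtain ⟨-, hf1, hf2, hdist⟩ := hsec z hzK
  have hxX := hcv.mem z hzb
  have hxl := hcv.lift z hzb
  have hx0 : F n z ≠ 0 := Pool.Agent.TG.ne_zero H.geo.cone hxX
  have hxn : 0 < ‖F n z‖ := norm_pos_iff.2 hx0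
  have hd1 : dist (pr (F n z)) (Φ (h n z)) ≤ ε₁ := by
    rw [dist_comm]
    exact (hdist.trans_le (min_le_left _ _)).le
  obtain ⟨ho1, -⟩ := hord' (h n z) hyD (F n z) hxX hxl hd1
  have hyR : ‖h n z‖ ≤ r * ‖a‖ + ‖b‖ + 1 := by
    have h1 : ‖h n z‖ ≤ ‖h n z - (z • a + b)‖ + ‖z • a + b‖ := norm_le_norm_sub_add _ _
    have h2 : ‖z • a + b‖ ≤ ‖z‖ * ‖a‖ + ‖b‖ := by
      rw [← norm_smul]
      exact norm_add_le _ _
    rw [hzr] at h2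
    linarith
  obtain ⟨j, hj⟩ := hlb (h n z) hGd hyR _ hf1 _ hf2 (hdist.trans_le (min_le_right _ _)).le
  rw [dist_comm] at ho1
  set t : ℝ := dist (Φ (h n z)) (pr (F n z)) with ht
  have ht0 : 0 ≤ t := dist_nonneg
  refine ⟨z, hzK, j, ?_⟩
  have hEn : 0 < ‖E n z‖ := norm_pos_iff.2 (hex.2.1 z hzb)
  have hQn : 0 < ‖Q (F n z)‖ := norm_pos_iff.2 hzok.1
  have hLq : Lq Q d (F n z) ≤ Lam Q d p m (F n) (h n) 0 + Real.log ‖E n z‖ + K' := by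
    have h1 : Lam Q d p m (F n) (h n) z = Lq Q d (F n z) + d * Np p m (F n) (h n) z := rfl
    have h2 : (0 : ℝ) ≤ d * Np p m (F n) (h n) z := mul_nonneg (Nat.cast_nonneg d) (le_max_left _ _)
    linarith
  have hE : ‖F n z‖ ^ d / ‖Q (F n z)‖ ≤ ‖E n z‖ * Real.exp (Lam Q d p m (F n) (h n) 0) * Real.exp K' := by
    have h1 := Real.exp_le_exp.2 hLq
    rw [Real.exp_add, Real.exp_add, Real.exp_log hEn, LctC_exp_lq hx0 hzok.1, mul_comm (Real.exp _) ‖E n z‖] at h1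
    exact h1
  have hgg : c₂ ^ μ * t ^ μ ≤ ‖gg (α j) Φ (F n) (h n) z‖ ^ μ := by
    rw [← mul_pow]
    exact pow_le_pow_left₀ (by positivity) hj μ
  have h1 : 1 ≤ C₁ * t ^ μ * (‖F n z‖ ^ d / ‖Q (F n z)‖) := by
    rw [mul_div_assoc', le_div_iff₀ hQn, one_mul]
    refine ho1.trans (le_of_eq ?_)
    ring
  have h2 : 1 ≤ C₁ * t ^ μ * (‖E n z‖ * Real.exp (Lam Q d p m (F n) (h n) 0) * Real.exp K') :=
    h1.trans (mul_le_mul_of_nonneg_left hE (by positivity))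
  rw [div_le_iff₀ (by positivity)]
  calc c₂ ^ μ = c₂ ^ μ * 1 := (mul_one _).symm
    _ ≤ c₂ ^ μ * (C₁ * t ^ μ * (‖E n z‖ * Real.exp (Lam Q d p m (F n) (h n) 0) * Real.exp K')) := mul_le_mul_of_nonneg_left h2 (by positivity)
    _ = (c₂ ^ μ * t ^ μ) * (‖E n z‖ * Real.exp (Lam Q d p m (F n) (h n) 0) * (C₁ * Real.exp K')) := by ring
    _ ≤ ‖gg (α j) Φ (F n) (h n) z‖ ^ μ * (‖E n z‖ * Real.exp (Lam Q d p m (F n) (h n) 0) * (C₁ * Real.exp K')) := mul_le_mul_of_nonneg_right hgg (by positivity)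
    _ = ‖gg (α j) Φ (F n) (h n) z‖ ^ μ * ‖E n z‖ * Real.exp (Lam Q d p m (F n) (h n) 0) * (C₁ * Real.exp K') := by ring

end Pool.Agent.G4
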