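import Pool.Agent.G4.Z.CDefs
import Pool.Agent.G3.A.Wdg
import Pool.Agent.G3.P.Tbd
import Pool.Agent.H56.G3.Lift

/-!
# G4 Z MDa: the maximum principle for the distance of two curves over an arc

Normalised lifts (`H56/G3/Lift.norm_lift`; the hypothesis at the centre is `P/Tbd.tbd`) `F`, `G` on `ball z₀ 2`: the functions `(wg (F z) (G z) p) ^ μ * E z` are holomorphic; on the circle they are at most
`C ^ μ dist ^ μ ‖E‖`; at the centre `‖F z₀‖, ‖G z₀‖ ≥ c`.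
-/

set_option autoImplicit false

open Topology Filter Metric

namespace Pool.Agent.G4

open Pool.Agent.H36.BP (EN fs wd Sub)
open Pool.Agent.H14.PP (IsCone CurveAt Tan)
open Pool.Agent.H62.EF (MN pr)
open Pool.Agent.AD (Vd Chart Charts)
open Pool.Agent.TG (TMap Lat Geo Gd)
open Pool.Agent.G3 (Cv wt PS QD Crs TT tbd)
open Pool.Agent.G3.A (wg wg_dist wg_diff)

variable {N k : ℕ} {X : Set (EN N)} {Λ : AddSubgroup (Vd (k + 1))} {u : EN N → Vd (k + 1)} {D : Set (Vd (k + 1))} {p : EN N → EN N → ℝ} {m : ℕ} {C : ℝ}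

private theorem mda_max (v : EuclideanSpace ℂ (Fin (N + 1) × Fin (N + 1))) : ∃ q, ‖v‖ ≤ ((N : ℝ) + 1) * ‖v q‖ := by
  obtain ⟨q, -, hq⟩ := Finset.exists_max_image (Finset.univ : Finset (Fin (N + 1) × Fin (N + 1))) (fun q => ‖v q‖) ⟨(0, 0), Finset.mem_univ _⟩
  refine ⟨q, ?_⟩
  have h1 : ‖v‖ ^ 2 ≤ (((N : ℝ) + 1) * ‖v q‖) ^ 2 := by
    rw [EuclideanSpace.norm_sq_eq]
    calc ∑ i, ‖v i‖ ^ 2 ≤ ∑ _i : Fin (N + 1) × Fin (N + 1), ‖v q‖ ^ 2 :=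
          Finset.sum_le_sum fun i _ => pow_le_pow_left₀ (norm_nonneg _) (hq i (Finset.mem_univ i)) 2
      _ = (((N : ℝ) + 1) * ‖v q‖) ^ 2 := by
        rw [Finset.sum_const, Finset.card_univ, Fintype.card_prod, Fintype.card_fin, nsmul_eq_mul]
        push_cast
        ring
  exact (pow_le_pow_iff_left₀ (norm_nonneg _) (by positivity) two_ne_zero).1 h1

/-- normalised lifts -/
private theorem mda_lift (hX : IsCone X) (hP : PS X Λ u D p m C) {δ : ℝ} (hδ : 0 < δ) {a : Vd (k + 1)} (ha : a ≠ 0) :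
    ∃ c : ℝ, 0 < c ∧ ∀ (F : ℂ → EN N) (h : ℂ → Vd (k + 1)) (z₀ : ℂ), Cv X Λ u (ball z₀ 7) F h → (∀ w ∈ ball z₀ 7, ‖deriv h w - a‖ ≤ ‖a‖ / 2) → h z₀ ∈ Gd D δ →
      ∃ F' : ℂ → EN N, DifferentiableOn ℂ F' (ball z₀ 2) ∧ (∀ z ∈ ball z₀ 2, F' z ≠ 0 ∧ pr (F' z) = pr (F z) ∧ ‖F' z‖ ≤ 1) ∧ c ≤ ‖F' z₀‖ := by
  have ha0 : 0 < ‖a‖ := norm_pos_iff.mpr ha
  obtain ⟨K₁, hK₁⟩ := tbd hP hδ (η := ‖a‖ / 2) (H := 3 * ‖a‖ / 2) (by positivity) (by positivity) (by norm_num : (0 : ℝ) < 5) (by norm_num : (5 : ℝ) < 6)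
  obtain ⟨K₂, hK₂⟩ := tbd hP hδ (η := ‖a‖ / 2) (H := 3 * ‖a‖ / 2) (by positivity) (by positivity) (by norm_num : (0 : ℝ) < 5 / 2) (by norm_num : (5 / 2 : ℝ) < 6)
  refine ⟨Real.exp (-10 * max K₁ K₂), Real.exp_pos _, fun F h z₀ hcv hd hz₀ => ?_⟩
  have hz₀b : z₀ ∈ ball z₀ 7 := mem_ball_self (by norm_num)
  have hne : ∀ z ∈ ball z₀ 7, F z ≠ 0 := fun z hz => Pool.Agent.TG.ne_zero hX (hcv.mem z hz)
  have hdb : ∀ w ∈ ball z₀ 7, ‖a‖ / 2 ≤ ‖deriv h w‖ ∧ ‖deriv h w‖ ≤ 3 * ‖a‖ / 2 := by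
    intro z hz
    have hdz := hd z hz
    constructor
    · have h1 : ‖a‖ ≤ ‖a - deriv h z‖ + ‖deriv h z‖ := norm_le_norm_sub_add a _
      rw [norm_sub_rev] at h1
      linarith
    · have h1 : ‖deriv h z‖ ≤ ‖deriv h z - a‖ + ‖a‖ := norm_le_norm_sub_add _ a
      linarith
  have hsub : ball z₀ 6 ⊆ ball z₀ 7 := ball_subset_ball (by norm_num)
  have hcv6 : Cv X Λ u (ball z₀ 6) F h := ⟨hcv.F_diff.mono hsub, hcv.h_diff.mono hsub, fun z hz => hcv.mem z (hsub hz), fun z hz => hcv.lift z (hsub hz)⟩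
  have h1 := hK₁ F h z₀ hcv6 (fun w hw => (hdb w (hsub hw)).2) hz₀ (hdb z₀ hz₀b).1
  have h2 := hK₂ F h z₀ hcv6 (fun w hw => (hdb w (hsub hw)).2) hz₀ (hdb z₀ hz₀b).1
  have hG : ∀ z ∈ ({z₀} : Set ℂ), ‖z - z₀‖ ≤ 1 →
      Real.circleAverage (fun w => Real.log ‖F w‖) z 5 ≤ Real.log ‖F z‖ + max K₁ K₂ ∧
      Real.circleAverage (fun w => Real.log ‖F w‖) z (5 / 2) ≤ Real.log ‖F z‖ + max K₁ K₂ := by
    intro z hz _
    rw [Set.mem_singleton_iff] at hz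
    subst hz
    unfold TT at h1 h2
    exact ⟨by linarith [le_max_left K₁ K₂], by linarith [le_max_right K₁ K₂]⟩
  obtain ⟨φ, hφ, hle, hge⟩ := Pool.Agent.H56.G3.norm_lift (z₀ := z₀) (le_refl (7 : ℝ)) hcv.F_diff hne hG
  have hsub2 : ball z₀ 2 ⊆ ball z₀ 7 := ball_subset_ball (by norm_num)
  refine ⟨fun z => Complex.exp (-φ z) • F z, hφ.neg.cexp.smul (hcv.F_diff.mono hsub2), fun z hz => ⟨?_, ?_, hle z hz⟩, ?_⟩
  · exact smul_ne_zero (Complex.exp_ne_zero _) (hne z (hsub2 hz))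
  · exact Pool.Agent.H62.EF.pr_smul _ (Complex.exp_ne_zero _)
  · exact hge z₀ rfl (by rw [sub_self, norm_zero]; exact zero_le_one)

/-- the maximum principle -/
theorem mda (hX : IsCone X) (hP : PS X Λ u D p m C) {δ : ℝ} (hδ : 0 < δ) {a : Vd (k + 1)} (ha : a ≠ 0) (μ : ℕ) :
    ∃ C₀ : ℝ, 0 < C₀ ∧ ∀ (F G : ℂ → EN N) (h : ℂ → Vd (k + 1)) (z₀ : ℂ), Cv X Λ u (ball z₀ 7) F h → Cv X Λ u (ball z₀ 7) G h →
      (∀ w ∈ ball z₀ 7, ‖deriv h w - a‖ ≤ ‖a‖ / 2) → h z₀ ∈ Gd D δ → ∀ r : ℝ, 0 < r → r ≤ 1 → ∀ E : ℂ → ℂ, DifferentiableOn ℂ E (closedBall z₀ r) → ∀ S : ℝ,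
      (∀ z, dist z z₀ = r → dist (pr (F z)) (pr (G z)) ^ μ * ‖E z‖ ≤ S) → dist (pr (F z₀)) (pr (G z₀)) ^ μ * ‖E z₀‖ ≤ C₀ * S := by
  obtain ⟨c, hc, hlift⟩ := mda_lift hX hP hδ ha
  obtain ⟨C₁, hC₁, hw⟩ := wg_dist N
  refine ⟨(C₁ * ((N : ℝ) + 1) / (c * c)) ^ μ * C₁ ^ μ, by positivity, fun F G h z₀ hF hG hd hz₀ r hr hr1 E hE S hS => ?_⟩
  obtain ⟨F', hF', hF1, hFc⟩ := hlift F h z₀ hF hd hz₀
  obtain ⟨G', hG', hG1, hGc⟩ := hlift G h z₀ hG hd hz₀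
  have hsub : closedBall z₀ r ⊆ ball z₀ 2 := fun w hw' => by
    rw [mem_closedBall] at hw'
    rw [mem_ball]
    linarith
  have hz₀2 : z₀ ∈ ball z₀ 2 := mem_ball_self (by norm_num)
  have hv : DifferentiableOn ℂ (fun w => wg (F' w) (G' w)) (ball z₀ 2) := wg_diff hF' hG'
  obtain ⟨q, hq⟩ := mda_max (wg (F' z₀) (G' z₀))
  have hvq : DifferentiableOn ℂ (fun w => wg (F' w) (G' w) q) (ball z₀ 2) := (EuclideanSpace.proj (𝕜 := ℂ) q).differentiable.comp_differentiableOn hv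
  have hφ : DifferentiableOn ℂ (fun w => (wg (F' w) (G' w) q) ^ μ * E w) (closedBall z₀ r) := ((hvq.mono hsub).pow μ).mul hE
  have hcl : DiffContOnCl ℂ (fun w => (wg (F' w) (G' w) q) ^ μ * E w) (ball z₀ r) := by
    refine DifferentiableOn.diffContOnCl ?_
    rw [closure_ball z₀ hr.ne']
    exact hφ
  have hbd : ∀ w ∈ frontier (ball z₀ r), ‖(wg (F' w) (G' w) q) ^ μ * E w‖ ≤ C₁ ^ μ * S := by
    intro w hw'
    rw [frontier_ball z₀ hr.ne', mem_sphere] at hw'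
    have hwb : w ∈ ball z₀ 2 := hsub (mem_closedBall.2 hw'.le)
    obtain ⟨h1, h2, h3⟩ := hF1 w hwb
    obtain ⟨h4, h5, h6⟩ := hG1 w hwb
    have h7 := (hw (F' w) (G' w) h1 h4).1
    have h8 := hS w hw'
    rw [← h2, ← h5] at h8
    have h9 : 0 ≤ dist (pr (F' w)) (pr (G' w)) := dist_nonneg
    have h10 : ‖F' w‖ * ‖G' w‖ ≤ 1 := mul_le_one₀ h3 (norm_nonneg _) h6
    have h11 : ‖wg (F' w) (G' w) q‖ ≤ C₁ * dist (pr (F' w)) (pr (G' w)) := by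
      calc ‖wg (F' w) (G' w) q‖ ≤ ‖wg (F' w) (G' w)‖ := PiLp.norm_apply_le _ q
        _ ≤ C₁ * dist (pr (F' w)) (pr (G' w)) * ‖F' w‖ * ‖G' w‖ := h7
        _ = C₁ * dist (pr (F' w)) (pr (G' w)) * (‖F' w‖ * ‖G' w‖) := by ring
        _ ≤ C₁ * dist (pr (F' w)) (pr (G' w)) * 1 := mul_le_mul_of_nonneg_left h10 (by positivity)
        _ = _ := mul_one _
    rw [norm_mul, norm_pow]
    calc ‖wg (F' w) (G' w) q‖ ^ μ * ‖E w‖ ≤ (C₁ * dist (pr (F' w)) (pr (G' w))) ^ μ * ‖E w‖ :=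
          mul_le_mul_of_nonneg_right (pow_le_pow_left₀ (norm_nonneg _) h11 μ) (norm_nonneg _)
      _ = C₁ ^ μ * (dist (pr (F' w)) (pr (G' w)) ^ μ * ‖E w‖) := by rw [mul_pow]; ring
      _ ≤ C₁ ^ μ * S := mul_le_mul_of_nonneg_left h8 (by positivity)
  have hmax : ‖(wg (F' z₀) (G' z₀) q) ^ μ * E z₀‖ ≤ C₁ ^ μ * S := by
    refine Complex.norm_le_of_forall_mem_frontier_norm_le isBounded_ball hcl hbd ?_
    rw [closure_ball z₀ hr.ne']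
    exact mem_closedBall_self hr.le
  rw [norm_mul, norm_pow] at hmax
  obtain ⟨h1, h2, -⟩ := hF1 z₀ hz₀2
  obtain ⟨h4, h5, -⟩ := hG1 z₀ hz₀2
  have h7 := (hw (F' z₀) (G' z₀) h1 h4).2
  rw [← h2, ← h5]
  have h11 : c * c ≤ ‖F' z₀‖ * ‖G' z₀‖ := mul_le_mul hFc hGc hc.le (norm_nonneg _)
  have h12 : dist (pr (F' z₀)) (pr (G' z₀)) ≤ C₁ * ((N : ℝ) + 1) / (c * c) * ‖wg (F' z₀) (G' z₀) q‖ := by
    rw [div_mul_eq_mul_div, le_div_iff₀ (by positivity)]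
    calc dist (pr (F' z₀)) (pr (G' z₀)) * (c * c) ≤ dist (pr (F' z₀)) (pr (G' z₀)) * (‖F' z₀‖ * ‖G' z₀‖) := mul_le_mul_of_nonneg_left h11 dist_nonneg
      _ = dist (pr (F' z₀)) (pr (G' z₀)) * ‖F' z₀‖ * ‖G' z₀‖ := by ring
      _ ≤ C₁ * ‖wg (F' z₀) (G' z₀)‖ := h7
      _ ≤ C₁ * (((N : ℝ) + 1) * ‖wg (F' z₀) (G' z₀) q‖) := mul_le_mul_of_nonneg_left hq hC₁.le
      _ = _ := by ring
  calc dist (pr (F' z₀)) (pr (G' z₀)) ^ μ * ‖E z₀‖ ≤ (C₁ * ((N : ℝ) + 1) / (c * c) * ‖wg (F' z₀) (G' z₀) q‖) ^ μ * ‖E z₀‖ :=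
        mul_le_mul_of_nonneg_right (pow_le_pow_left₀ dist_nonneg h12 μ) (norm_nonneg _)
    _ = (C₁ * ((N : ℝ) + 1) / (c * c)) ^ μ * (‖wg (F' z₀) (G' z₀) q‖ ^ μ * ‖E z₀‖) := by rw [mul_pow]; ring
    _ ≤ (C₁ * ((N : ℝ) + 1) / (c * c)) ^ μ * (C₁ ^ μ * S) := mul_le_mul_of_nonneg_left hmax (by positivity)
    _ = _ := by ring

end Pool.Agent.G4
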