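import Pool.Agent.G4.Z.LctB
import Pool.Agent.G4.Z.LctC
import Pool.Agent.G4.Z.MDa

/-!
# G4 Z Core: the inequality between two circles

`gv n w`: the vector of the functions `gg (α j) ^ μ E n exp (Lam (0))`.  `core`: if `gv n → Q` at `w'` and uniformly on the circle of radius `r ≤ 1` around `w'`, the point `w' a + b` is in `Gd D δ₂` and the circle
is mapped into `Gd D δ₁`, then `‖Q w'‖ ‖f w'‖ ≤ C₃ sup ‖Q w‖ ‖f w‖` over the circle, for holomorphic `f`; `C₃` depends only on `δ₁`, `δ₂`.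

Proof.  `JBw.ub` at `w'`, `mda` for the distance of the curve and of the section (`sec_arc`), `JBw.lb` on the circle; the weights: `wt W (w a + b) = wt W (w' a + b) + Re (ell) + const ‖w - w'‖ ^ 2` (`wt_line`).
-/

set_option autoImplicit false

open Topology Filter Metric

namespace Pool.Agent.G4

open Pool.Agent.H36.BP (EN fs wd Sub)
open Pool.Agent.H14.PP (IsCone CurveAt Tan)
open Pool.Agent.H62.EF (MN pr)
open Pool.Agent.AD (Vd Chart Charts)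
open Pool.Agent.TG (TMap Lat Geo Gd)

open Pool.Agent.TG (VForm JJ II Cst Fb TransAt)
open Pool.Agent.G3 (Cv wt PS QD Crs Lim Arr gg Lq Lam Np pf Ok)

variable {N k : ℕ} {X : Set (EN N)} {Λ : AddSubgroup (Vd (k + 1))} {u : EN N → Vd (k + 1)} {D B : Set (Vd (k + 1))} {p : EN N → EN N → ℝ} {m d : ℕ} {C : ℝ}
  {Q : EN N → ℂ} {S : Set (Vd (k + 1) → MN N)} {J r : ℕ} {α : Fin J → VForm X Λ u} {W : Fin r → Vd (k + 1) →L[ℂ] ℂ} {𝒰 : Ultrafilter ℕ} {F : ℕ → ℂ → EN N} {h : ℕ → ℂ → Vd (k + 1)}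
  {E : ℕ → ℂ → ℂ} {a b : Vd (k + 1)} {Φ : Vd (k + 1) → MN N}

/-- the linear part of the weight -/
noncomputable def ell (W : Fin r → Vd (k + 1) →L[ℂ] ℂ) (a b : Vd (k + 1)) (z w : ℂ) : ℂ := ∑ i, 2 * ((starRingEnd ℂ) (W i (z • a + b)) * (W i a * (w - z)))

theorem ell_diff (W : Fin r → Vd (k + 1) →L[ℂ] ℂ) (a b : Vd (k + 1)) (z : ℂ) : Differentiable ℂ (ell W a b z) := by
  unfold ell
  fun_prop

theorem ell_self (W : Fin r → Vd (k + 1) →L[ℂ] ℂ) (a b : Vd (k + 1)) (z : ℂ) : ell W a b z z = 0 := by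
  unfold ell
  simp

/-- the weight on a line -/
theorem wt_line (W : Fin r → Vd (k + 1) →L[ℂ] ℂ) (a b : Vd (k + 1)) (z w : ℂ) :
    wt W (w • a + b) = wt W (z • a + b) + (ell W a b z w).re + (∑ i, ‖W i a‖ ^ 2) * ‖w - z‖ ^ 2 := by
  unfold wt ell
  rw [Complex.re_sum, Finset.sum_mul, ← Finset.sum_add_distrib, ← Finset.sum_add_distrib]
  refine Finset.sum_congr rfl fun i _ => ?_
  have h1 : W i (w • a + b) = W i (z • a + b) + W i a * (w - z) := by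
    rw [map_add, map_add, map_smul, map_smul, smul_eq_mul, smul_eq_mul]
    ring
  have h2 : ‖W i a‖ ^ 2 * ‖w - z‖ ^ 2 = ‖W i a * (w - z)‖ ^ 2 := by rw [norm_mul, mul_pow]
  rw [h1, h2]
  generalize W i (z • a + b) = x
  generalize W i a * (w - z) = y
  rw [Complex.sq_norm, Complex.sq_norm, Complex.sq_norm, Complex.normSq_apply, Complex.normSq_apply, Complex.normSq_apply]
  simp only [Complex.add_re, Complex.add_im, Complex.mul_re, Complex.conj_re, Complex.conj_im, Complex.re_ofNat, Complex.im_ofNat, Complex.mul_im]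
  ring

/-- the weight is uniformly continuous on balls -/
theorem wt_unif (W : Fin r → Vd (k + 1) →L[ℂ] ℂ) (R : ℝ) {ε : ℝ} (hε : 0 < ε) :
    ∃ η : ℝ, 0 < η ∧ ∀ y y' : Vd (k + 1), ‖y‖ ≤ R → ‖y'‖ ≤ R → ‖y - y'‖ < η → |wt W y - wt W y'| < ε := by
  have h1 := (isCompact_closedBall (0 : Vd (k + 1)) R).uniformContinuousOn_of_continuous (wt_cont W).continuousOn
  rw [Metric.uniformContinuousOn_iff] at h1
  obtain ⟨η, hη, h2⟩ := h1 ε hε
  refine ⟨η, hη, fun y y' hy hy' hd => ?_⟩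
  have h3 := h2 y (mem_closedBall_zero_iff.2 hy) y' (mem_closedBall_zero_iff.2 hy') (by rwa [dist_eq_norm])
  rwa [Real.dist_eq] at h3

/-- the vector of the functions -/
noncomputable def gv (α : Fin J → VForm X Λ u) (Φ : Vd (k + 1) → MN N) (F : ℕ → ℂ → EN N) (h : ℕ → ℂ → Vd (k + 1)) (E : ℕ → ℂ → ℂ) (Q : EN N → ℂ) (d : ℕ) (p : EN N → EN N → ℝ) (m μ n : ℕ)
    (w : ℂ) : Fin J → ℂ := fun j => gg (α j) Φ (F n) (h n) w ^ μ * E n w * ((Real.exp (Lam Q d p m (F n) (h n) 0) : ℝ) : ℂ)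

theorem gv_norm (μ n : ℕ) (w : ℂ) (j : Fin J) :
    ‖gv α Φ F h E Q d p m μ n w j‖ = ‖gg (α j) Φ (F n) (h n) w‖ ^ μ * ‖E n w‖ * Real.exp (Lam Q d p m (F n) (h n) 0) := by
  unfold gv
  rw [norm_mul, norm_mul, norm_pow, Complex.norm_real, Real.norm_of_nonneg (Real.exp_pos _).le]

private theorem core_near {δ t : ℝ} {y y' : Vd (k + 1)} (hy : y ∈ Gd D (δ + t)) (h : ‖y' - y‖ ≤ t) : y' ∈ Gd D δ := by
  intro b hb
  have h1 := hy b hb
  have h2 : ‖y - b‖ ≤ ‖y' - b‖ + ‖y' - y‖ := by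
    calc ‖y - b‖ = ‖(y' - b) - (y' - y)‖ := by congr 1; abel
      _ ≤ _ := norm_sub_le _ _
  linarith

theorem core (H : Sit X Λ u D B p m C Q d S α W) (hΦ : Φ ∈ S) (A : Arr X Λ u D Q d p m 𝒰 F h E a b Φ) (μ : ℕ) {δ₁ δ₂ : ℝ} (hδ₁ : 0 < δ₁) (hδ₂ : 0 < δ₂) :
    ∃ C₃ : ℝ, 0 < C₃ ∧ ∀ (P : ℂ → Fin J → ℂ) (w' : ℂ) (r : ℝ), 0 < r → r ≤ 1 → w' • a + b ∈ Gd D δ₂ → (∀ w, dist w w' = r → w • a + b ∈ Gd D δ₁) →
      (∀ ε : ℝ, 0 < ε → ∀ᶠ n in (𝒰 : Filter ℕ), ‖gv α Φ F h E Q d p m μ n w' - P w'‖ < ε ∧ ∀ w, dist w w' = r → ‖gv α Φ F h E Q d p m μ n w - P w‖ < ε) →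
      ∀ f : ℂ → ℂ, DifferentiableOn ℂ f (closedBall w' r) → ∀ T : ℝ, (∀ w, dist w w' = r → ‖P w‖ * ‖f w‖ ≤ T) → ‖P w'‖ * ‖f w'‖ ≤ C₃ * T := by
  have ha : 0 < ‖a‖ := norm_pos_iff.2 A.lim.a_ne
  obtain ⟨ε₁, C₁, hε₁, hC₁, hub⟩ := H.jbw.ub (δ₂ / 2) (half_pos hδ₂)
  obtain ⟨ε₂, c₂, hε₂, hc₂, hlb⟩ := H.jbw.lb (δ₁ / 2) (half_pos hδ₁)
  obtain ⟨C₀, hC₀, hmd⟩ := mda H.geo.cone H.ps (half_pos hδ₂) A.lim.a_ne μ
  set κ₀ : ℝ := ∑ i, ‖W i a‖ ^ 2 with hκ₀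
  have hκ₀0 : 0 ≤ κ₀ := Finset.sum_nonneg fun i _ => by positivity
  refine ⟨C₁ ^ μ * C₀ * (c₂⁻¹) ^ μ * Real.exp (μ * κ₀ + 2), by positivity, fun P w' r hr hr1 hw' hcirc hlim f hf T hT => ?_⟩
  -- a bound for `f`
  have hKc : IsCompact (closedBall w' r) := isCompact_closedBall w' r
  obtain ⟨B', hB'⟩ := hKc.exists_bound_of_continuousOn hf.continuousOn
  have hw'm : w' ∈ closedBall w' r := mem_closedBall_self hr.le
  have hB'0 : 0 ≤ B' := (norm_nonneg _).trans (hB' w' hw'm)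
  -- it suffices to prove the inequality with `ε`
  suffices key : ∀ ε : ℝ, 0 < ε → ‖P w'‖ * ‖f w'‖ ≤ C₁ ^ μ * C₀ * (c₂⁻¹) ^ μ * Real.exp (μ * κ₀ + 2) * (T + ε * B') + ε * B' by
    have h1 : Tendsto (fun ε : ℝ => C₁ ^ μ * C₀ * (c₂⁻¹) ^ μ * Real.exp (μ * κ₀ + 2) * (T + ε * B') + ε * B') (𝓝[>] 0)
        (𝓝 (C₁ ^ μ * C₀ * (c₂⁻¹) ^ μ * Real.exp (μ * κ₀ + 2) * (T + 0 * B') + 0 * B')) := by
      refine Tendsto.mono_left ?_ nhdsWithin_le_nhds
      exact Continuous.tendsto (by fun_prop) 0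
    rw [zero_mul, add_zero, add_zero] at h1
    refine ge_of_tendsto h1 ?_
    filter_upwards [self_mem_nhdsWithin] with ε hε
    exact key ε hε
  intro ε hε
  have hKD : ∀ z ∈ insert w' (sphere w' r), z • a + b ∉ D := by
    rintro z (rfl | hz)
    · exact Pool.Agent.TG.gd_notMem hδ₂ hw'
    · exact Pool.Agent.TG.gd_notMem hδ₁ (hcirc z (mem_sphere.1 hz))
  have hKK : IsCompact (insert w' (sphere w' r)) := (isCompact_sphere w' r).insert w'
  set R : ℝ := ‖w'‖ + 9 with hR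
  have hRpos : 0 < R := by positivity
  have hRsub : ∀ z : ℂ, dist z w' ≤ 8 → z ∈ ball (0 : ℂ) (‖w'‖ + 17 / 2) := by
    intro z hz
    rw [mem_ball_zero_iff]
    rw [dist_eq_norm] at hz
    calc ‖z‖ = ‖(z - w') + w'‖ := by rw [sub_add_cancel]
      _ ≤ ‖z - w'‖ + ‖w'‖ := norm_add_le _ _
      _ < ‖w'‖ + 17 / 2 := by linarith
  have hR2 : ball (0 : ℂ) (‖w'‖ + 17 / 2) ⊆ ball (0 : ℂ) R := ball_subset_ball (by linarith)
  -- the weights
  set R' : ℝ := R * ‖a‖ + ‖b‖ + 1 with hR'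
  obtain ⟨η, hη, hηw⟩ := wt_unif W R' (ε := 1 / ((μ : ℝ) + 1)) (by positivity)
  set t : ℝ := min (min (δ₁ / 2) (δ₂ / 2)) (min η 1) with ht
  have htpos : 0 < t := lt_min (lt_min (by positivity) (by positivity)) (lt_min hη one_pos)
  have ht1 : t ≤ δ₁ / 2 := (min_le_left _ _).trans (min_le_left _ _)
  have ht2 : t ≤ δ₂ / 2 := (min_le_left _ _).trans (min_le_right _ _)
  have ht3 : t ≤ η := (min_le_right _ _).trans (min_le_left _ _)
  have ht4 : t ≤ 1 := (min_le_right _ _).trans (min_le_right _ _)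
  obtain ⟨n, hcv, hhlim, hdh, hex, hok, hsec, hlimw, hlimc⟩ := ((A.lim.cv R).and ((A.lim.hlim R t htpos).and ((A.dh R (‖a‖ / 2) (half_pos ha)).and ((A.ex R).and (A.ok.and
    ((lct_sec H.geo.cone H.geo.D_closed H.csf hΦ A.lim hKK hKD (lt_min hε₁ hε₂)).and (hlim ε hε))))))).exists
  -- the section over the arc
  have hisol := lct_isol H.qd hRpos hcv hok.1
  obtain ⟨G, hG, hGe⟩ := sec_arc H.geo.cone H.geo.tor H.geo.lat H.geo.D_closed H.csf hΦ (γ := h n) (r := ‖w'‖ + 17 / 2) (R := R) (by linarith) hcv.h_diff hisol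
  have hb7 : ball w' 7 ⊆ ball (0 : ℂ) (‖w'‖ + 17 / 2) := fun z hz => hRsub z (by rw [mem_ball] at hz; linarith)
  -- the arc is near the line
  have hnorm : ∀ z ∈ ball (0 : ℂ) (‖w'‖ + 17 / 2), ‖z • a + b‖ ≤ R' ∧ ‖h n z‖ ≤ R' := by
    intro z hz
    have hzR := hR2 hz
    have h1 : ‖z • a + b‖ ≤ R * ‖a‖ + ‖b‖ := by
      refine (norm_add_le _ _).trans ?_
      rw [norm_smul]
      have h2 : ‖z‖ ≤ R := (mem_ball_zero_iff.1 hzR).le
      linarith [mul_le_mul_of_nonneg_right h2 ha.le]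
    have h2 := hhlim z (ball_subset_closedBall hzR)
    have h3 : ‖h n z‖ ≤ ‖h n z - (z • a + b)‖ + ‖z • a + b‖ := norm_le_norm_sub_add _ _
    constructor <;> linarith
  have hwt : ∀ z ∈ ball (0 : ℂ) (‖w'‖ + 17 / 2), (μ : ℝ) * |wt W (h n z) - wt W (z • a + b)| ≤ 1 := by
    intro z hz
    have h2 := hhlim z (ball_subset_closedBall (hR2 hz))
    have h3 := hηw _ _ (hnorm z hz).2 (hnorm z hz).1 (h2.trans_le ht3)
    have h4 : (μ : ℝ) * |wt W (h n z) - wt W (z • a + b)| ≤ μ * (1 / ((μ : ℝ) + 1)) := mul_le_mul_of_nonneg_left h3.le (Nat.cast_nonneg μ)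
    refine h4.trans ?_
    rw [mul_one_div, div_le_one (by positivity)]
    linarith
  have hwb : w' ∈ ball (0 : ℂ) (‖w'‖ + 17 / 2) := hRsub w' (by rw [dist_self]; norm_num)
  have hcb : ∀ w, dist w w' = r → w ∈ ball (0 : ℂ) (‖w'‖ + 17 / 2) := fun w hw => hRsub w (by rw [hw]; linarith)
  have hGd₂ : h n w' ∈ Gd D (δ₂ / 2) := by
    refine core_near (t := δ₂ / 2) (by rw [add_halves]; exact hw') ?_
    exact (hhlim w' (ball_subset_closedBall (hR2 hwb))).le.trans ht2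
  have hGd₁ : ∀ w, dist w w' = r → h n w ∈ Gd D (δ₁ / 2) := by
    intro w hw
    refine core_near (t := δ₁ / 2) (by rw [add_halves]; exact hcirc w hw) ?_
    exact (hhlim w (ball_subset_closedBall (hR2 (hcb w hw)))).le.trans ht1
  set L : ℝ := Lam Q d p m (F n) (h n) 0 with hL
  set w₀ : ℝ := wt W (w' • a + b) with hw₀
  -- the point `w'`
  obtain ⟨hD', hf1, hf2, hdist⟩ := hsec w' (Set.mem_insert _ _)
  set t' : ℝ := dist (Φ (h n w')) (pr (F n w')) with ht'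
  have ht'0 : 0 ≤ t' := dist_nonneg
  have hEp : 0 ≤ ‖E n w'‖ := norm_nonneg _
  have hup : ‖gv α Φ F h E Q d p m μ n w'‖ ≤ C₁ ^ μ * Real.exp (-(μ * w₀) + 1) * t' ^ μ * ‖E n w'‖ * Real.exp L := by
    rw [pi_norm_le_iff_of_nonneg (by positivity)]
    intro j
    rw [gv_norm]
    refine mul_le_mul_of_nonneg_right (mul_le_mul_of_nonneg_right ?_ hEp) (Real.exp_pos _).le
    have h1 := hub j (h n w') hGd₂ _ hf1 _ hf2 (hdist.trans_le (min_le_left _ _)).le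
    have h2 : ‖gg (α j) Φ (F n) (h n) w'‖ ^ μ ≤ (C₁ * Real.exp (-wt W (h n w')) * t') ^ μ := pow_le_pow_left₀ (norm_nonneg _) h1 μ
    refine h2.trans ?_
    rw [mul_pow, mul_pow]
    refine mul_le_mul_of_nonneg_right (mul_le_mul_of_nonneg_left ?_ (by positivity)) (by positivity)
    rw [← Real.exp_nat_mul]
    refine Real.exp_le_exp.2 ?_
    have h3 := hwt w' hwb
    have h4 : (μ : ℝ) * (wt W (w' • a + b) - wt W (h n w')) ≤ μ * |wt W (h n w') - wt W (w' • a + b)| := by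
      refine mul_le_mul_of_nonneg_left ?_ (Nat.cast_nonneg μ)
      rw [abs_sub_comm]
      exact le_abs_self _
    rw [← hw₀] at h4
    linarith
  -- the circle
  set Et : ℂ → ℂ := fun w => E n w * f w * Complex.exp (-((μ : ℂ) * ell W a b w' w)) with hEt
  have hsubE : closedBall w' r ⊆ ball (0 : ℂ) R := fun z hz => hR2 (hRsub z (by rw [mem_closedBall] at hz; linarith))
  have hEtd : DifferentiableOn ℂ Et (closedBall w' r) := by
    refine ((hex.1.mono hsubE).mul hf).mul ?_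
    exact (((ell_diff W a b w').const_mul (μ : ℂ)).neg.cexp).differentiableOn
  have hEtn : ∀ w, ‖Et w‖ = ‖E n w‖ * ‖f w‖ * Real.exp (-(μ * (ell W a b w' w).re)) := by
    intro w
    rw [hEt]
    simp only
    rw [norm_mul, norm_mul, Complex.norm_exp]
    congr 2
    rw [Complex.neg_re, Complex.mul_re, Complex.natCast_re, Complex.natCast_im, zero_mul, sub_zero]
  set S' : ℝ := (c₂⁻¹) ^ μ * Real.exp (μ * w₀ + μ * κ₀ + 1) * Real.exp (-L) * (T + ε * B') with hS'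
  have hcircle : ∀ w, dist w w' = r → dist (pr (F n w)) (pr (G w)) ^ μ * ‖Et w‖ ≤ S' := by
    intro w hw
    have hwm : w ∈ insert w' (sphere w' r) := Set.mem_insert_of_mem _ (mem_sphere.2 hw)
    obtain ⟨hDw, hg1, hg2, hdw⟩ := hsec w hwm
    rw [hGe w (hcb w hw) hDw, dist_comm]
    obtain ⟨j, hj⟩ := hlb (h n w) (hGd₁ w hw) _ hg1 _ hg2 (hdw.trans_le (min_le_right _ _)).le
    set s : ℝ := dist (Φ (h n w)) (pr (F n w)) with hs
    have hs0 : 0 ≤ s := dist_nonneg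
    have h1 : (c₂ * Real.exp (-wt W (h n w)) * s) ^ μ ≤ ‖gg (α j) Φ (F n) (h n) w‖ ^ μ := pow_le_pow_left₀ (by positivity) hj μ
    have h2 : ‖gg (α j) Φ (F n) (h n) w‖ ^ μ * ‖E n w‖ * Real.exp L ≤ ‖gv α Φ F h E Q d p m μ n w‖ := by
      rw [← gv_norm]
      exact norm_le_pi_norm _ j
    have h3 : ‖gv α Φ F h E Q d p m μ n w‖ * ‖f w‖ ≤ T + ε * B' := by
      have h4 : ‖gv α Φ F h E Q d p m μ n w‖ ≤ ‖P w‖ + ε := by
        have h5 := norm_le_norm_sub_add (gv α Φ F h E Q d p m μ n w) (P w)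
        linarith [hlimc w hw]
      have h5 : ‖f w‖ ≤ B' := hB' w (mem_closedBall.2 hw.le)
      calc ‖gv α Φ F h E Q d p m μ n w‖ * ‖f w‖ ≤ (‖P w‖ + ε) * ‖f w‖ := mul_le_mul_of_nonneg_right h4 (norm_nonneg _)
        _ = ‖P w‖ * ‖f w‖ + ε * ‖f w‖ := by ring
        _ ≤ T + ε * B' := add_le_add (hT w hw) (mul_le_mul_of_nonneg_left h5 hε.le)
    rw [hEtn]
    -- the weights
    have h4 : (μ : ℝ) * wt W (h n w) - μ * (ell W a b w' w).re ≤ μ * w₀ + μ * κ₀ + 1 := by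
      have h5 := hwt w (hcb w hw)
      have h6 : (μ : ℝ) * (wt W (h n w) - wt W (w • a + b)) ≤ μ * |wt W (h n w) - wt W (w • a + b)| :=
        mul_le_mul_of_nonneg_left (le_abs_self _) (Nat.cast_nonneg μ)
      have h7 := wt_line W a b w' w
      rw [← hκ₀, ← dist_eq_norm, hw, ← hw₀] at h7
      have h8 : κ₀ * r ^ 2 ≤ κ₀ := by
        have h9 : r ^ 2 ≤ 1 := by nlinarith
        nlinarith
      have h9 : (μ : ℝ) * (κ₀ * r ^ 2) ≤ μ * κ₀ := mul_le_mul_of_nonneg_left h8 (Nat.cast_nonneg μ)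
      rw [h7] at h6 h5
      linarith
    have h5 : s ^ μ = (c₂⁻¹) ^ μ * Real.exp (μ * wt W (h n w)) * (c₂ * Real.exp (-wt W (h n w)) * s) ^ μ := by
      rw [mul_pow, mul_pow, ← Real.exp_nat_mul, inv_pow]
      have e1 : Real.exp ((μ : ℝ) * wt W (h n w)) * Real.exp ((μ : ℝ) * -wt W (h n w)) = 1 := by
        rw [← Real.exp_add, mul_neg, add_neg_cancel, Real.exp_zero]
      have e2 : (c₂ ^ μ)⁻¹ * c₂ ^ μ = 1 := inv_mul_cancel₀ (pow_ne_zero _ hc₂.ne')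
      calc s ^ μ = ((c₂ ^ μ)⁻¹ * c₂ ^ μ) * (Real.exp ((μ : ℝ) * wt W (h n w)) * Real.exp ((μ : ℝ) * -wt W (h n w))) * s ^ μ := by rw [e1, e2]; ring
        _ = _ := by ring
    have h6 : Real.exp L * Real.exp (-L) = 1 := by rw [← Real.exp_add, add_neg_cancel, Real.exp_zero]
    calc s ^ μ * (‖E n w‖ * ‖f w‖ * Real.exp (-(μ * (ell W a b w' w).re)))
        = (c₂⁻¹) ^ μ * (Real.exp (μ * wt W (h n w)) * Real.exp (-(μ * (ell W a b w' w).re))) * ((c₂ * Real.exp (-wt W (h n w)) * s) ^ μ * ‖E n w‖ * ‖f w‖) := by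
          conv_lhs => rw [h5]
          ring
      _ ≤ (c₂⁻¹) ^ μ * Real.exp (μ * w₀ + μ * κ₀ + 1) * (‖gg (α j) Φ (F n) (h n) w‖ ^ μ * ‖E n w‖ * ‖f w‖) := by
          refine mul_le_mul (mul_le_mul_of_nonneg_left ?_ (by positivity)) ?_ (by positivity) (by positivity)
          · rw [← Real.exp_add]
            exact Real.exp_le_exp.2 (by linarith)
          · exact mul_le_mul_of_nonneg_right (mul_le_mul_of_nonneg_right h1 (norm_nonneg _)) (norm_nonneg _)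
      _ = (c₂⁻¹) ^ μ * Real.exp (μ * w₀ + μ * κ₀ + 1) * Real.exp (-L) * ((‖gg (α j) Φ (F n) (h n) w‖ ^ μ * ‖E n w‖ * Real.exp L) * ‖f w‖) := by
          calc _ = (c₂⁻¹) ^ μ * Real.exp (μ * w₀ + μ * κ₀ + 1) * (‖gg (α j) Φ (F n) (h n) w‖ ^ μ * ‖E n w‖ * ‖f w‖) * (Real.exp L * Real.exp (-L)) := by rw [h6, mul_one]
            _ = _ := by ring
      _ ≤ (c₂⁻¹) ^ μ * Real.exp (μ * w₀ + μ * κ₀ + 1) * Real.exp (-L) * (T + ε * B') := by
          refine mul_le_mul_of_nonneg_left ?_ (by positivity)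
          exact (mul_le_mul_of_nonneg_right h2 (norm_nonneg _)).trans h3
  have hcv7 : Cv X Λ u (ball w' 7) (F n) (h n) := hcv.mono (hb7.trans hR2)
  have hG7 : Cv X Λ u (ball w' 7) G (h n) := hG.mono hb7
  have hmain := hmd (F n) G (h n) w' hcv7 hG7 (fun w hw => hdh w (hR2 (hb7 hw))) hGd₂ r hr hr1 Et hEtd S' hcircle
  rw [hGe w' hwb hD', dist_comm, ← ht', hEtn, ell_self, Complex.zero_re, mul_zero, neg_zero, Real.exp_zero, mul_one] at hmain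
  have h1 : ‖P w'‖ ≤ ‖gv α Φ F h E Q d p m μ n w'‖ + ε := by
    have h5 := norm_le_norm_sub_add (P w') (gv α Φ F h E Q d p m μ n w')
    rw [norm_sub_rev] at h5
    linarith
  have h2 : ‖f w'‖ ≤ B' := hB' w' hw'm
  calc ‖P w'‖ * ‖f w'‖ ≤ (‖gv α Φ F h E Q d p m μ n w'‖ + ε) * ‖f w'‖ := mul_le_mul_of_nonneg_right h1 (norm_nonneg _)
    _ = ‖gv α Φ F h E Q d p m μ n w'‖ * ‖f w'‖ + ε * ‖f w'‖ := by ring
    _ ≤ (C₁ ^ μ * Real.exp (-(μ * w₀) + 1) * t' ^ μ * ‖E n w'‖ * Real.exp L) * ‖f w'‖ + ε * B' :=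
        add_le_add (mul_le_mul_of_nonneg_right hup (norm_nonneg _)) (mul_le_mul_of_nonneg_left h2 hε.le)
    _ = C₁ ^ μ * Real.exp (-(μ * w₀) + 1) * Real.exp L * (t' ^ μ * (‖E n w'‖ * ‖f w'‖)) + ε * B' := by ring
    _ ≤ C₁ ^ μ * Real.exp (-(μ * w₀) + 1) * Real.exp L * (C₀ * S') + ε * B' := by
        refine add_le_add (mul_le_mul_of_nonneg_left hmain (by positivity)) le_rfl
    _ = C₁ ^ μ * C₀ * (c₂⁻¹) ^ μ * Real.exp (μ * κ₀ + 2) * (T + ε * B') + ε * B' := by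
        have e1 : Real.exp (-(μ * w₀) + 1) * Real.exp L * (Real.exp (μ * w₀ + μ * κ₀ + 1) * Real.exp (-L)) = Real.exp (μ * κ₀ + 2) := by
          rw [← Real.exp_add, ← Real.exp_add, ← Real.exp_add]
          congr 1
          ring
        rw [hS', ← e1]
        ring

end Pool.Agent.G4
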