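import Pool.Agent.G4.Z.CDefs
import Pool.Agent.G3.Z.Dens
import Pool.Agent.TG.Cp
import Pool.Agent.TG.Nr
import Pool.Agent.TG.IsoA
import Pool.Agent.TG.Cn
import Pool.Agent.TN.Osg

/-!
# G4 Z LocA: the order of `Q` along a section

For `y ∉ D` the section `Φ` passes through a point at which `u` is a submersion.  `OG j y`: for every curve `γ` in `X` over `y` with `pr (γ 0) = Φ y` one has `Q (γ t) = O(t^j)`.
This definition does not use charts; in a straight chart `χ` with `Φ y = pr (χ.σ q)`, `ms c ρ q = y`, it means `Q (χ.σ (q + t e₀)) = O(t^j)` (`og_iff`).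

`ordQ`: there are `μ ≥ 1` and a set `Z` with the following properties: (i) at every `y₀ ∉ D`: in a straight chart near `Φ y₀` the function `Q ∘ χ.σ` is `(p₀ - φ (tl p))^μ * b p` near the point, `φ` the first
coordinate of the section, `b` analytic, and for `y` near `y₀`: `y ∈ Z ↔ b (point of the section over y) = 0`; (ii) `Z` is `Λ`-invariant up to a finite index; (iii) every line meets `D ∪ Z` in a countable set.

Proof.  `local_data`: near `y₀ ∉ D` the section is `cons (φ y) (ρ⁻¹ (y - y₀))` in a straight chart, and `K p = Q (χ.σ (cons (φ (ms y₀ ρ p) + p 0) (tl p)))` is analytic on a ball; `OG j (y₀ + ρ v)` means `K (cons t v) = O(t^j)`.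
`ord_finite`: if `OG j y` held for all `j`, `y ∉ D` then `K = 0` and `Q = 0` near a point of `X`.  `μ + 1` is the smallest `j` such that `OG j y` is false for some `y ∉ D`, `Z = {y ∉ D | OG (μ + 1) y}`.
`div_pow`, `div_iff`: `K = (p 0)^μ b`, `b (cons 0 v) = 0` iff `K (cons t v) = O(t^(μ + 1))`.  `period`: the finite set `S` gives a common period `M = |S|!`.
The last part of (iii): `lines_count` of `G4/Simp`.
-/

set_option autoImplicit false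

open Topology Filter Metric

namespace Pool.Agent.G4

open Pool.Agent.H36.BP (EN fs wd Sub)
open Pool.Agent.H14.PP (IsCone CurveAt Tan)
open Pool.Agent.H62.EF (MN pr)
open Pool.Agent.AD (Vd Chart Charts)
open Pool.Agent.TG (TMap Lat Geo Gd)

open Pool.Agent.TG (VForm JJ Fb TransAt)
open Pool.Agent.G3 (Cv wt PS QD Crs)

variable {N k : ℕ}

/-- in a straight chart near the section `Φ` the form `Q` is `(p₀ - φ)^μ b`, and `Z` is the set of the zeros of `b` on the section -/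
def OrdAt (X : Set (EN N)) (Λ : AddSubgroup (Vd (k + 1))) (u : EN N → Vd (k + 1)) (Q : EN N → ℂ) (Φ : Vd (k + 1) → MN N) (μ : ℕ) (Z : Set (Vd (k + 1))) (y₀ : Vd (k + 1)) : Prop :=
  ∃ (χ : Chart (k + 2) X) (c : Vd (k + 1)) (ρ : ℝ) (q₀ : Vd (k + 2)) (φ : Vd (k + 1) → ℂ) (b : Vd (k + 2) → ℂ), Pool.Agent.TG.Str Λ u χ c ρ ∧ q₀ ∈ ball (0 : Vd (k + 2)) 2 ∧
    Pool.Agent.TG.ms c ρ q₀ = y₀ ∧ AnalyticAt ℂ φ y₀ ∧ φ y₀ = q₀ 0 ∧ AnalyticAt ℂ b q₀ ∧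
    (∀ᶠ y in 𝓝 y₀, Φ y = pr (χ.σ (Fin.cons (α := fun _ => ℂ) (φ y) ((ρ : ℂ)⁻¹ • (y - c))))) ∧
    (∀ᶠ q in 𝓝 q₀, Q (χ.σ q) = (q 0 - φ (Pool.Agent.TG.ms c ρ q)) ^ μ * b q) ∧
    ∀ᶠ y in 𝓝 y₀, (y ∈ Z ↔ b (Fin.cons (α := fun _ => ℂ) (φ y) ((ρ : ℂ)⁻¹ • (y - c))) = 0)

/-- the order of `Q` at `Φ y` along the fibre over `y` is at least `j` -/
private def OG (X : Set (EN N)) (Λ : AddSubgroup (Vd (k + 1))) (u : EN N → Vd (k + 1)) (Q : EN N → ℂ) (Φ : Vd (k + 1) → MN N) (j : ℕ) (y : Vd (k + 1)) : Prop :=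
  ∀ γ : ℂ → EN N, AnalyticAt ℂ γ 0 → (∀ᶠ t in 𝓝 (0 : ℂ), γ t ∈ X ∧ u (γ t) - y ∈ Λ) → pr (γ 0) = Φ y →
    (fun t => Q (γ t)) =O[𝓝 (0 : ℂ)] (fun t : ℂ => t ^ j)

private theorem disc_zero {Λ : AddSubgroup (Vd (k + 1))} (hΛ : Lat Λ) {T : Type*} [TopologicalSpace T] {f : T → Vd (k + 1)} {x₀ : T}
    (hf : ContinuousAt f x₀) (h0 : f x₀ = 0) (h : ∀ᶠ x in 𝓝 x₀, f x ∈ Λ) : ∀ᶠ x in 𝓝 x₀, f x = 0 := by
  obtain ⟨δ, hδ, hd⟩ := hΛ.disc
  have h1 : ∀ᶠ x in 𝓝 x₀, ‖f x‖ < δ := by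
    refine hf.norm.eventually_lt_const ?_
    simp only [h0, norm_zero]
    exact hδ
  filter_upwards [h, h1] with x hx hx'
  exact hd _ hx hx'

private theorem ms_mem {X : Set (EN N)} {Λ : AddSubgroup (Vd (k + 1))} {u : EN N → Vd (k + 1)} (hu : TMap X Λ u) {χ : Chart (k + 2) X} {c : Vd (k + 1)} {ρ : ℝ}
    (hm : Pool.Agent.TG.Str Λ u χ c ρ) {x : EN N} (hx : x ∈ X) (hU : x ∈ χ.U) {y : Vd (k + 1)} (h : u x - y ∈ Λ) :
    Pool.Agent.TG.ms c ρ (χ.q x) - y ∈ Λ := by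
  obtain ⟨hb, a, ha, e⟩ := χ.surj x hx hU
  have h1 : u x - u (χ.σ (χ.q x)) ∈ Λ := by
    have h3 := hu.smul _ (χ.σ_mem _ hb).1 a ha
    rw [← e] at h3
    exact h3
  have h2 := hm.lift _ hb
  have h3 := Λ.sub_mem (Λ.sub_mem h h1) h2
  convert h3 using 1
  abel

private theorem eq_cons {c y : Vd (k + 1)} {ρ : ℝ} (hρ : 0 < ρ) {q : Vd (k + 2)} (h : Pool.Agent.TG.ms c ρ q = y) :
    q = Fin.cons (α := fun _ => ℂ) (q 0) ((ρ : ℂ)⁻¹ • (y - c)) := by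
  have hρ' : (ρ : ℂ) ≠ 0 := by exact_mod_cast hρ.ne'
  have h1 : (ρ : ℂ)⁻¹ • (y - c) = Pool.Agent.TG.tl q := by
    rw [← h]
    unfold Pool.Agent.TG.ms
    rw [add_sub_cancel_left, smul_smul, inv_mul_cancel₀ hρ', one_smul]
  rw [h1]
  funext i
  refine Fin.cases ?_ (fun j => ?_) i
  · rfl
  · rfl

private theorem og_iff {X : Set (EN N)} {Λ : AddSubgroup (Vd (k + 1))} {u : EN N → Vd (k + 1)} {Q : EN N → ℂ} {Φ : Vd (k + 1) → MN N} {d : ℕ}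
    (hX : IsCone X) (hu : TMap X Λ u) (hΛ : Lat Λ) (hQh : ∀ (c : ℂ) (x : EN N), Q (c • x) = c ^ d * Q x)
    {χ : Chart (k + 2) X} {c : Vd (k + 1)} {ρ : ℝ} (hm : Pool.Agent.TG.Str Λ u χ c ρ) {q : Vd (k + 2)} (hq : q ∈ ball (0 : Vd (k + 2)) 2)
    {y : Vd (k + 1)} (hy : Pool.Agent.TG.ms c ρ q = y) (hΦ : pr (χ.σ q) = Φ y) (j : ℕ) :
    OG X Λ u Q Φ j y ↔ (fun t : ℂ => Q (χ.σ (q + t • (Pi.single 0 1 : Vd (k + 2))))) =O[𝓝 (0 : ℂ)] (fun t : ℂ => t ^ j) := by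
  have hline : ∀ t : ℂ, Pool.Agent.TG.ms c ρ (q + t • (Pi.single 0 1 : Vd (k + 2))) = y := by
    intro t
    rw [← hy]
    unfold Pool.Agent.TG.ms
    congr 2
    rw [Pool.Agent.TG.tl_add, Pool.Agent.TG.tl_smul]
    have : Pool.Agent.TG.tl (Pi.single 0 1 : Vd (k + 2)) = 0 := by
      funext i
      unfold Pool.Agent.TG.tl
      rw [Pi.single_apply, if_neg (Fin.succ_ne_zero i)]
      rfl
    rw [this, smul_zero, add_zero]
  have e0 : q + (0 : ℂ) • (Pi.single 0 1 : Vd (k + 2)) = q := by rw [zero_smul, add_zero]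
  have hla : AnalyticAt ℂ (fun t : ℂ => q + t • (Pi.single 0 1 : Vd (k + 2))) 0 := by fun_prop
  constructor
  · intro h
    refine h (fun t => χ.σ (q + t • (Pi.single 0 1 : Vd (k + 2)))) ?_ ?_ ?_
    · refine AnalyticAt.fun_comp (g := χ.σ) (f := fun t : ℂ => q + t • (Pi.single 0 1 : Vd (k + 2))) ?_ hla
      simp only [e0]
      exact χ.σ_an q hq
    · have h1 : ∀ᶠ t in 𝓝 (0 : ℂ), q + t • (Pi.single 0 1 : Vd (k + 2)) ∈ ball (0 : Vd (k + 2)) 2 := by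
        refine hla.continuousAt.eventually_mem ?_
        simp only [e0]
        exact isOpen_ball.mem_nhds hq
      filter_upwards [h1] with t ht
      refine ⟨(χ.σ_mem _ ht).1, ?_⟩
      have h2 := hm.lift _ ht
      rwa [hline] at h2
    · simp only [e0]
      exact hΦ
  · intro h γ hγ hγX hγ0
    have hx0 := (hγX.self_of_nhds).1
    have hσX := (χ.σ_mem q hq)
    obtain ⟨a, ha, hae⟩ := (Pool.Agent.H62.EF.pr_eq_iff (Pool.Agent.TG.ne_zero hX hx0) (Pool.Agent.TG.ne_zero hX hσX.1)).1 (hγ0.trans hΦ.symm)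
    have hU0 : γ 0 ∈ χ.U := by
      rw [hae]
      exact χ.smul_U _ hσX.2.1 _ ha
    have hq0 : χ.q (γ 0) = q := by
      rw [hae, χ.q_smul _ hσX.2.1 _ ha, hσX.2.2]
    have hqa : AnalyticAt ℂ (fun t => χ.q (γ t)) 0 := AnalyticAt.fun_comp (g := χ.q) (f := γ) (χ.q_an _ hU0) hγ
    have hU : ∀ᶠ t in 𝓝 (0 : ℂ), γ t ∈ χ.U := hγ.continuousAt.eventually_mem (χ.isOpen_U.mem_nhds hU0)
    have hms : ∀ᶠ t in 𝓝 (0 : ℂ), Pool.Agent.TG.ms c ρ (χ.q (γ t)) - y = 0 := by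
      refine disc_zero hΛ ?_ ?_ ?_
      · have h1 : ContinuousAt (Pool.Agent.TG.ms c ρ) (χ.q (γ 0)) := (Pool.Agent.TG.ms_an c ρ _).continuousAt
        exact (ContinuousAt.comp (g := Pool.Agent.TG.ms c ρ) (f := fun t => χ.q (γ t)) h1 hqa.continuousAt).sub continuousAt_const
      · rw [hq0, hy, sub_self]
      · filter_upwards [hU, hγX] with t h1 h2
        exact ms_mem hu hm h2.1 h1 h2.2
    -- the parameter
    set s : ℂ → ℂ := fun t => χ.q (γ t) 0 - q 0 with hs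
    have hsa : DifferentiableAt ℂ s 0 := by
      have h1 := differentiableAt_pi.1 hqa.differentiableAt 0
      exact h1.sub_const _
    have hs0 : s 0 = 0 := by
      simp only [hs]
      rw [hq0, sub_self]
    have hqs : ∀ᶠ t in 𝓝 (0 : ℂ), χ.q (γ t) = q + s t • (Pi.single 0 1 : Vd (k + 2)) := by
      filter_upwards [hms] with t ht
      have h1 := eq_cons hm.pos (sub_eq_zero.1 ht)
      have h2 := eq_cons hm.pos hy
      funext i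
      refine Fin.cases ?_ (fun i => ?_) i
      · simp [hs]
      · have h3 := congrFun h1 i.succ
        have h4 := congrFun h2 i.succ
        simp only [Fin.cons_succ] at h3 h4
        rw [h3]
        simp only [Pi.add_apply, Pi.smul_apply, Pi.single_apply, if_neg (Fin.succ_ne_zero i), smul_zero, add_zero]
        exact h4.symm
    have hsO : s =O[𝓝 (0 : ℂ)] (fun t : ℂ => t) := by
      have h1 := hsa.hasFDerivAt.isBigO_sub
      simpa [hs0] using h1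
    have hst : Tendsto s (𝓝 0) (𝓝 0) := by
      have h1 := hsa.continuousAt.tendsto
      rwa [hs0] at h1
    have h1 := (h.comp_tendsto hst)
    have h2 : ((fun t : ℂ => t ^ j) ∘ s) =O[𝓝 (0 : ℂ)] (fun t : ℂ => t ^ j) := by
      exact hsO.pow j
    have h3 := h1.trans h2
    -- the factor
    have hf : ∀ᶠ t in 𝓝 (0 : ℂ), ‖Q (γ t)‖ ≤ ((‖γ 0‖ + 1) / (‖χ.σ q‖ / 2)) ^ d * ‖Q (χ.σ (q + s t • (Pi.single 0 1 : Vd (k + 2))))‖ := by
      have hσ0 : 0 < ‖χ.σ q‖ := norm_pos_iff.2 (Pool.Agent.TG.ne_zero hX hσX.1)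
      have g1 : ∀ᶠ t in 𝓝 (0 : ℂ), ‖γ t‖ < ‖γ 0‖ + 1 := hγ.continuousAt.norm.eventually_lt_const (by linarith)
      have g2 : ∀ᶠ t in 𝓝 (0 : ℂ), ‖χ.σ q‖ / 2 < ‖χ.σ (χ.q (γ t))‖ := by
        have h4 : ContinuousAt χ.σ (χ.q (γ 0)) := by
          rw [hq0]
          exact (χ.σ_an q hq).continuousAt
        have h5 : ContinuousAt (fun t => χ.σ (χ.q (γ t))) 0 := ContinuousAt.comp (g := χ.σ) (f := fun t => χ.q (γ t)) h4 hqa.continuousAt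
        refine h5.norm.eventually_const_lt ?_
        simp only [hq0]
        linarith
      filter_upwards [hqs, hU, hγX, g1, g2] with t e1 e2 e3 e4 e5
      obtain ⟨hb, b, hb0, hbe⟩ := χ.surj _ e3.1 e2
      have e6 : ‖γ t‖ = ‖b‖ * ‖χ.σ (χ.q (γ t))‖ := by
        conv_lhs => rw [hbe]
        rw [norm_smul]
      have e7 : ‖b‖ ≤ (‖γ 0‖ + 1) / (‖χ.σ q‖ / 2) := by
        rw [le_div_iff₀ (by positivity)]
        calc ‖b‖ * (‖χ.σ q‖ / 2) ≤ ‖b‖ * ‖χ.σ (χ.q (γ t))‖ := mul_le_mul_of_nonneg_left e5.le (norm_nonneg _)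
          _ = ‖γ t‖ := e6.symm
          _ ≤ _ := e4.le
      have e8 : Q (γ t) = b ^ d * Q (χ.σ (χ.q (γ t))) := by
        conv_lhs => rw [hbe]
        rw [hQh]
      rw [e8, norm_mul, norm_pow, ← e1]
      exact mul_le_mul_of_nonneg_right (pow_le_pow_left₀ (norm_nonneg _) e7 d) (norm_nonneg _)
    have h4 : (fun t => Q (γ t)) =O[𝓝 (0 : ℂ)] ((fun t : ℂ => Q (χ.σ (q + t • (Pi.single 0 1 : Vd (k + 2))))) ∘ s) :=
      Asymptotics.IsBigO.of_bound _ hf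
    exact h4.trans h3

private theorem O_zero {g : ℂ → ℂ} (hg : ContinuousAt g 0) {μ : ℕ} (h : (fun t : ℂ => t ^ μ * g t) =O[𝓝 (0 : ℂ)] (fun t : ℂ => t ^ (μ + 1))) : g 0 = 0 := by
  obtain ⟨C, hC⟩ := h.bound
  have h1 : ∀ᶠ t in 𝓝[≠] (0 : ℂ), ‖g t‖ ≤ C * ‖t‖ := by
    have h2 : ∀ᶠ t in 𝓝[≠] (0 : ℂ), t ≠ 0 := eventually_mem_nhdsWithin
    filter_upwards [hC.filter_mono nhdsWithin_le_nhds, h2] with t ht h0
    have h3 : 0 < ‖t‖ ^ μ := pow_pos (norm_pos_iff.2 h0) μ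
    rw [norm_mul, norm_pow, norm_pow, pow_succ] at ht
    refine le_of_mul_le_mul_left ?_ h3
    linarith
  have h2 : Tendsto (fun t => ‖g t‖) (𝓝[≠] (0 : ℂ)) (𝓝 ‖g 0‖) := hg.norm.tendsto.mono_left nhdsWithin_le_nhds
  have h3 : Tendsto (fun t : ℂ => C * ‖t‖) (𝓝[≠] (0 : ℂ)) (𝓝 0) := by
    have h4 : Continuous fun t : ℂ => C * ‖t‖ := by fun_prop
    have h5 := (h4.tendsto 0).mono_left (nhdsWithin_le_nhds (s := {(0 : ℂ)}ᶜ))
    simpa using h5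
  have h4 := le_of_tendsto_of_tendsto h2 h3 h1
  exact norm_le_zero_iff.1 h4

private theorem O_of {g : ℂ → ℂ} (hg : DifferentiableAt ℂ g 0) (h0 : g 0 = 0) (μ : ℕ) : (fun t : ℂ => t ^ μ * g t) =O[𝓝 (0 : ℂ)] (fun t : ℂ => t ^ (μ + 1)) := by
  have h1 : g =O[𝓝 (0 : ℂ)] (fun t : ℂ => t) := by
    have h2 := hg.hasFDerivAt.isBigO_sub
    simpa [h0] using h2
  exact (Asymptotics.isBigO_refl (fun t : ℂ => t ^ μ) (𝓝 (0 : ℂ))).mul h1

private theorem flat {g : ℂ → ℂ} (hg : AnalyticAt ℂ g 0) (h : ∀ j : ℕ, g =O[𝓝 (0 : ℂ)] (fun t : ℂ => t ^ j)) : ∀ᶠ t in 𝓝 (0 : ℂ), g t = 0 := by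
  rw [← analyticOrderAt_eq_top]
  by_contra hne
  obtain ⟨n, hn⟩ := ENat.ne_top_iff_exists.1 hne
  obtain ⟨f, hf, hf0, hfg⟩ := (hg.analyticOrderAt_eq_natCast (n := n)).1 hn.symm
  refine hf0 (O_zero (μ := n) hf.continuousAt ?_)
  refine Asymptotics.IsBigO.congr' (h (n + 1)) ?_ (EventuallyEq.refl _ _)
  filter_upwards [hfg] with t ht
  rw [ht, sub_zero, smul_eq_mul]

private theorem cons_mem {m : ℕ} {R : ℝ} {t : ℂ} {v : Vd m} (ht : ‖t‖ < R) (hv : ‖v‖ < R) : (Fin.cons (α := fun _ => ℂ) t v : Vd (m + 1)) ∈ ball (0 : Vd (m + 1)) R := by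
  have hR : 0 < R := (norm_nonneg _).trans_lt ht
  rw [mem_ball_zero_iff, pi_norm_lt_iff hR]
  intro i
  refine Fin.cases ?_ (fun j => ?_) i
  · simpa using ht
  · simpa using (norm_le_pi_norm v j).trans_lt hv

private theorem cons_line {m : ℕ} (t : ℂ) (v : Vd m) : (Fin.cons (α := fun _ => ℂ) t v : Vd (m + 1)) = (Fin.cons (α := fun _ => ℂ) 0 v : Vd (m + 1)) + t • (Pi.single 0 1 : Vd (m + 1)) := by
  funext i
  refine Fin.cases ?_ (fun j => ?_) i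
  · simp
  · simp

private theorem cons_diff {m : ℕ} (v : Vd m) (t : ℂ) : AnalyticAt ℂ (fun t : ℂ => (Fin.cons (α := fun _ => ℂ) t v : Vd (m + 1))) t := by
  have h : (fun t : ℂ => (Fin.cons (α := fun _ => ℂ) t v : Vd (m + 1))) = fun t : ℂ => (Fin.cons (α := fun _ => ℂ) 0 v : Vd (m + 1)) + t • (Pi.single 0 1 : Vd (m + 1)) := by
    funext t
    exact cons_line t v
  rw [h]
  fun_prop

private theorem cons_an {m : ℕ} {E : Type*} [NormedAddCommGroup E] [NormedSpace ℂ E] {f : E → ℂ} {g : E → Vd m} {x : E} (hf : AnalyticAt ℂ f x) (hg : AnalyticAt ℂ g x) :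
    AnalyticAt ℂ (fun x => (Fin.cons (α := fun _ => ℂ) (f x) (g x) : Vd (m + 1))) x := by
  rw [analyticAt_pi_iff]
  intro i
  refine Fin.cases ?_ (fun j => ?_) i
  · simpa using hf
  · simpa using (analyticAt_pi_iff.1 hg) j

private theorem div_pow {m : ℕ} {R : ℝ} {K : Vd (m + 1) → ℂ} (hK : ∀ p ∈ ball (0 : Vd (m + 1)) R, AnalyticAt ℂ K p) (μ : ℕ)
    (h : ∀ v : Vd m, ‖v‖ < R → (fun t : ℂ => K (Fin.cons (α := fun _ => ℂ) t v)) =O[𝓝 (0 : ℂ)] (fun t : ℂ => t ^ μ)) :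
    ∃ b : Vd (m + 1) → ℂ, (∀ p ∈ ball (0 : Vd (m + 1)) R, AnalyticAt ℂ b p) ∧ ∀ p ∈ ball (0 : Vd (m + 1)) R, K p = p 0 ^ μ * b p := by
  induction μ with
  | zero => exact ⟨K, hK, fun p _ => by rw [pow_zero, one_mul]⟩
  | succ μ ih =>
    have hle : (fun t : ℂ => t ^ (μ + 1)) =O[𝓝 (0 : ℂ)] (fun t : ℂ => t ^ μ) := by
      have h1 : (fun t : ℂ => t) =O[𝓝 (0 : ℂ)] (fun _ : ℂ => (1 : ℂ)) := continuousAt_id.isBigO_one ℂ
      have h2 := (Asymptotics.isBigO_refl (fun t : ℂ => t ^ μ) (𝓝 (0 : ℂ))).mul h1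
      simpa [pow_succ] using h2
    obtain ⟨b, hb, hKb⟩ := ih fun v hv => (h v hv).trans hle
    have h0 : ∀ p ∈ ball (0 : Vd (m + 1)) R, p 0 = 0 → b p = 0 := by
      intro p hp hp0
      have hpR : ‖p‖ < R := by simpa using hp
      have hR : 0 < R := (norm_nonneg _).trans_lt hpR
      set v : Vd m := fun i => p i.succ with hv
      have hvR : ‖v‖ < R := by
        rw [pi_norm_lt_iff hR]
        intro i
        exact (norm_le_pi_norm p i.succ).trans_lt hpR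
      have hpv : p = Fin.cons (α := fun _ => ℂ) 0 v := by
        funext i
        refine Fin.cases ?_ (fun j => ?_) i
        · simpa using hp0
        · rfl
      have hcont : ContinuousAt (fun t : ℂ => b (Fin.cons (α := fun _ => ℂ) t v)) 0 := by
        refine ContinuousAt.comp (g := b) (f := fun t : ℂ => (Fin.cons (α := fun _ => ℂ) t v : Vd (m + 1))) ?_ (cons_diff v 0).continuousAt
        rw [← hpv]
        exact (hb p hp).continuousAt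
      have h1 := O_zero (μ := μ) hcont ?_
      · rw [hpv]
        exact h1
      · refine Asymptotics.IsBigO.congr' (h v hvR) ?_ (EventuallyEq.refl _ _)
        have h2 : ∀ᶠ t in 𝓝 (0 : ℂ), ‖t‖ < R := by
          have h3 := ball_mem_nhds (0 : ℂ) hR
          filter_upwards [h3] with t ht
          simpa using ht
        filter_upwards [h2] with t ht
        have h3 := hKb _ (cons_mem ht hvR)
        simpa using h3
    obtain ⟨H, hH, hbH⟩ := Pool.Agent.TG.exists_div_zero hb h0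
    refine ⟨H, hH, fun p hp => ?_⟩
    rw [hKb p hp, hbH p hp]
    ring

private theorem div_iff {m : ℕ} {R : ℝ} {K b : Vd (m + 1) → ℂ} {μ : ℕ} (hb : ∀ p ∈ ball (0 : Vd (m + 1)) R, AnalyticAt ℂ b p)
    (hKb : ∀ p ∈ ball (0 : Vd (m + 1)) R, K p = p 0 ^ μ * b p) {v : Vd m} (hv : ‖v‖ < R) :
    (fun t : ℂ => K (Fin.cons (α := fun _ => ℂ) t v)) =O[𝓝 (0 : ℂ)] (fun t : ℂ => t ^ (μ + 1)) ↔ b (Fin.cons (α := fun _ => ℂ) 0 v) = 0 := by
  have hR : 0 < R := (norm_nonneg _).trans_lt hv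
  have h0 : (Fin.cons (α := fun _ => ℂ) 0 v : Vd (m + 1)) ∈ ball (0 : Vd (m + 1)) R := cons_mem (by simpa using hR) hv
  have han : AnalyticAt ℂ (fun t : ℂ => b (Fin.cons (α := fun _ => ℂ) t v)) 0 :=
    AnalyticAt.fun_comp (g := b) (f := fun t : ℂ => (Fin.cons (α := fun _ => ℂ) t v : Vd (m + 1))) (hb _ h0) (cons_diff v 0)
  have h2 : ∀ᶠ t in 𝓝 (0 : ℂ), K (Fin.cons (α := fun _ => ℂ) t v) = t ^ μ * b (Fin.cons (α := fun _ => ℂ) t v) := by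
    have h3 := ball_mem_nhds (0 : ℂ) hR
    filter_upwards [h3] with t ht
    have h4 := hKb _ (cons_mem (by simpa using ht) hv)
    simpa using h4
  constructor
  · intro h
    exact O_zero (μ := μ) han.continuousAt (Asymptotics.IsBigO.congr' h h2 (EventuallyEq.refl _ _))
  · intro h
    exact Asymptotics.IsBigO.congr' (O_of han.differentiableAt h μ) (h2.mono fun t ht => ht.symm) (EventuallyEq.refl _ _)

private theorem an_of_diff {Q : EN N → ℂ} (hQ : Differentiable ℂ Q) (x : EN N) : AnalyticAt ℂ Q x := by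
  set e : EN N ≃L[ℂ] (Fin (N + 1) → ℂ) := EuclideanSpace.equiv (Fin (N + 1)) ℂ with he
  have hf : Differentiable ℂ fun y : Fin (N + 1) → ℂ => Q (e.symm y) := hQ.comp e.symm.differentiable
  have h1 : AnalyticAt ℂ (fun y : Fin (N + 1) → ℂ => Q (e.symm y)) (e x) := by
    have h2 : ∀ᶠ y in 𝓝 (e x), ‖Q (e.symm y)‖ < ‖Q (e.symm (e x))‖ + 1 := (hf.continuous.norm.continuousAt).eventually_lt_const (by linarith)
    obtain ⟨r, hr, hb⟩ := Metric.eventually_nhds_iff_ball.1 h2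
    refine Pool.Agent.TN.osgood_pi hr (M := ‖Q (e.symm (e x))‖ + 1) (fun y hy => (hb y hy).le) fun y _ l => ?_
    have h3 : Differentiable ℂ fun t : ℂ => y + t • (Pi.single l 1 : Fin (N + 1) → ℂ) := by fun_prop
    exact (hf.comp h3) 0
  have h2 : AnalyticAt ℂ (fun x : EN N => Q (e.symm (e x))) x := AnalyticAt.fun_comp (g := fun y : Fin (N + 1) → ℂ => Q (e.symm y)) (f := fun x : EN N => e x) h1 (e.toContinuousLinearMap.analyticAt x)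
  simpa using h2

private theorem ms_cons (c : Vd (k + 1)) {ρ : ℝ} (t : ℂ) (v : Vd (k + 1)) :
    Pool.Agent.TG.ms c ρ (Fin.cons (α := fun _ => ℂ) t v) = c + (ρ : ℂ) • v := rfl

private theorem local_data {X : Set (EN N)} {Λ : AddSubgroup (Vd (k + 1))} {u : EN N → Vd (k + 1)} {D B : Set (Vd (k + 1))} {Q : EN N → ℂ} {d : ℕ} {S : Set (Vd (k + 1) → MN N)}
    (G : Geo X Λ u D B) (hS : Csf X Λ u D S) (hQ : QD X Λ u D Q d) {Φ : Vd (k + 1) → MN N} (hΦ : Φ ∈ S) {y₀ : Vd (k + 1)} (hy₀ : y₀ ∉ D) :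
    ∃ (χ : Chart (k + 2) X) (ρ : ℝ) (q₀ : Vd (k + 2)) (φ : Vd (k + 1) → ℂ) (R : ℝ), 0 < R ∧ Pool.Agent.TG.Str Λ u χ y₀ ρ ∧ q₀ ∈ ball (0 : Vd (k + 2)) 2 ∧
      Pool.Agent.TG.ms y₀ ρ q₀ = y₀ ∧ AnalyticAt ℂ φ y₀ ∧ φ y₀ = q₀ 0 ∧
      (∀ᶠ y in 𝓝 y₀, Φ y = pr (χ.σ (Fin.cons (α := fun _ => ℂ) (φ y) ((ρ : ℂ)⁻¹ • (y - y₀))))) ∧
      (∀ p ∈ ball (0 : Vd (k + 2)) R, AnalyticAt ℂ (fun p : Vd (k + 2) => Q (χ.σ (Fin.cons (α := fun _ => ℂ) (φ (Pool.Agent.TG.ms y₀ ρ p) + p 0) (Pool.Agent.TG.tl p)))) p) ∧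
      (∀ v : Vd (k + 1), ‖v‖ < R → y₀ + (ρ : ℂ) • v ∉ D ∧ ∀ j : ℕ, (OG X Λ u Q Φ j (y₀ + (ρ : ℂ) • v) ↔
        (fun t : ℂ => Q (χ.σ (Fin.cons (α := fun _ => ℂ) (φ (y₀ + (ρ : ℂ) • v) + t) v))) =O[𝓝 (0 : ℂ)] (fun t : ℂ => t ^ j))) := by
  obtain ⟨φ', hφ', hev⟩ := hS.hol Φ hΦ y₀ hy₀
  have hx₀ := hev.self_of_nhds
  obtain ⟨hx₀X, hx₀Φ, hx₀u⟩ := hx₀
  obtain ⟨χ, ρ, r, hr, hcap⟩ := Pool.Agent.TG.exists_cap_at G hy₀ (m₀ := pr (φ' y₀)) ⟨φ' y₀, hx₀X, rfl, hx₀u⟩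
  obtain ⟨hU, hq, hms⟩ := hcap.cap y₀ (mem_closedBall_self hr.le) (φ' y₀) hx₀X hx₀u (by rw [dist_self]; exact hr.le)
  have hρ := hcap.str.pos
  have hρ' : (ρ : ℂ) ≠ 0 := by exact_mod_cast hρ.ne'
  have hq2 : χ.q (φ' y₀) ∈ ball (0 : Vd (k + 2)) 2 := closedBall_subset_ball (by norm_num) hq
  have hqa : AnalyticAt ℂ (fun y => χ.q (φ' y)) y₀ := AnalyticAt.fun_comp (g := χ.q) (f := φ') (χ.q_an _ hU) hφ'
  have hUe : ∀ᶠ y in 𝓝 y₀, φ' y ∈ χ.U := hφ'.continuousAt.eventually_mem (χ.isOpen_U.mem_nhds hU)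
  have hmse : ∀ᶠ y in 𝓝 y₀, Pool.Agent.TG.ms y₀ ρ (χ.q (φ' y)) - y = 0 := by
    refine disc_zero G.lat ?_ ?_ ?_
    · have h1 : ContinuousAt (Pool.Agent.TG.ms y₀ ρ) (χ.q (φ' y₀)) := (Pool.Agent.TG.ms_an y₀ ρ _).continuousAt
      exact (ContinuousAt.comp (g := Pool.Agent.TG.ms y₀ ρ) (f := fun y => χ.q (φ' y)) h1 hqa.continuousAt).sub continuousAt_id
    · rw [hms, sub_self]
    · filter_upwards [hUe, hev] with y h1 h2
      exact ms_mem G.tor hcap.str h2.1 h1 h2.2.2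
  set φ : Vd (k + 1) → ℂ := fun y => χ.q (φ' y) 0 with hφ
  have hφa : AnalyticAt ℂ φ y₀ := (analyticAt_pi_iff.1 hqa) 0
  have hcons : ∀ᶠ y in 𝓝 y₀, χ.q (φ' y) = Fin.cons (α := fun _ => ℂ) (φ y) ((ρ : ℂ)⁻¹ • (y - y₀)) := by
    filter_upwards [hmse] with y hy
    exact eq_cons hρ (sub_eq_zero.1 hy)
  have hqe : ∀ᶠ y in 𝓝 y₀, χ.q (φ' y) ∈ ball (0 : Vd (k + 2)) 2 := hqa.continuousAt.eventually_mem (isOpen_ball.mem_nhds hq2)
  have hpr : ∀ᶠ y in 𝓝 y₀, Φ y = pr (χ.σ (χ.q (φ' y))) := by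
    filter_upwards [hev, hUe] with y h1 h2
    rw [Pool.Agent.TG.pr_sigma_q χ h1.1 h2, h1.2.1]
  have hDe : ∀ᶠ y in 𝓝 y₀, y ∉ D := G.D_closed.isOpen_compl.mem_nhds hy₀
  -- the point `0`
  have hms0 : Pool.Agent.TG.ms y₀ ρ (0 : Vd (k + 2)) = y₀ := by
    unfold Pool.Agent.TG.ms
    have : Pool.Agent.TG.tl (0 : Vd (k + 2)) = 0 := rfl
    rw [this, smul_zero, add_zero]
  have hcons0 : (Fin.cons (α := fun _ => ℂ) (φ (Pool.Agent.TG.ms y₀ ρ (0 : Vd (k + 2))) + (0 : Vd (k + 2)) 0) (Pool.Agent.TG.tl (0 : Vd (k + 2))) : Vd (k + 2)) = χ.q (φ' y₀) := by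
    have h1 := hcons.self_of_nhds
    rw [h1, hms0, sub_self, smul_zero]
    have : Pool.Agent.TG.tl (0 : Vd (k + 2)) = 0 := rfl
    rw [this]
    simp
  have hKa : AnalyticAt ℂ (fun p : Vd (k + 2) => Q (χ.σ (Fin.cons (α := fun _ => ℂ) (φ (Pool.Agent.TG.ms y₀ ρ p) + p 0) (Pool.Agent.TG.tl p)))) 0 := by
    have h1 : AnalyticAt ℂ (fun p : Vd (k + 2) => φ (Pool.Agent.TG.ms y₀ ρ p)) 0 := by
      refine AnalyticAt.fun_comp (g := φ) (f := Pool.Agent.TG.ms y₀ ρ) ?_ (Pool.Agent.TG.ms_an y₀ ρ 0)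
      rw [hms0]
      exact hφa
    have h2 : AnalyticAt ℂ (fun p : Vd (k + 2) => p 0) 0 := (ContinuousLinearMap.proj (R := ℂ) (φ := fun _ : Fin (k + 2) => ℂ) 0).analyticAt 0
    have h3 : AnalyticAt ℂ (fun p : Vd (k + 2) => Pool.Agent.TG.tl p) 0 := Pool.Agent.TG.tlL.analyticAt 0
    have h4 := cons_an (h1.add h2) h3
    have h5 : AnalyticAt ℂ χ.σ ((fun p : Vd (k + 2) => (Fin.cons (α := fun _ => ℂ) (φ (Pool.Agent.TG.ms y₀ ρ p) + p 0) (Pool.Agent.TG.tl p) : Vd (k + 2))) 0) := by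
      simp only [hcons0]
      exact χ.σ_an _ hq2
    have h6 := AnalyticAt.fun_comp (g := χ.σ) (f := fun p : Vd (k + 2) => (Fin.cons (α := fun _ => ℂ) (φ (Pool.Agent.TG.ms y₀ ρ p) + p 0) (Pool.Agent.TG.tl p) : Vd (k + 2))) h5 h4
    exact AnalyticAt.fun_comp (g := Q) (an_of_diff hQ.diff _) h6
  obtain ⟨R₁, hR₁, hball₁⟩ := Metric.eventually_nhds_iff_ball.1 hKa.eventually_analyticAt
  obtain ⟨R₂, hR₂, hball₂⟩ := Metric.eventually_nhds_iff_ball.1 ((hcons.and hqe).and (hpr.and hDe))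
  have hR : 0 < min R₁ (R₂ / ρ) := lt_min hR₁ (div_pos hR₂ hρ)
  refine ⟨χ, ρ, χ.q (φ' y₀), φ, min R₁ (R₂ / ρ), hR, hcap.str, hq2, hms, hφa, rfl, ?_, ?_, ?_⟩
  · filter_upwards [hpr, hcons] with y h1 h2
    rw [h1, h2]
  · intro p hp
    exact hball₁ p (ball_subset_ball (min_le_left _ _) hp)
  · intro v hv
    have hvy : y₀ + (ρ : ℂ) • v ∈ ball y₀ R₂ := by
      rw [mem_ball, dist_eq_norm, add_sub_cancel_left, norm_smul, Complex.norm_real, Real.norm_of_nonneg hρ.le]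
      have h1 := hv.trans_le (min_le_right _ _)
      rw [lt_div_iff₀ hρ] at h1
      linarith
    obtain ⟨⟨h1, h2⟩, h3, h4⟩ := hball₂ _ hvy
    refine ⟨h4, fun j => ?_⟩
    have hv' : (ρ : ℂ)⁻¹ • (y₀ + (ρ : ℂ) • v - y₀) = v := by
      rw [add_sub_cancel_left, smul_smul, inv_mul_cancel₀ hρ', one_smul]
    rw [hv'] at h1
    rw [h1] at h2
    rw [og_iff G.cone G.tor G.lat hQ.hom hcap.str h2 (ms_cons y₀ (φ (y₀ + (ρ : ℂ) • v)) v) (by rw [← h1]; exact h3.symm) j]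
    have hfun : (fun t : ℂ => Q (χ.σ (Fin.cons (α := fun _ => ℂ) (φ (y₀ + (ρ : ℂ) • v)) v + t • (Pi.single 0 1 : Vd (k + 2))))) =
        (fun t : ℂ => Q (χ.σ (Fin.cons (α := fun _ => ℂ) (φ (y₀ + (ρ : ℂ) • v) + t) v))) := by
      funext t
      congr 2
      funext i
      refine Fin.cases ?_ (fun j => ?_) i
      · simp
      · simp
    rw [hfun]

/-- the orders are finite -/
private theorem ord_finite {X : Set (EN N)} {Λ : AddSubgroup (Vd (k + 1))} {u : EN N → Vd (k + 1)} {D B : Set (Vd (k + 1))} {Q : EN N → ℂ} {d : ℕ} {S : Set (Vd (k + 1) → MN N)}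
    (G : Geo X Λ u D B) (hS : Csf X Λ u D S) (hQ : QD X Λ u D Q d) (hQ0 : ∀ x ∈ X, ∃ᶠ x' in 𝓝 x, x' ∈ X ∧ Q x' ≠ 0) {Φ : Vd (k + 1) → MN N} (hΦ : Φ ∈ S) :
    ∃ j : ℕ, ∃ y ∉ D, ¬ OG X Λ u Q Φ j y := by
  by_contra hcon
  push Not at hcon
  obtain ⟨y₀, hy₀⟩ : ∃ y₀, y₀ ∉ D := by
    have h1 := Pool.Agent.TG.compl_dense G.D_thin
    obtain ⟨y, hy⟩ := h1.nonempty
    exact ⟨y, hy⟩
  obtain ⟨χ, ρ, q₀, φ, R, hR, hstr, hq₀, hms, hφa, hφ0, -, hKa, hv⟩ := local_data G hS hQ hΦ hy₀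
  set K : Vd (k + 2) → ℂ := fun p => Q (χ.σ (Fin.cons (α := fun _ => ℂ) (φ (Pool.Agent.TG.ms y₀ ρ p) + p 0) (Pool.Agent.TG.tl p))) with hK
  have hKcons : ∀ (t : ℂ) (v : Vd (k + 1)), K (Fin.cons (α := fun _ => ℂ) t v) = Q (χ.σ (Fin.cons (α := fun _ => ℂ) (φ (y₀ + (ρ : ℂ) • v) + t) v)) := fun t v => rfl
  have hK0 : ∀ p ∈ ball (0 : Vd (k + 2)) R, K p = 0 := by
    intro p hp
    have hpR : ‖p‖ < R := by simpa using hp
    set v : Vd (k + 1) := Pool.Agent.TG.tl p with hvd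
    have hvR : ‖v‖ < R := by
      rw [pi_norm_lt_iff hR]
      intro i
      exact (norm_le_pi_norm p i.succ).trans_lt hpR
    have hpv : p = Fin.cons (α := fun _ => ℂ) (p 0) v := by
      funext i
      refine Fin.cases ?_ (fun j => ?_) i
      · rfl
      · rfl
    obtain ⟨hvD, hvO⟩ := hv v hvR
    have hg : AnalyticOnNhd ℂ (fun t : ℂ => K (Fin.cons (α := fun _ => ℂ) t v)) (ball (0 : ℂ) R) := by
      intro t ht
      refine AnalyticAt.fun_comp (g := K) (f := fun t : ℂ => (Fin.cons (α := fun _ => ℂ) t v : Vd (k + 2))) (hKa _ (cons_mem (by simpa using ht) hvR)) (cons_diff v t)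
    have hflat : ∀ᶠ t in 𝓝 (0 : ℂ), K (Fin.cons (α := fun _ => ℂ) t v) = 0 := by
      refine flat (hg 0 (mem_ball_self hR)) fun j => ?_
      exact (hvO j).1 (hcon j _ hvD)
    have h1 := AnalyticOnNhd.eqOn_zero_of_preconnected_of_eventuallyEq_zero hg (convex_ball (0 : ℂ) R).isPreconnected (mem_ball_self hR) hflat
    have h2 := h1 (show p 0 ∈ ball (0 : ℂ) R by
      rw [mem_ball_zero_iff]
      exact (norm_le_pi_norm p 0).trans_lt hpR)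
    simp only at h2
    rw [hpv]
    exact h2
  -- `Q ∘ χ.σ = 0` near `q₀`
  have hcont : ContinuousAt (fun q : Vd (k + 2) => (Fin.cons (α := fun _ => ℂ) (q 0 - φ (Pool.Agent.TG.ms y₀ ρ q)) (Pool.Agent.TG.tl q) : Vd (k + 2))) q₀ := by
    have h1 : AnalyticAt ℂ (fun p : Vd (k + 2) => φ (Pool.Agent.TG.ms y₀ ρ p)) q₀ := by
      refine AnalyticAt.fun_comp (g := φ) (f := Pool.Agent.TG.ms y₀ ρ) ?_ (Pool.Agent.TG.ms_an y₀ ρ q₀)
      rw [hms]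
      exact hφa
    have h2 : AnalyticAt ℂ (fun p : Vd (k + 2) => p 0) q₀ := (ContinuousLinearMap.proj (R := ℂ) (φ := fun _ : Fin (k + 2) => ℂ) 0).analyticAt q₀
    have h3 : AnalyticAt ℂ (fun p : Vd (k + 2) => Pool.Agent.TG.tl p) q₀ := Pool.Agent.TG.tlL.analyticAt q₀
    exact (cons_an (h2.sub h1) h3).continuousAt
  have htl : Pool.Agent.TG.tl q₀ = 0 := by
    have h1 : (ρ : ℂ) • Pool.Agent.TG.tl q₀ = 0 := by
      have h2 := hms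
      unfold Pool.Agent.TG.ms at h2
      exact left_eq_add.1 h2.symm
    have hρ' : (ρ : ℂ) ≠ 0 := by exact_mod_cast hstr.pos.ne'
    exact (smul_eq_zero.1 h1).resolve_left hρ'
  have h00 : (Fin.cons (α := fun _ => ℂ) (q₀ 0 - φ (Pool.Agent.TG.ms y₀ ρ q₀)) (Pool.Agent.TG.tl q₀) : Vd (k + 2)) = 0 := by
    rw [hms, hφ0, sub_self, htl]
    funext i
    refine Fin.cases ?_ (fun j => ?_) i
    · rfl
    · rfl
  have hnear : ∀ᶠ q in 𝓝 q₀, Q (χ.σ q) = 0 := by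
    have h1 := hcont.eventually_mem (by
      simp only [h00]
      exact ball_mem_nhds (0 : Vd (k + 2)) hR)
    filter_upwards [h1] with q hq
    have h2 := hK0 _ hq
    have h3 : (Fin.cons (α := fun _ => ℂ) (φ (Pool.Agent.TG.ms y₀ ρ (Fin.cons (α := fun _ => ℂ) (q 0 - φ (Pool.Agent.TG.ms y₀ ρ q)) (Pool.Agent.TG.tl q))) +
        (Fin.cons (α := fun _ => ℂ) (q 0 - φ (Pool.Agent.TG.ms y₀ ρ q)) (Pool.Agent.TG.tl q) : Vd (k + 2)) 0)
        (Pool.Agent.TG.tl (Fin.cons (α := fun _ => ℂ) (q 0 - φ (Pool.Agent.TG.ms y₀ ρ q)) (Pool.Agent.TG.tl q))) : Vd (k + 2)) = q := by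
      funext i
      refine Fin.cases ?_ (fun j => ?_) i
      · show φ (Pool.Agent.TG.ms y₀ ρ q) + (q 0 - φ (Pool.Agent.TG.ms y₀ ρ q)) = q 0
        ring
      · rfl
    simp only [hK] at h2
    rw [h3] at h2
    exact h2
  obtain ⟨hσX, hσU, hσq⟩ := χ.σ_mem q₀ hq₀
  have hfr := hQ0 _ hσX
  refine hfr ?_
  have h1 : ∀ᶠ x in 𝓝 (χ.σ q₀), x ∈ χ.U := χ.isOpen_U.mem_nhds hσU
  have h2 : ∀ᶠ x in 𝓝 (χ.σ q₀), Q (χ.σ (χ.q x)) = 0 := by
    have h3 : Tendsto χ.q (𝓝 (χ.σ q₀)) (𝓝 q₀) := by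
      have h4 := (χ.q_an _ hσU).continuousAt.tendsto
      rwa [hσq] at h4
    exact h3.eventually hnear
  filter_upwards [h1, h2] with x hx1 hx2
  rintro ⟨hxX, hxQ⟩
  obtain ⟨-, b, -, hbe⟩ := χ.surj x hxX hx1
  apply hxQ
  rw [hbe, hQ.hom, hx2, mul_zero]

/-- the factorization -/
private theorem ordAt_of {X : Set (EN N)} {Λ : AddSubgroup (Vd (k + 1))} {u : EN N → Vd (k + 1)} {D B : Set (Vd (k + 1))} {Q : EN N → ℂ} {d : ℕ} {S : Set (Vd (k + 1) → MN N)}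
    (G : Geo X Λ u D B) (hS : Csf X Λ u D S) (hQ : QD X Λ u D Q d) {Φ : Vd (k + 1) → MN N} (hΦ : Φ ∈ S) {μ : ℕ} (hμ : ∀ y ∉ D, OG X Λ u Q Φ μ y)
    {y₀ : Vd (k + 1)} (hy₀ : y₀ ∉ D) : OrdAt X Λ u Q Φ μ {y | y ∉ D ∧ OG X Λ u Q Φ (μ + 1) y} y₀ := by
  obtain ⟨χ, ρ, q₀, φ, R, hR, hstr, hq₀, hms, hφa, hφ0, hpr, hKa, hv⟩ := local_data G hS hQ hΦ hy₀
  set K : Vd (k + 2) → ℂ := fun p => Q (χ.σ (Fin.cons (α := fun _ => ℂ) (φ (Pool.Agent.TG.ms y₀ ρ p) + p 0) (Pool.Agent.TG.tl p))) with hK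
  have hKcons : ∀ (t : ℂ) (v : Vd (k + 1)), K (Fin.cons (α := fun _ => ℂ) t v) = Q (χ.σ (Fin.cons (α := fun _ => ℂ) (φ (y₀ + (ρ : ℂ) • v) + t) v)) := fun t v => rfl
  obtain ⟨b, hb, hKb⟩ := div_pow hKa μ (fun v hvR => ((hv v hvR).2 μ).1 (hμ _ (hv v hvR).1))
  have hρ' : (ρ : ℂ) ≠ 0 := by exact_mod_cast hstr.pos.ne'
  have hsh : AnalyticAt ℂ (fun q : Vd (k + 2) => (Fin.cons (α := fun _ => ℂ) (q 0 - φ (Pool.Agent.TG.ms y₀ ρ q)) (Pool.Agent.TG.tl q) : Vd (k + 2))) q₀ := by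
    have h1 : AnalyticAt ℂ (fun p : Vd (k + 2) => φ (Pool.Agent.TG.ms y₀ ρ p)) q₀ := by
      refine AnalyticAt.fun_comp (g := φ) (f := Pool.Agent.TG.ms y₀ ρ) ?_ (Pool.Agent.TG.ms_an y₀ ρ q₀)
      rw [hms]
      exact hφa
    have h2 : AnalyticAt ℂ (fun p : Vd (k + 2) => p 0) q₀ := (ContinuousLinearMap.proj (R := ℂ) (φ := fun _ : Fin (k + 2) => ℂ) 0).analyticAt q₀
    have h3 : AnalyticAt ℂ (fun p : Vd (k + 2) => Pool.Agent.TG.tl p) q₀ := Pool.Agent.TG.tlL.analyticAt q₀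
    exact cons_an (h2.sub h1) h3
  have htl : Pool.Agent.TG.tl q₀ = 0 := by
    have h1 : (ρ : ℂ) • Pool.Agent.TG.tl q₀ = 0 := by
      have h2 := hms
      unfold Pool.Agent.TG.ms at h2
      exact left_eq_add.1 h2.symm
    exact (smul_eq_zero.1 h1).resolve_left hρ'
  have h00 : (Fin.cons (α := fun _ => ℂ) (q₀ 0 - φ (Pool.Agent.TG.ms y₀ ρ q₀)) (Pool.Agent.TG.tl q₀) : Vd (k + 2)) = 0 := by
    rw [hms, hφ0, sub_self, htl]
    funext i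
    refine Fin.cases ?_ (fun j => ?_) i
    · rfl
    · rfl
  refine ⟨χ, y₀, ρ, q₀, φ, fun q => b (Fin.cons (α := fun _ => ℂ) (q 0 - φ (Pool.Agent.TG.ms y₀ ρ q)) (Pool.Agent.TG.tl q)), hstr, hq₀, hms, hφa, hφ0, ?_, hpr, ?_, ?_⟩
  · refine AnalyticAt.fun_comp (g := b) (f := fun q : Vd (k + 2) => (Fin.cons (α := fun _ => ℂ) (q 0 - φ (Pool.Agent.TG.ms y₀ ρ q)) (Pool.Agent.TG.tl q) : Vd (k + 2))) ?_ hsh
    simp only [h00]
    exact hb 0 (mem_ball_self hR)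
  · have h1 := hsh.continuousAt.eventually_mem (by
      simp only [h00]
      exact ball_mem_nhds (0 : Vd (k + 2)) hR)
    filter_upwards [h1] with q hq
    have h2 := hKb _ hq
    have h3 : (Fin.cons (α := fun _ => ℂ) (φ (Pool.Agent.TG.ms y₀ ρ (Fin.cons (α := fun _ => ℂ) (q 0 - φ (Pool.Agent.TG.ms y₀ ρ q)) (Pool.Agent.TG.tl q))) +
        (Fin.cons (α := fun _ => ℂ) (q 0 - φ (Pool.Agent.TG.ms y₀ ρ q)) (Pool.Agent.TG.tl q) : Vd (k + 2)) 0)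
        (Pool.Agent.TG.tl (Fin.cons (α := fun _ => ℂ) (q 0 - φ (Pool.Agent.TG.ms y₀ ρ q)) (Pool.Agent.TG.tl q))) : Vd (k + 2)) = q := by
      funext i
      refine Fin.cases ?_ (fun j => ?_) i
      · show φ (Pool.Agent.TG.ms y₀ ρ q) + (q 0 - φ (Pool.Agent.TG.ms y₀ ρ q)) = q 0
        ring
      · rfl
    simp only [hK] at h2
    rw [h3] at h2
    rw [h2]
    rfl
  · have h1 : ∀ᶠ y in 𝓝 y₀, ‖(ρ : ℂ)⁻¹ • (y - y₀)‖ < R := by
      have h2 : Continuous fun y : Vd (k + 1) => ‖(ρ : ℂ)⁻¹ • (y - y₀)‖ := by fun_prop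
      refine h2.continuousAt.eventually_lt_const ?_
      simpa using hR
    filter_upwards [h1] with y hy
    obtain ⟨hvD, hvO⟩ := hv _ hy
    have e1 : y₀ + (ρ : ℂ) • ((ρ : ℂ)⁻¹ • (y - y₀)) = y := by
      rw [smul_smul, mul_inv_cancel₀ hρ', one_smul, add_sub_cancel]
    have h3 := div_iff hb hKb hy
    have h4 := hvO (μ + 1)
    have e2 : (fun t : ℂ => K (Fin.cons (α := fun _ => ℂ) t ((ρ : ℂ)⁻¹ • (y - y₀)))) =
        fun t : ℂ => Q (χ.σ (Fin.cons (α := fun _ => ℂ) (φ (y₀ + (ρ : ℂ) • ((ρ : ℂ)⁻¹ • (y - y₀))) + t) ((ρ : ℂ)⁻¹ • (y - y₀)))) := rfl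
    rw [e2] at h3
    have h5 := h4.trans h3
    rw [e1] at h5 hvD
    have e3 : (Fin.cons (α := fun _ => ℂ) ((Fin.cons (α := fun _ => ℂ) (φ y) ((ρ : ℂ)⁻¹ • (y - y₀)) : Vd (k + 2)) 0 -
        φ (Pool.Agent.TG.ms y₀ ρ (Fin.cons (α := fun _ => ℂ) (φ y) ((ρ : ℂ)⁻¹ • (y - y₀))))) (Pool.Agent.TG.tl (Fin.cons (α := fun _ => ℂ) (φ y) ((ρ : ℂ)⁻¹ • (y - y₀)))) : Vd (k + 2)) =
        Fin.cons (α := fun _ => ℂ) 0 ((ρ : ℂ)⁻¹ • (y - y₀)) := by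
      rw [ms_cons, e1]
      funext i
      refine Fin.cases ?_ (fun j => ?_) i
      · show φ y - φ y = 0
        ring
      · rfl
    rw [e3]
    constructor
    · intro h
      exact h5.1 h.2
    · intro h
      exact ⟨hvD, h5.2 h⟩

private theorem beta_of {X : Set (EN N)} {Λ : AddSubgroup (Vd (k + 1))} {u : EN N → Vd (k + 1)} {Q : EN N → ℂ} {Φ : Vd (k + 1) → MN N} {μ : ℕ} {Z : Set (Vd (k + 1))}
    {y₀ : Vd (k + 1)} (h : OrdAt X Λ u Q Φ μ Z y₀) : ∃ β : Vd (k + 1) → ℂ, AnalyticAt ℂ β y₀ ∧ ∀ᶠ y in 𝓝 y₀, (y ∈ Z ↔ β y = 0) := by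
  obtain ⟨χ, c, ρ, q₀, φ, b, hstr, hq₀, hms, hφ, hφ0, hb, -, -, hZ⟩ := h
  refine ⟨fun y => b (Fin.cons (α := fun _ => ℂ) (φ y) ((ρ : ℂ)⁻¹ • (y - c))), ?_, hZ⟩
  refine AnalyticAt.fun_comp (g := b) (f := fun y : Vd (k + 1) => (Fin.cons (α := fun _ => ℂ) (φ y) ((ρ : ℂ)⁻¹ • (y - c)) : Vd (k + 2))) ?_
    (cons_an hφ (by fun_prop))
  have h1 := eq_cons hstr.pos hms
  simp only [hφ0]
  rw [← h1]
  exact hb

private theorem period {X : Set (EN N)} {Λ : AddSubgroup (Vd (k + 1))} {u : EN N → Vd (k + 1)} {D B : Set (Vd (k + 1))} {S : Set (Vd (k + 1) → MN N)}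
    (G : Geo X Λ u D B) (hS : Csf X Λ u D S) {Φ : Vd (k + 1) → MN N} (hΦ : Φ ∈ S) : ∃ M : ℕ, 1 ≤ M ∧ ∀ l ∈ Λ, ∀ y ∉ D, Φ (y + M • l) = Φ y := by
  classical
  set T := hS.fin.toFinset with hT
  refine ⟨T.card.factorial, Nat.factorial_pos _, fun l hl => ?_⟩
  have h1 : ∀ m : ℕ, ∃ f ∈ S, ∀ y ∉ D, f y = Φ (y + m • l) := fun m => hS.tr Φ hΦ (m • l) (Λ.nsmul_mem hl m)
  choose f hf hfe using h1
  obtain ⟨i, hi, j, hj, hij, hfij⟩ := Finset.exists_ne_map_eq_of_card_lt_of_maps_to (s := Finset.range (T.card + 1)) (t := T) (f := f)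
    (by rw [Finset.card_range]; omega) (fun m _ => by rw [hT]; simpa using hf m)
  -- a period `m ≤ card`
  obtain ⟨m, hm1, hm2, hm⟩ : ∃ m : ℕ, 1 ≤ m ∧ m ≤ T.card ∧ ∀ y ∉ D, Φ (y + m • l) = Φ y := by
    have key : ∀ i j : ℕ, i < j → j ≤ T.card → f i = f j → ∃ m : ℕ, 1 ≤ m ∧ m ≤ T.card ∧ ∀ y ∉ D, Φ (y + m • l) = Φ y := by
      intro i j hij hj hfij
      refine ⟨j - i, by omega, by omega, fun y hy => ?_⟩
      have hy' : y - i • l ∉ D := by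
        intro h
        have h2 := G.D_inv _ h (i • l) (Λ.nsmul_mem hl i)
        rw [sub_add_cancel] at h2
        exact hy h2
      have h2 := hfe i _ hy'
      have h3 := hfe j _ hy'
      rw [hfij, h3] at h2
      rw [sub_add_cancel] at h2
      rw [← h2]
      congr 1
      have e : j = i + (j - i) := by omega
      conv_rhs => rw [e, add_smul]
      abel
    rw [Finset.mem_range] at hi hj
    rcases lt_or_gt_of_ne hij with h | h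
    · exact key i j h (by omega) hfij
    · exact key j i h (by omega) hfij.symm
  obtain ⟨n, hn⟩ := Nat.dvd_factorial hm1 hm2
  have h2 : ∀ t : ℕ, ∀ y ∉ D, Φ (y + (m * t) • l) = Φ y := by
    intro t
    induction t with
    | zero =>
      intro y _
      rw [mul_zero, zero_smul, add_zero]
    | succ t ih =>
      intro y hy
      have hy' : y + (m * t) • l ∉ D := by
        intro h
        exact hy ((G.D_sub (Λ.nsmul_mem hl _)).1 h)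
      rw [mul_add, mul_one, add_smul, ← add_assoc, hm _ hy', ih y hy]
  rw [hn]
  exact h2 n

theorem ordQ {X : Set (EN N)} {Λ : AddSubgroup (Vd (k + 1))} {u : EN N → Vd (k + 1)} {D B : Set (Vd (k + 1))} {Q : EN N → ℂ} {d : ℕ} {S : Set (Vd (k + 1) → MN N)}
    (G : Geo X Λ u D B) (hs : Simp Λ) (hL : LDi D) (hS : Csf X Λ u D S) (hQ : QD X Λ u D Q d) (hQ0 : ∀ x ∈ X, ∃ᶠ x' in 𝓝 x, x' ∈ X ∧ Q x' ≠ 0)
    {Φ : Vd (k + 1) → MN N} (hΦ : Φ ∈ S) (h0 : ∀ y ∉ D, ∀ x ∈ X, pr x = Φ y → Q x = 0) :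
    ∃ (μ : ℕ) (Z : Set (Vd (k + 1))), 1 ≤ μ ∧ (∀ y ∉ D, OrdAt X Λ u Q Φ μ Z y) ∧ (∃ M : ℕ, 1 ≤ M ∧ ∀ y ∈ Z, ∀ l ∈ Λ, y + M • l ∈ Z) ∧
      ∀ a : Vd (k + 1), a ≠ 0 → ∀ b : Vd (k + 1), Set.Countable {z : ℂ | z • a + b ∈ D ∪ Z} := by
  classical
  have hfin := ord_finite G hS hQ hQ0 hΦ
  set j₀ := Nat.find hfin with hj₀
  obtain ⟨ys, hys, hysO⟩ := Nat.find_spec hfin
  have hmin : ∀ j < j₀, ∀ y ∉ D, OG X Λ u Q Φ j y := by
    intro j hj y hy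
    by_contra hcon
    exact Nat.find_min hfin hj ⟨y, hy, hcon⟩
  have hOG1 : ∀ j : ℕ, j ≤ 1 → ∀ y ∉ D, OG X Λ u Q Φ j y := by
    intro j hj y hy γ hγ hγX hγ0
    have hx := hγX.self_of_nhds
    have hq0 : Q (γ 0) = 0 := h0 y hy _ hx.1 hγ0
    have hd : DifferentiableAt ℂ (fun t => Q (γ t)) 0 := (hQ.diff _).comp (0 : ℂ) hγ.differentiableAt
    have h1 := O_of hd hq0 0
    have h2 : (fun t => Q (γ t)) =O[𝓝 (0 : ℂ)] (fun t : ℂ => t) := by simpa using h1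
    interval_cases j
    · have h3 : (fun t : ℂ => t) =O[𝓝 (0 : ℂ)] (fun _ : ℂ => (1 : ℂ)) := continuousAt_id.isBigO_one ℂ
      simpa using h2.trans h3
    · simpa using h2
  have hj2 : 2 ≤ j₀ := by
    by_contra hlt
    push Not at hlt
    exact hysO (hOG1 j₀ (by omega) ys hys)
  obtain ⟨μ, hμ⟩ : ∃ μ, j₀ = μ + 1 := ⟨j₀ - 1, by omega⟩
  have hμ1 : 1 ≤ μ := by omega
  have hμO : ∀ y ∉ D, OG X Λ u Q Φ μ y := hmin μ (by omega)
  obtain ⟨M, hM, hMΦ⟩ := period G hS hΦ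
  have hord : ∀ y ∉ D, OrdAt X Λ u Q Φ μ {y | y ∉ D ∧ OG X Λ u Q Φ (μ + 1) y} y := fun y hy => ordAt_of G hS hQ hΦ hμO hy
  have hper : ∀ y ∈ {y | y ∉ D ∧ OG X Λ u Q Φ (μ + 1) y}, ∀ l ∈ Λ, y + M • l ∈ {y | y ∉ D ∧ OG X Λ u Q Φ (μ + 1) y} := by
    rintro y ⟨hyD, hyO⟩ l hl
    have hMl : M • l ∈ Λ := Λ.nsmul_mem hl M
    refine ⟨fun h => hyD ((G.D_sub hMl).1 h), ?_⟩
    intro γ hγ hγX hγ0
    refine hyO γ hγ ?_ (hγ0.trans (hMΦ l hl y hyD))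
    filter_upwards [hγX] with t ht
    refine ⟨ht.1, ?_⟩
    have h1 := Λ.add_mem ht.2 hMl
    convert h1 using 1
    abel
  refine ⟨μ, _, hμ1, hord, ⟨M, hM, hper⟩, fun a ha b => ?_⟩
  refine lines_count G.lat hs hL G.D_closed (fun y hy l hl => (G.D_sub hl).2 hy) (fun y hy => hy.1) (fun y hy => ?_) hM hper hys
    (fun h => hysO (by rw [← hj₀, hμ]; exact h.2)) ha b
  obtain ⟨β, hβ, hβe⟩ := beta_of (hord y hy)
  refine ⟨1, fun z _ => β z, analyticAt_pi_iff.2 fun _ => hβ, ?_⟩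
  filter_upwards [hβe] with z hz
  rw [hz]
  exact ⟨fun h => funext fun _ => h, fun h => congrFun h 0⟩

end Pool.Agent.G4
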